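import Pool.Agent.H.MP_f23a5d_lc.Process

set_option autoImplicit false

namespace Pool.Agent.H.MP_f23a5d_lc

variable {d : ℕ}

/-- The expected total reward of a random descent. -/
noncomputable def val (nxt : Finset (Fin d → ℤ) → (Fin d → ℤ) → Finset (Fin d → ℤ))
    (ρ : Finset (Fin d → ℤ) → (Fin d → ℤ) → ℝ) (τ : Finset (Fin d → ℤ) → ℝ) :
    ℕ → Finset (Fin d → ℤ) → ℝ
  | 0, R => τ R
  | m + 1, R => (∑ c ∈ R, (ρ R c + val nxt ρ τ m (nxt R c))) / (R.card : ℝ)

section val

variable {nxt : Finset (Fin d → ℤ) → (Fin d → ℤ) → Finset (Fin d → ℤ)}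
  {ρ ρ' : Finset (Fin d → ℤ) → (Fin d → ℤ) → ℝ} {τ τ' : Finset (Fin d → ℤ) → ℝ}
  {X : Finset (Fin d → ℤ)}

theorem val_mono (hn : ∀ R c, nxt R c ⊆ R) (hρ : ∀ R ⊆ X, ∀ c ∈ R, ρ R c ≤ ρ' R c)
    (hτ : ∀ R ⊆ X, τ R ≤ τ' R) (m : ℕ) : ∀ R ⊆ X, val nxt ρ τ m R ≤ val nxt ρ' τ' m R := by
  induction m with
  | zero => exact hτ
  | succ m ih =>
    intro R hR
    simp only [val]
    apply div_le_div_of_nonneg_right _ (Nat.cast_nonneg _)
    apply Finset.sum_le_sum
    intro c hc
    exact add_le_add (hρ R hR c hc) (ih _ ((hn R c).trans hR))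

theorem val_nonneg (hn : ∀ R c, nxt R c ⊆ R) (hρ : ∀ R ⊆ X, ∀ c ∈ R, 0 ≤ ρ R c)
    (hτ : ∀ R ⊆ X, 0 ≤ τ R) (m : ℕ) : ∀ R ⊆ X, 0 ≤ val nxt ρ τ m R := by
  induction m with
  | zero => exact hτ
  | succ m ih =>
    intro R hR
    simp only [val]
    apply div_nonneg _ (Nat.cast_nonneg _)
    apply Finset.sum_nonneg
    intro c hc
    exact add_nonneg (hρ R hR c hc) (ih _ ((hn R c).trans hR))

theorem val_smul (a : ℝ) (m : ℕ) : ∀ R,
    a * val nxt ρ (fun _ => 0) m R = val nxt (fun R c => a * ρ R c) (fun _ => 0) m R := by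
  induction m with
  | zero => intro R; simp [val]
  | succ m ih =>
    intro R
    simp only [val, ← ih, ← mul_add, ← Finset.mul_sum, mul_div_assoc]

theorem val_sum {α : Type} (I : Finset α)
    (r : α → Finset (Fin d → ℤ) → (Fin d → ℤ) → ℝ) (m : ℕ) : ∀ R,
    ∑ i ∈ I, val nxt (r i) (fun _ => 0) m R =
      val nxt (fun R c => ∑ i ∈ I, r i R c) (fun _ => 0) m R := by
  induction m with
  | zero => intro R; simp [val]
  | succ m ih =>
    intro R
    simp only [val]
    rw [← Finset.sum_div, Finset.sum_comm]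
    congr 1
    apply Finset.sum_congr rfl
    intro c _
    rw [Finset.sum_add_distrib, ih]

/-- A lower bound for the step: dropping the present reward. -/
theorem val_succ_ge (hρ : ∀ R ⊆ X, ∀ c ∈ R, 0 ≤ ρ R c) {R : Finset (Fin d → ℤ)} (hR : R ⊆ X)
    (m : ℕ) : (∑ c ∈ R, val nxt ρ τ m (nxt R c)) / (R.card : ℝ) ≤ val nxt ρ τ (m + 1) R := by
  simp only [val]
  apply div_le_div_of_nonneg_right _ (Nat.cast_nonneg _)
  apply Finset.sum_le_sum
  intro c hc
  linarith [hρ R hR c hc]

open Classical in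
/-- Key lemma of the analysis: following the target `y`. -/
theorem follow (hn : ∀ R c, nxt R c ⊆ R) (bad : (Fin d → ℤ) → Prop) (V : Finset (Fin d → ℤ))
    (y : Fin d → ℤ) (hy : ∀ R ⊆ X, ∀ c ∈ R, y ∈ R → ¬ bad c → c ∉ V → y ∈ nxt R c)
    {T a : ℝ} (hT : 0 < T) (ha : ∀ R ⊆ X, ((R ∩ V).card : ℝ) ≤ a) (ha0 : 0 ≤ a) (m : ℕ) :
    ∀ R ⊆ X, y ∈ R → 1 ≤ 16 * T ^ 2 * a *
        val nxt (fun R c => if y ∈ R ∧ c ∈ V then 1 / (R.card : ℝ) else 0) (fun _ => 0) m R +
      val nxt (fun _ c => if bad c then 1 else 0) (fun _ => 0) m R + m / (4 * T) +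
      val nxt (fun _ _ => 0) (fun R => (R.card : ℝ)) m R := by
  have hW : ∀ R ⊆ X, ∀ c ∈ R, (0 : ℝ) ≤ (fun (R : Finset (Fin d → ℤ)) (c : Fin d → ℤ) =>
      if y ∈ R ∧ c ∈ V then 1 / (R.card : ℝ) else 0) R c := by
    intro R _ c _
    dsimp only
    split_ifs <;> positivity
  have hM : ∀ R ⊆ X, ∀ c ∈ R, (0 : ℝ) ≤ (fun (_ : Finset (Fin d → ℤ)) (c : Fin d → ℤ) =>
      if bad c then (1 : ℝ) else 0) R c := by
    intro R _ c _
    dsimp only
    split_ifs <;> norm_num
  induction m with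
  | zero =>
    intro R hR hyR
    simp only [val, mul_zero, zero_add, Nat.cast_zero, zero_div, add_zero]
    have : 1 ≤ R.card := Finset.card_pos.2 ⟨y, hyR⟩
    exact_mod_cast this
  | succ m ih =>
    intro R hR hyR
    have hcard : (0 : ℝ) < R.card := by exact_mod_cast Finset.card_pos.2 ⟨y, hyR⟩
    set Wf := fun (R : Finset (Fin d → ℤ)) (c : Fin d → ℤ) =>
      if y ∈ R ∧ c ∈ V then 1 / (R.card : ℝ) else 0 with hWf
    set Mf := fun (_ : Finset (Fin d → ℤ)) (c : Fin d → ℤ) => if bad c then (1 : ℝ) else 0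
      with hMf
    have hWn := val_nonneg (τ := fun _ => 0) hn hW (fun _ _ => le_refl _) m
    have hMn := val_nonneg (τ := fun _ => 0) hn hM (fun _ _ => le_refl _) m
    have hBn := val_nonneg (X := X) (ρ := fun _ _ => 0) (τ := fun R => (R.card : ℝ)) hn
      (fun _ _ _ _ => le_refl _) (fun _ _ => Nat.cast_nonneg _) m
    have hMn' := val_nonneg (τ := fun _ => 0) hn hM (fun _ _ => le_refl _) (m + 1) R hR
    have hBn' := val_nonneg (X := X) (ρ := fun _ _ => 0) (τ := fun R => (R.card : ℝ)) hn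
      (fun _ _ _ _ => le_refl _) (fun _ _ => Nat.cast_nonneg _) (m + 1) R hR
    have hVsum : ∑ c ∈ R, Wf R c = ((R ∩ V).card : ℝ) * (1 / R.card) := by
      simp only [hWf, hyR, true_and]
      rw [← Finset.sum_filter, Finset.sum_const, nsmul_eq_mul, Finset.filter_mem_eq_inter]
    by_cases hcase : (R.card : ℝ) ≤ 4 * T * (R ∩ V).card
    · -- many violating centres
      have h1 : ((R ∩ V).card : ℝ) * (1 / R.card) / R.card ≤
          val nxt Wf (fun _ => 0) (m + 1) R := by
        simp only [val]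
        rw [← hVsum]
        apply div_le_div_of_nonneg_right _ hcard.le
        apply Finset.sum_le_sum
        intro c _
        linarith [hWn (nxt R c) ((hn R c).trans hR)]
      have h2 : 1 ≤ 16 * T ^ 2 * a * (((R ∩ V).card : ℝ) * (1 / R.card) / R.card) := by
        have e : 16 * T ^ 2 * a * (((R ∩ V).card : ℝ) * (1 / R.card) / R.card) =
            (16 * T ^ 2 * a * (R ∩ V).card) / (R.card : ℝ) ^ 2 := by
          field_simp
        rw [e, le_div_iff₀ (by positivity), one_mul]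
        have h3 := ha R hR
        have h4 : (0 : ℝ) ≤ (R ∩ V).card := Nat.cast_nonneg _
        calc (R.card : ℝ) ^ 2 ≤ (4 * T * (R ∩ V).card) ^ 2 := by
              apply pow_le_pow_left₀ hcard.le hcase
          _ = 16 * T ^ 2 * (R ∩ V).card * (R ∩ V).card := by ring
          _ ≤ 16 * T ^ 2 * a * (R ∩ V).card := by
              apply mul_le_mul_of_nonneg_right _ h4
              apply mul_le_mul_of_nonneg_left h3 (by positivity)
      have h5 : 16 * T ^ 2 * a * (((R ∩ V).card : ℝ) * (1 / R.card) / R.card) ≤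
          16 * T ^ 2 * a * val nxt Wf (fun _ => 0) (m + 1) R :=
        mul_le_mul_of_nonneg_left h1 (by positivity)
      have h6 : (0 : ℝ) ≤ ((m + 1 : ℕ) : ℝ) / (4 * T) := by positivity
      linarith
    · push Not at hcase
      have hsum : (R.card : ℝ) ≤ ∑ c ∈ R, (Mf R c + (if c ∈ V then (1 : ℝ) else 0) +
          (16 * T ^ 2 * a * val nxt Wf (fun _ => 0) m (nxt R c) +
            val nxt Mf (fun _ => 0) m (nxt R c) + m / (4 * T) +
            val nxt (fun _ _ => 0) (fun R => (R.card : ℝ)) m (nxt R c))) := by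
        have : (R.card : ℝ) = ∑ _c ∈ R, (1 : ℝ) := by simp
        rw [this]
        apply Finset.sum_le_sum
        intro c hc
        have hsub := (hn R c).trans hR
        have e1 := hWn _ hsub
        have e2 := hMn _ hsub
        have e3 := hBn _ hsub
        have e4 : 0 ≤ 16 * T ^ 2 * a * val nxt Wf (fun _ => 0) m (nxt R c) := by positivity
        have e5 : (0 : ℝ) ≤ (m : ℝ) / (4 * T) := by positivity
        have e6 := hM R hR c hc
        by_cases hbad : bad c
        · have : Mf R c = 1 := by simp [hMf, hbad]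
          have e7 : (0 : ℝ) ≤ if c ∈ V then (1 : ℝ) else 0 := by split_ifs <;> norm_num
          linarith
        · by_cases hcV : c ∈ V
          · have : (if c ∈ V then (1 : ℝ) else 0) = 1 := by simp [hcV]
            linarith
          · have h7 := ih (nxt R c) hsub (hy R hR c hc hyR hbad hcV)
            have e7 : (0 : ℝ) ≤ if c ∈ V then (1 : ℝ) else 0 := by split_ifs <;> norm_num
            linarith
      have hsplit : ∑ c ∈ R, (Mf R c + (if c ∈ V then (1 : ℝ) else 0) +
          (16 * T ^ 2 * a * val nxt Wf (fun _ => 0) m (nxt R c) +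
            val nxt Mf (fun _ => 0) m (nxt R c) + m / (4 * T) +
            val nxt (fun _ _ => 0) (fun R => (R.card : ℝ)) m (nxt R c))) =
          ((R ∩ V).card : ℝ) + R.card * (m / (4 * T)) +
          16 * T ^ 2 * a * (∑ c ∈ R, val nxt Wf (fun _ => 0) m (nxt R c)) +
          (∑ c ∈ R, (Mf R c + val nxt Mf (fun _ => 0) m (nxt R c))) +
          (∑ c ∈ R, val nxt (fun _ _ => 0) (fun R => (R.card : ℝ)) m (nxt R c)) := by
        simp only [Finset.sum_add_distrib, ← Finset.mul_sum, Finset.sum_const, nsmul_eq_mul]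
        have : ∑ c ∈ R, (if c ∈ V then (1 : ℝ) else 0) = ((R ∩ V).card : ℝ) := by
          rw [← Finset.sum_filter, Finset.sum_const, nsmul_eq_mul, mul_one,
            Finset.filter_mem_eq_inter]
        rw [this]
        ring
      rw [hsplit] at hsum
      have hW1 := val_succ_ge (nxt := nxt) (τ := fun _ => 0) hW hR m
      have hB1 := val_succ_ge (X := X) (nxt := nxt) (ρ := fun _ _ => 0)
        (τ := fun R => (R.card : ℝ)) (fun _ _ _ _ => le_refl _) hR m
      have hM1 : (∑ c ∈ R, (Mf R c + val nxt Mf (fun _ => 0) m (nxt R c))) / (R.card : ℝ) =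
          val nxt Mf (fun _ => 0) (m + 1) R := rfl
      have hVc : ((R ∩ V).card : ℝ) / R.card ≤ 1 / (4 * T) := by
        rw [div_le_div_iff₀ hcard (by positivity)]
        linarith
      have hdiv : (1 : ℝ) ≤ ((R ∩ V).card : ℝ) / R.card + m / (4 * T) +
          16 * T ^ 2 * a * ((∑ c ∈ R, val nxt Wf (fun _ => 0) m (nxt R c)) / R.card) +
          (∑ c ∈ R, (Mf R c + val nxt Mf (fun _ => 0) m (nxt R c))) / R.card +
          (∑ c ∈ R, val nxt (fun _ _ => 0) (fun R => (R.card : ℝ)) m (nxt R c)) / R.card := by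
        have e : ((R ∩ V).card : ℝ) / R.card + m / (4 * T) +
          16 * T ^ 2 * a * ((∑ c ∈ R, val nxt Wf (fun _ => 0) m (nxt R c)) / R.card) +
          (∑ c ∈ R, (Mf R c + val nxt Mf (fun _ => 0) m (nxt R c))) / R.card +
          (∑ c ∈ R, val nxt (fun _ _ => 0) (fun R => (R.card : ℝ)) m (nxt R c)) / R.card =
          (((R ∩ V).card : ℝ) + R.card * (m / (4 * T)) +
          16 * T ^ 2 * a * (∑ c ∈ R, val nxt Wf (fun _ => 0) m (nxt R c)) +
          (∑ c ∈ R, (Mf R c + val nxt Mf (fun _ => 0) m (nxt R c))) +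
          (∑ c ∈ R, val nxt (fun _ _ => 0) (fun R => (R.card : ℝ)) m (nxt R c))) /
            R.card := by
          field_simp
        rw [e, le_div_iff₀ hcard, one_mul]
        exact hsum
      have hWmul : 16 * T ^ 2 * a *
          ((∑ c ∈ R, val nxt Wf (fun _ => 0) m (nxt R c)) / R.card) ≤
          16 * T ^ 2 * a * val nxt Wf (fun _ => 0) (m + 1) R :=
        mul_le_mul_of_nonneg_left hW1 (by positivity)
      have hcast : ((m + 1 : ℕ) : ℝ) / (4 * T) = m / (4 * T) + 1 / (4 * T) := by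
        push_cast; ring
      rw [hcast]
      linarith

end val

end Pool.Agent.H.MP_f23a5d_lc
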