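import Pool.Agent.H.MP_f23a5d_lc.Lattice

set_option autoImplicit false

namespace Pool.Agent.H.MP_f23a5d_lc

open Module Submodule

theorem auerbach {V : Type} [AddCommGroup V] [Module ℝ V] [FiniteDimensional ℝ V]
    (S : Finset V) :
    ∃ v : Fin (finrank ℝ (span ℝ (S : Set V))) → V, (∀ i, v i ∈ S) ∧
      LinearIndependent ℝ v ∧ ∀ y ∈ S,
        ∃ t : Fin (finrank ℝ (span ℝ (S : Set V))) → ℝ, (∀ i, |t i| ≤ 1) ∧
          y = ∑ i, t i • v i := by
  classical
  set W := span ℝ (S : Set V) with hW
  set k := finrank ℝ W with hk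
  let u : S → W := fun y => ⟨y, subset_span y.2⟩
  let e : Basis (Fin k) ℝ W := Module.finBasis ℝ W
  obtain ⟨f0, hf0S, hf0span, hf0li⟩ := exists_fun_fin_finrank_span_eq ℝ (S : Set V)
  let g0 : Fin k → S := fun i => ⟨f0 i, hf0S i⟩
  have hval : ∀ g : Fin k → S, (W.subtype ∘ (u ∘ g)) = fun i => ((g i : S) : V) := by
    intro g; funext i; rfl
  have h0 : IsUnit (e.det (u ∘ g0)) := by
    rw [← Module.Basis.is_basis_iff_det]
    constructor
    · apply LinearIndependent.of_comp W.subtype
      rw [hval]
      exact hf0li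
    · apply (Submodule.map_injective_of_injective W.subtype_injective)
      rw [Submodule.map_span, ← Set.range_comp, hval, Submodule.map_top, range_subtype]
      exact hf0span
  have : Nonempty (Fin k → S) := ⟨g0⟩
  obtain ⟨g, hg⟩ := Finite.exists_max (fun g : Fin k → S => |e.det (u ∘ g)|)
  have hpos : 0 < |e.det (u ∘ g)| := lt_of_lt_of_le (abs_pos.2 h0.ne_zero) (hg g0)
  have hunit : IsUnit (e.det (u ∘ g)) := (abs_pos.1 hpos).isUnit
  rw [← Module.Basis.is_basis_iff_det] at hunit
  obtain ⟨hli, hsp⟩ := hunit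
  refine ⟨fun i => (g i : V), fun i => (g i).2, ?_, ?_⟩
  · have := hli.map' W.subtype (ker_subtype W)
    rw [hval] at this
    exact this
  · intro y hy
    let b := Basis.mk hli hsp.ge
    refine ⟨fun i => b.repr (u ⟨y, hy⟩) i, fun i => ?_, ?_⟩
    · have h1 := congrArg (fun φ => φ (u ⟨y, hy⟩)) (Module.Basis.det_smul_mk_coord_eq_det_update e hli hsp.ge i)
      simp only [LinearMap.smul_apply, smul_eq_mul, MultilinearMap.toLinearMap_apply] at h1
      have h2 : Function.update (u ∘ g) i (u ⟨y, hy⟩) = u ∘ (Function.update g i ⟨y, hy⟩) := by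
        rw [Function.comp_update]
      have h3 : e.det (u ∘ g) * b.repr (u ⟨y, hy⟩) i =
          e.det (u ∘ (Function.update g i ⟨y, hy⟩)) := by
        rw [← h2]
        exact h1
      have h4 := hg (Function.update g i ⟨y, hy⟩)
      rw [← h3, abs_mul] at h4
      by_contra hcon
      push Not at hcon
      have : |e.det (u ∘ g)| < |e.det (u ∘ g)| * |b.repr (u ⟨y, hy⟩) i| :=
        lt_mul_of_one_lt_right hpos hcon
      linarith
    · have h5 := b.sum_repr (u ⟨y, hy⟩)
      have h6 := congrArg W.subtype h5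
      rw [map_sum] at h6
      simp only [map_smul] at h6
      have h7 : ∀ i, W.subtype (b i) = (g i : V) := by
        intro i
        simp only [b, Basis.mk_apply]
        rfl
      simp only [h7] at h6
      exact h6.symm

end Pool.Agent.H.MP_f23a5d_lc
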