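import Pool.Agent.H.MP_f23a5d_lc.Glue

set_option autoImplicit false

namespace Pool.Agent.H.MP_f23a5d_lc

variable {d : ℕ}

/-- Convex functions are never rejected. -/
theorem rej_zero {O : (Fin d → ℤ) → ((Fin d → ℤ) → ℝ) → Option ((Fin d → ℝ) × ℝ)} {η : ℝ}
    {X : Finset (Fin d → ℤ)} {T : ℕ} {f : (Fin d → ℤ) → ℝ}
    (hO : ∀ c ∈ X, ∃ p, O c f = some (p, f c) ∧ Valid X f c p η) (k : ℕ) :
    ∀ z ∈ X, rej O η X T k z f = 0 := by
  induction k with
  | zero =>
    intro z hz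
    obtain ⟨p, hp, -⟩ := hO z hz
    simp [rej, hp, comb]
  | succ k ih =>
    intro z hz
    obtain ⟨p, hp, hval⟩ := hO z hz
    rw [rej, hp]
    simp only [comb]
    have hproc : ∀ m, ∀ R ⊆ X, proc O η (rej O η X T k) z (p, f z) m R f = 0 := by
      intro m
      induction m with
      | zero => intro R _; rfl
      | succ m ihm =>
        intro R hR
        rw [proc_succ]
        have h0 : ∀ c ∈ R, ∀ y ∈ R, tt η (fun c => O c f) (fun c => rej O η X T k c f) f z
            (p, f z) c y = 0 := by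
          intro c hc y hy
          obtain ⟨pc, hpc, hvalc⟩ := hO c (hR hc)
          rw [tt, hpc]
          simp only
          rw [if_neg, if_neg, ih c (hR hc)]
          · have := hvalc y (hR hy)
            rw [not_lt]
            exact this
          · have := hval c (hR hc)
            rw [not_lt]
            exact this
        have h1 : ∀ c ∈ R, (∑ y ∈ R, (tt η (fun c => O c f)
            (fun c => rej O η X T k c f) f z (p, f z) c y +
            (1 - tt η (fun c => O c f) (fun c => rej O η X T k c f) f z (p, f z) c y) *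
            proc O η (rej O η X T k) z (p, f z) m (nx η (fun c => O c f) z (p, f z) R c) f)) /
              (R.card : ℝ) = 0 := by
          intro c hc
          rw [Finset.sum_eq_zero, zero_div]
          intro y hy
          rw [h0 c hc y hy, ihm _ ((nx_subset R c).trans hR)]
          ring
        rw [Finset.sum_eq_zero h1, zero_div]
    rw [ih z hz, hproc T X (Finset.Subset.refl _)]
    ring

theorem polylog (A : ℕ) {t : ℝ} (ht : 0 < t) :
    ∃ C : ℝ, 0 < C ∧ ∀ x : ℝ, 1 ≤ x → (1 + Real.log x) ^ A ≤ C * x ^ t := by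
  set u : ℝ := t / (A + 1) with hu
  have hu0 : 0 < u := by positivity
  refine ⟨(1 + 1 / u) ^ A, by positivity, fun x hx => ?_⟩
  have hx0 : 0 < x := by linarith
  have h1 : Real.log x ≤ x ^ u / u := Real.log_le_rpow_div hx0.le hu0
  have h2 : 1 ≤ x ^ u := Real.one_le_rpow hx hu0.le
  have h3 : 0 ≤ Real.log x := Real.log_nonneg hx
  have h4 : 1 + Real.log x ≤ (1 + 1 / u) * x ^ u := by
    have : (1 + 1 / u) * x ^ u = x ^ u + x ^ u / u := by ring
    linarith
  calc (1 + Real.log x) ^ A ≤ ((1 + 1 / u) * x ^ u) ^ A :=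
        pow_le_pow_left₀ (by linarith) h4 A
    _ = (1 + 1 / u) ^ A * (x ^ u) ^ A := mul_pow _ _ _
    _ ≤ (1 + 1 / u) ^ A * x ^ t := by
        apply mul_le_mul_of_nonneg_left _ (by positivity)
        rw [← Real.rpow_natCast, ← Real.rpow_mul hx0.le]
        apply Real.rpow_le_rpow_of_exponent_le hx
        rw [hu, div_mul_eq_mul_div, div_le_iff₀ (by positivity)]
        nlinarith

/-- `f` is far from all convex functions on the grid. -/
def FarBox (n : ℕ) (ε : ℝ) (f : (Fin d → ℤ) → ℝ) : Prop :=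
  ∀ g : (Fin d → ℤ) → ℝ, (∀ x ∈ Box d n, 0 ≤ g x ∧ g x ≤ 1) → SubConv (Box d n) g →
    ε * (n : ℝ) ^ d ≤ ∑ x ∈ Box d n, |f x - g x|

/-- The tester for grids of moderate size; it never rejects convex functions. -/
theorem coarse (d : ℕ) {s : ℝ} (hs : 0 < s) : ∃ C : ℝ, 0 < C ∧ ∀ n : ℕ, 1 ≤ n → ∀ ε : ℝ,
    0 < ε → ε ≤ 1 → ∃ q : ℕ, ∃ P : ((Fin d → ℤ) → ℝ) → ℝ, RComp q P ∧
      (q : ℝ) ≤ C * ε⁻¹ * (n / ε) ^ s ∧
      (∀ f, (∀ x ∈ Box d n, 0 ≤ f x ∧ f x ≤ 1) → BddSub n f → P f = 0) ∧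
      (∀ f, (∀ x ∈ Box d n, 0 ≤ f x ∧ f x ≤ 1) → FarBox n ε f → 9 / 10 ≤ P f) := by
  classical
  obtain ⟨C₀, hC₀, hsg⟩ := exists_sgAlg d
  -- the number of levels
  set K : ℕ := ⌈2 * (d : ℝ) / s⌉₊ + 1 with hK
  have hK1 : 1 ≤ K := by omega
  have hK1' : (1 : ℝ) ≤ K := by exact_mod_cast hK1
  have hKs : (d : ℝ) / K ≤ s / 2 := by
    have h1 : 2 * (d : ℝ) / s ≤ K := by
      rw [hK]; push_cast
      linarith [Nat.le_ceil (2 * (d : ℝ) / s)]
    rw [div_le_iff₀ (by linarith)]
    rw [div_le_iff₀ hs] at h1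
    linarith
  obtain ⟨C₁, hC₁, hpoly⟩ := polylog (2 * K + 5) (t := s / 2) (by linarith)
  set c₁ : ℝ := 2 ^ (d + 1) * (d + 3) + 1 with hc₁
  have hd0 : (0 : ℝ) ≤ d := Nat.cast_nonneg d
  have hc₁1 : 1 ≤ c₁ := by
    have : (0 : ℝ) ≤ 2 ^ (d + 1) * (d + 3) := by positivity
    linarith
  have hlogK : 0 ≤ Real.log (8 * K) := Real.log_nonneg (by linarith)
  set c₂ : ℝ := C₀ * (1 + Real.log (8 * K)) ^ 2 with hc₂
  have hc₂0 : 0 < c₂ := by positivity
  set c₃ : ℝ := (4 * c₁) ^ K + 64 * c₁ ^ 3 * K with hc₃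
  have hc₃0 : 0 < c₃ := by positivity
  refine ⟨7 * c₃ * (3 * c₁) ^ K * (2 * c₂ + 1) * C₁, by positivity, fun n hn ε hε hε1 => ?_⟩
  have hnr : (1 : ℝ) ≤ n := by exact_mod_cast hn
  have hn0 : (0 : ℝ) < n := by linarith
  set x : ℝ := n / ε with hx
  have hnx : (n : ℝ) ≤ x := by
    rw [hx, le_div_iff₀ hε]; nlinarith
  have hx1 : 1 ≤ x := hnr.trans hnx
  have hx0 : 0 < x := by linarith
  set L : ℝ := 1 + Real.log x with hL
  have hlogx : 0 ≤ Real.log x := Real.log_nonneg hx1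
  have hL1 : 1 ≤ L := by linarith
  have hL0 : 0 < L := by linarith
  have hlogn : 0 ≤ Real.log n := Real.log_nonneg hnr
  have hlognx : Real.log n ≤ Real.log x := Real.log_le_log hn0 hnx
  -- the precision
  set η : ℝ := ε / (8 * K) with hη
  have hη0 : 0 < η := by positivity
  have hη1 : η ≤ 1 := by
    rw [hη, div_le_one (by positivity)]; linarith
  obtain ⟨q, hq, horacle⟩ := hsg n hn η hη0 hη1
  have hqL : (q : ℝ) ≤ c₂ * L ^ 2 := by
    refine hq.trans ?_
    have e1 : Real.log (1 / η) = Real.log (8 * K) + Real.log (1 / ε) := by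
      rw [← Real.log_mul (by positivity) (by positivity)]
      congr 1
      rw [hη]; field_simp
    have e2 : Real.log n + Real.log (1 / ε) = Real.log x := by
      rw [← Real.log_mul (by positivity) (by positivity)]
      congr 1
      rw [hx]; field_simp
    have e3 : 1 + Real.log n + Real.log (1 / η) ≤ (1 + Real.log (8 * K)) * L := by
      rw [e1]
      have : (1 + Real.log (8 * K)) * L = 1 + Real.log x + Real.log (8 * K) +
          Real.log (8 * K) * Real.log x := by rw [hL]; ring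
      have : 0 ≤ Real.log (8 * K) * Real.log x := mul_nonneg hlogK hlogx
      linarith
    have e4 : 0 ≤ 1 + Real.log n + Real.log (1 / η) := by
      have : 0 ≤ Real.log (1 / η) := by
        apply Real.log_nonneg
        rw [le_div_iff₀ hη0]; linarith
      linarith
    calc C₀ * (1 + Real.log n + Real.log (1 / η)) ^ 2
        ≤ C₀ * ((1 + Real.log (8 * K)) * L) ^ 2 := by
          apply mul_le_mul_of_nonneg_left _ hC₀.le
          exact pow_le_pow_left₀ e4 e3 2
      _ = c₂ * L ^ 2 := by rw [hc₂]; ring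
  choose! O hOc hO1 hO2 using horacle
  set X := Box d n with hX
  have hXcard : (X.card : ℝ) = (n : ℝ) ^ d := by rw [hX, card_Box]; push_cast; rfl
  have hXlat : LatConv X := latConv_Box d n
  have hXne : X.Nonempty := Box_nonempty d hn
  -- the number of steps
  set T : ℕ := ⌈2 ^ (d + 1) * ((d : ℝ) * Real.log n + 3)⌉₊ with hT
  have hTarg : (1 : ℝ) ≤ 2 ^ (d + 1) * ((d : ℝ) * Real.log n + 3) := by
    have h1 : (1 : ℝ) ≤ 2 ^ (d + 1) := one_le_pow₀ (by norm_num)
    have h2 : (1 : ℝ) ≤ (d : ℝ) * Real.log n + 3 := by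
      have := mul_nonneg hd0 hlogn
      linarith
    exact one_le_mul_of_one_le_of_one_le h1 h2
  have hTle : 2 ^ (d + 1) * ((d : ℝ) * Real.log n + 3) ≤ T := Nat.le_ceil _
  have hT1' : (1 : ℝ) ≤ T := hTarg.trans hTle
  have hT1 : 1 ≤ T := by exact_mod_cast hT1'
  have hT0 : (0 : ℝ) < T := by linarith
  have hTc : (T : ℝ) ≤ c₁ * L := by
    have h1 : (T : ℝ) ≤ 2 ^ (d + 1) * ((d : ℝ) * Real.log n + 3) + 1 :=
      (Nat.ceil_lt_add_one (by linarith)).le
    refine h1.trans ?_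
    have h2 : (d : ℝ) * Real.log n + 3 ≤ (d + 3) * L := by
      have : (d : ℝ) * Real.log n ≤ d * Real.log x := mul_le_mul_of_nonneg_left hlognx hd0
      have : (d + 3 : ℝ) * L = d * Real.log x + 3 * Real.log x + d + 3 := by rw [hL]; ring
      linarith
    have h3 : (2 : ℝ) ^ (d + 1) * ((d : ℝ) * Real.log n + 3) ≤ 2 ^ (d + 1) * ((d + 3) * L) :=
      mul_le_mul_of_nonneg_left h2 (by positivity)
    have h4 : c₁ * L = 2 ^ (d + 1) * ((d + 3) * L) + L := by rw [hc₁]; ring
    linarith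
  have hTX : (1 - 1 / 2 ^ (d + 1)) ^ T * (X.card : ℝ) ≤ 1 / 16 := by
    have hpow : (0 : ℝ) < 2 ^ (d + 1) := by positivity
    have h1 : (1 : ℝ) - 1 / 2 ^ (d + 1) ≤ Real.exp (-(1 / 2 ^ (d + 1))) := by
      have := Real.add_one_le_exp (-(1 / (2 : ℝ) ^ (d + 1)))
      linarith
    have h0 : (0 : ℝ) ≤ 1 - 1 / 2 ^ (d + 1) := by
      have : 1 / (2 : ℝ) ^ (d + 1) ≤ 1 := by
        rw [div_le_one (by positivity)]
        exact one_le_pow₀ (by norm_num)
      linarith
    have h2 : (1 - 1 / 2 ^ (d + 1)) ^ T ≤ Real.exp (-((d : ℝ) * Real.log n + 3)) := by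
      calc (1 - 1 / (2 : ℝ) ^ (d + 1)) ^ T ≤ Real.exp (-(1 / 2 ^ (d + 1))) ^ T :=
            pow_le_pow_left₀ h0 h1 T
        _ = Real.exp (T * (-(1 / 2 ^ (d + 1)))) := by rw [← Real.exp_nat_mul]
        _ ≤ Real.exp (-((d : ℝ) * Real.log n + 3)) := by
            apply Real.exp_le_exp.2
            have : ((d : ℝ) * Real.log n + 3) ≤ T * (1 / 2 ^ (d + 1)) := by
              rw [mul_one_div, le_div_iff₀ hpow]
              linarith
            linarith
    rw [hXcard]
    have h3 : (n : ℝ) ^ d = Real.exp ((d : ℝ) * Real.log n) := by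
      rw [← Real.log_pow, Real.exp_log (by positivity)]
    calc (1 - 1 / (2 : ℝ) ^ (d + 1)) ^ T * (n : ℝ) ^ d
        ≤ Real.exp (-((d : ℝ) * Real.log n + 3)) * (n : ℝ) ^ d :=
          mul_le_mul_of_nonneg_right h2 (by positivity)
      _ = Real.exp (-3) := by
          rw [h3, ← Real.exp_add]; congr 1; ring
      _ ≤ 1 / 16 := by
          rw [Real.exp_neg, ← one_div]
          apply one_div_le_one_div_of_le (by norm_num)
          have h4 : (2.7 : ℝ) < Real.exp 1 := by
            have := Real.exp_one_gt_d9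
            linarith
          have h5 : Real.exp 3 = Real.exp 1 ^ 3 := by
            rw [← Real.exp_nat_mul]; norm_num
          rw [h5]
          have h6 : (2.7 : ℝ) ^ 3 ≤ Real.exp 1 ^ 3 := pow_le_pow_left₀ (by norm_num) h4.le 3
          norm_num at h6 ⊢
          linarith
  -- the ratio
  set b : ℝ := (n : ℝ) ^ (-((d : ℝ) / K)) with hb
  have hb0 : 0 < b := Real.rpow_pos_of_pos hn0 _
  have hbN : b ^ K * (X.card : ℝ) ≤ 1 := by
    rw [hXcard, hb, ← Real.rpow_natCast, ← Real.rpow_mul hn0.le]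
    have e1 : -((d : ℝ) / K) * K = -(d : ℝ) := by field_simp
    rw [e1, Real.rpow_neg hn0.le, Real.rpow_natCast]
    rw [inv_mul_cancel₀ (by positivity)]
  have hb1 : 1 / b ≤ x ^ (s / 2) := by
    have e1 : 1 / b = (n : ℝ) ^ ((d : ℝ) / K) := by
      rw [hb, Real.rpow_neg hn0.le, one_div, inv_inv]
    rw [e1]
    calc (n : ℝ) ^ ((d : ℝ) / K) ≤ (n : ℝ) ^ (s / 2) :=
          Real.rpow_le_rpow_of_exponent_le hnr hKs
      _ ≤ x ^ (s / 2) := Real.rpow_le_rpow hn0.le hnx (by linarith)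
  have hxs1 : 1 ≤ x ^ (s / 2) := Real.one_le_rpow hx1 (by linarith)
  -- rejection probability
  set D : ℝ := (4 * (T : ℝ)) ^ K + 64 * (T : ℝ) ^ 3 * K / b with hD
  have hD1 : 1 ≤ D := by
    have h1 : (1 : ℝ) ≤ (4 * (T : ℝ)) ^ K := one_le_pow₀ (by linarith)
    have h2 : 0 ≤ 64 * (T : ℝ) ^ 3 * K / b := by positivity
    linarith
  set ρ : ℝ := ε / 2 / D with hρ
  have hρ0 : 0 < ρ := by positivity
  have hρ1 : ρ ≤ 1 := by
    rw [hρ, div_le_one (by linarith)]; linarith
  set m : ℕ := ⌈3 / ρ⌉₊ with hm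
  have hm1 : 3 / ρ ≤ m := Nat.le_ceil _
  have hrc := fun z hz => rcomp_rej (O := O) (η := η) (T := T) (X := X) hOc K z hz
  have havg : RComp (cost q T K)
      (fun f => (∑ z ∈ X, rej O η X T K z f) / (X.card : ℝ)) :=
    RComp.avg X hXne _ hrc
  refine ⟨m * cost q T K, _, havg.repeat m, ?_, ?_, ?_⟩
  · -- the number of queries
    push_cast
    have hcost : (cost q T K : ℝ) ≤ (3 * c₁) ^ K * (2 * c₂ + 1) * L ^ (K + 2) := by
      have h1 : cost q T K ≤ (T + 2) ^ K * (2 * q + 1) := by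
        have := cost_le q T K
        omega
      have h2 : (cost q T K : ℝ) ≤ ((T : ℝ) + 2) ^ K * (2 * q + 1) := by exact_mod_cast h1
      refine h2.trans ?_
      have h3 : ((T : ℝ) + 2) ^ K ≤ (3 * c₁ * L) ^ K := by
        apply pow_le_pow_left₀ (by positivity)
        have : 1 ≤ c₁ * L := one_le_mul_of_one_le_of_one_le hc₁1 hL1
        rw [mul_assoc]
        linarith
      have h4 : 2 * (q : ℝ) + 1 ≤ (2 * c₂ + 1) * L ^ 2 := by
        have e1 : (1 : ℝ) ≤ L ^ 2 := one_le_pow₀ hL1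
        have e2 : (2 * c₂ + 1) * L ^ 2 = 2 * (c₂ * L ^ 2) + L ^ 2 := by ring
        rw [e2]
        linarith
      calc ((T : ℝ) + 2) ^ K * (2 * q + 1) ≤ (3 * c₁ * L) ^ K * ((2 * c₂ + 1) * L ^ 2) :=
            mul_le_mul h3 h4 (by positivity) (by positivity)
        _ = (3 * c₁) ^ K * (2 * c₂ + 1) * L ^ (K + 2) := by
            rw [mul_pow, pow_add]; ring
    have hDle : D ≤ c₃ * L ^ (K + 3) * x ^ (s / 2) := by
      have hLK : L ^ K ≤ L ^ (K + 3) := pow_le_pow_right₀ hL1 (by omega)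
      have hL3 : L ^ 3 ≤ L ^ (K + 3) := pow_le_pow_right₀ hL1 (by omega)
      have h1 : (4 * (T : ℝ)) ^ K ≤ (4 * c₁) ^ K * L ^ (K + 3) * x ^ (s / 2) := by
        calc (4 * (T : ℝ)) ^ K ≤ (4 * (c₁ * L)) ^ K :=
              pow_le_pow_left₀ (by positivity) (by linarith) K
          _ = (4 * c₁) ^ K * L ^ K := by rw [← mul_assoc, mul_pow]
          _ ≤ (4 * c₁) ^ K * L ^ (K + 3) := mul_le_mul_of_nonneg_left hLK (by positivity)
          _ ≤ (4 * c₁) ^ K * L ^ (K + 3) * x ^ (s / 2) :=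
              le_mul_of_one_le_right (by positivity) hxs1
      have h2 : 64 * (T : ℝ) ^ 3 * K / b ≤ 64 * c₁ ^ 3 * K * L ^ (K + 3) * x ^ (s / 2) := by
        have h3 : (T : ℝ) ^ 3 ≤ c₁ ^ 3 * L ^ 3 := by
          rw [← mul_pow]; exact pow_le_pow_left₀ hT0.le hTc 3
        calc 64 * (T : ℝ) ^ 3 * K / b = 64 * K * (T : ℝ) ^ 3 * (1 / b) := by ring
          _ ≤ 64 * K * (c₁ ^ 3 * L ^ 3) * x ^ (s / 2) := by
              apply mul_le_mul _ hb1 (by positivity) (by positivity)
              exact mul_le_mul_of_nonneg_left h3 (by positivity)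
          _ ≤ 64 * K * (c₁ ^ 3 * L ^ (K + 3)) * x ^ (s / 2) := by
              apply mul_le_mul_of_nonneg_right _ (by positivity)
              apply mul_le_mul_of_nonneg_left _ (by positivity)
              exact mul_le_mul_of_nonneg_left hL3 (by positivity)
          _ = 64 * c₁ ^ 3 * K * L ^ (K + 3) * x ^ (s / 2) := by ring
      calc D ≤ (4 * c₁) ^ K * L ^ (K + 3) * x ^ (s / 2) +
            64 * c₁ ^ 3 * K * L ^ (K + 3) * x ^ (s / 2) := by rw [hD]; linarith
        _ = c₃ * L ^ (K + 3) * x ^ (s / 2) := by rw [hc₃]; ring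
    have hmle : (m : ℝ) ≤ 7 * ε⁻¹ * D := by
      have h1 : (m : ℝ) ≤ 3 / ρ + 1 := (Nat.ceil_lt_add_one (by positivity)).le
      have h2 : 3 / ρ = 6 * ε⁻¹ * D := by
        rw [hρ]; field_simp; norm_num
      have h3 : 1 ≤ ε⁻¹ := by
        rw [← one_div, le_div_iff₀ hε]; linarith
      have h4 : 1 ≤ ε⁻¹ * D := one_le_mul_of_one_le_of_one_le h3 hD1
      have h5 : 7 * ε⁻¹ * D = 6 * ε⁻¹ * D + ε⁻¹ * D := by ring
      rw [h5]
      linarith
    have hεinv : 0 < ε⁻¹ := inv_pos.2 hε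
    have hpolyx := hpoly x hx1
    rw [← hL] at hpolyx
    have hxx : x ^ (s / 2) * x ^ (s / 2) = x ^ s := by
      rw [← Real.rpow_add hx0]; congr 1; ring
    calc (m : ℝ) * (cost q T K : ℝ)
        ≤ (7 * ε⁻¹ * (c₃ * L ^ (K + 3) * x ^ (s / 2))) *
            ((3 * c₁) ^ K * (2 * c₂ + 1) * L ^ (K + 2)) := by
          apply mul_le_mul _ hcost (Nat.cast_nonneg _) (by positivity)
          exact hmle.trans (mul_le_mul_of_nonneg_left hDle (by positivity))
      _ = 7 * c₃ * (3 * c₁) ^ K * (2 * c₂ + 1) * ε⁻¹ * x ^ (s / 2) * L ^ (2 * K + 5) := by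
          have : L ^ (2 * K + 5) = L ^ (K + 3) * L ^ (K + 2) := by
            rw [← pow_add]; congr 1; ring
          rw [this]; ring
      _ ≤ 7 * c₃ * (3 * c₁) ^ K * (2 * c₂ + 1) * ε⁻¹ * x ^ (s / 2) * (C₁ * x ^ (s / 2)) :=
          mul_le_mul_of_nonneg_left hpolyx (by positivity)
      _ = 7 * c₃ * (3 * c₁) ^ K * (2 * c₂ + 1) * C₁ * ε⁻¹ * (x ^ (s / 2) * x ^ (s / 2)) := by
          ring
      _ = 7 * c₃ * (3 * c₁) ^ K * (2 * c₂ + 1) * C₁ * ε⁻¹ * x ^ s := by rw [hxx]
  · -- convex functions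
    intro f hf hconv
    have h1 : ∀ z ∈ X, rej O η X T K z f = 0 := by
      apply rej_zero
      intro c hc
      exact hO2 c hc f (fun x hx => (hf x hx).2) hconv
    have h2 : (∑ z ∈ X, rej O η X T K z f) / (X.card : ℝ) = 0 := by
      rw [Finset.sum_eq_zero h1, zero_div]
    simp only [h2, sub_zero, one_pow, sub_self]
  · -- far functions
    intro f hf hfar
    have h1 := coarse_analysis (O := O) (η := η) (X := X) (T := T) (f := f) hXlat hη0 hT1 hTX
      hK1 hb0 hbN hε hη (by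
        intro c hc oc hoc
        exact hO1 c hc f oc.1 oc.2 hoc) hf (by
        intro g hg1 hg2
        rw [hXcard]
        exact hfar g hg1 hg2)
    have hXc0 : (0 : ℝ) < X.card := by exact_mod_cast hXne.card_pos
    have h2 : ρ ≤ (∑ z ∈ X, rej O η X T K z f) / (X.card : ℝ) := by
      rw [hρ, div_le_iff₀ (by linarith), div_mul_eq_mul_div, le_div_iff₀ hXc0]
      rw [← hD] at h1
      linarith
    have h3 : (∑ z ∈ X, rej O η X T K z f) / (X.card : ℝ) ≤ 1 := (havg.nonneg f).2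
    set P := (∑ z ∈ X, rej O η X T K z f) / (X.card : ℝ) with hP
    have h4 : (1 - P) ^ m ≤ 1 / 10 := by
      calc (1 - P) ^ m ≤ Real.exp (-ρ) ^ m := by
            apply pow_le_pow_left₀ (by linarith)
            have := Real.add_one_le_exp (-ρ)
            linarith
        _ = Real.exp (m * (-ρ)) := by rw [← Real.exp_nat_mul]
        _ ≤ Real.exp (-3) := by
            apply Real.exp_le_exp.2
            rw [div_le_iff₀ hρ0] at hm1
            linarith
        _ ≤ 1 / 10 := by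
            rw [Real.exp_neg, ← one_div]
            apply one_div_le_one_div_of_le (by norm_num)
            have h4 : (2.7 : ℝ) < Real.exp 1 := by
              have := Real.exp_one_gt_d9
              linarith
            have h5 : Real.exp 3 = Real.exp 1 ^ 3 := by
              rw [← Real.exp_nat_mul]; norm_num
            rw [h5]
            have h6 : (2.7 : ℝ) ^ 3 ≤ Real.exp 1 ^ 3 := pow_le_pow_left₀ (by norm_num) h4.le 3
            norm_num at h6 ⊢
            linarith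
    linarith

end Pool.Agent.H.MP_f23a5d_lc
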