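import Pool.Agent.H.MP_f23a5d_lc.Defs

set_option autoImplicit false

namespace Pool.Agent.H.MP_f23a5d_lc

/-- `Comp q Φ`: the output `Φ f` can be computed from `f` by a deterministic adaptive algorithm
with at most `q` queries to `f`. -/
inductive Comp {X : Type} {β : Type} : ℕ → ((X → ℝ) → β) → Prop
  | const (q : ℕ) (b : β) : Comp q (fun _ => b)
  | query (q : ℕ) (x : X) (Φ : ℝ → (X → ℝ) → β) (h : ∀ r, Comp q (Φ r)) :
      Comp (q + 1) (fun f => Φ (f x) f)

/-- `RComp q P`: there is a randomized adaptive algorithm with at most `q` queries which rejects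
`f` with probability `P f`. -/
inductive RComp {X : Type} : ℕ → ((X → ℝ) → ℝ) → Prop
  | acc (q : ℕ) : RComp q (fun _ => 0)
  | rej (q : ℕ) : RComp q (fun _ => 1)
  | query (q : ℕ) (x : X) (P : ℝ → (X → ℝ) → ℝ) (h : ∀ r, RComp q (P r)) :
      RComp (q + 1) (fun f => P (f x) f)
  | flip (q m : ℕ) (P : Fin (m + 1) → (X → ℝ) → ℝ) (h : ∀ i, RComp q (P i)) :
      RComp q (fun f => (∑ i, P i f) / ((m : ℝ) + 1))

section

variable {X : Type} {β γ : Type}

theorem Comp.mono {q q' : ℕ} {Φ : (X → ℝ) → β} (h : Comp q Φ) (hq : q ≤ q') : Comp q' Φ := by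
  induction h generalizing q' with
  | const q b => exact Comp.const q' b
  | query q x Φ h ih =>
    obtain ⟨q'', rfl⟩ : ∃ q'', q' = q'' + 1 := ⟨q' - 1, by omega⟩
    exact Comp.query q'' x Φ (fun r => ih r (by omega))

theorem RComp.mono {q q' : ℕ} {P : (X → ℝ) → ℝ} (h : RComp q P) (hq : q ≤ q') :
    RComp q' P := by
  induction h generalizing q' with
  | acc q => exact RComp.acc q'
  | rej q => exact RComp.rej q'
  | query q x P h ih =>
    obtain ⟨q'', rfl⟩ : ∃ q'', q' = q'' + 1 := ⟨q' - 1, by omega⟩
    exact RComp.query q'' x P (fun r => ih r (by omega))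
  | flip q m P h ih => exact RComp.flip q' m P (fun i => ih i hq)

theorem Comp.bind {q₁ q₂ : ℕ} {Φ : (X → ℝ) → β} (h : Comp q₁ Φ) (Ψ : β → (X → ℝ) → γ)
    (hΨ : ∀ b, Comp q₂ (Ψ b)) : Comp (q₁ + q₂) (fun f => Ψ (Φ f) f) := by
  induction h with
  | const q b => exact (hΨ b).mono (by omega)
  | query q x Φ h ih =>
    have h3 := Comp.query (q + q₂) x (fun r f => Ψ (Φ r f) f) ih
    have h4 : q + 1 + q₂ = q + q₂ + 1 := by omega
    rw [h4]
    exact h3

theorem Comp.map {q : ℕ} {Φ : (X → ℝ) → β} (h : Comp q Φ) (g : β → γ) :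
    Comp q (fun f => g (Φ f)) := by
  have := h.bind (q₂ := 0) (fun b _ => g b) (fun b => Comp.const 0 (g b))
  simpa using this

theorem Comp.val (x : X) : Comp 1 (fun f : X → ℝ => f x) :=
  Comp.query 0 x (fun r _ => r) (fun r => Comp.const 0 r)

/-- Deterministic computation followed by a randomized one. -/
theorem Comp.bindR {q₁ q₂ : ℕ} {Φ : (X → ℝ) → β} (h : Comp q₁ Φ) (P : β → (X → ℝ) → ℝ)
    (hP : ∀ b, RComp q₂ (P b)) : RComp (q₁ + q₂) (fun f => P (Φ f) f) := by
  induction h with
  | const q b => exact (hP b).mono (by omega)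
  | query q x Φ h ih =>
    have h3 := RComp.query (q + q₂) x (fun r f => P (Φ r f) f) ih
    have h4 : q + 1 + q₂ = q + q₂ + 1 := by omega
    rw [h4]
    exact h3

/-- Pull back along a map on query points together with an affine change of the answers. -/
theorem Comp.comap {Y : Type} {q : ℕ} {Φ : (X → ℝ) → β} (h : Comp q Φ) (φ : X → Y)
    (s : X → ℝ) : Comp q (fun f : Y → ℝ => Φ (fun x => f (φ x) - s x)) := by
  induction h with
  | const q b => exact Comp.const q b
  | query q x Φ h ih =>
    exact Comp.query q (φ x) (fun r f => Φ (r - s x) (fun x => f (φ x) - s x))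
      (fun r => ih (r - s x))

theorem RComp.comap {Y : Type} {q : ℕ} {P : (X → ℝ) → ℝ} (h : RComp q P) (φ : X → Y) :
    RComp q (fun f : Y → ℝ => P (fun x => f (φ x))) := by
  induction h with
  | acc q => exact RComp.acc q
  | rej q => exact RComp.rej q
  | query q x P h ih =>
    exact RComp.query q (φ x) (fun r f => P r (fun x => f (φ x))) (fun r => ih r)
  | flip q m P h ih =>
    exact RComp.flip q m (fun i f => P i (fun x => f (φ x))) (fun i => ih i)

theorem RComp.nonneg {q : ℕ} {P : (X → ℝ) → ℝ} (h : RComp q P) (f : X → ℝ) :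
    0 ≤ P f ∧ P f ≤ 1 := by
  induction h with
  | acc q => exact ⟨le_refl _, zero_le_one⟩
  | rej q => exact ⟨zero_le_one, le_refl _⟩
  | query q x P h ih => exact ih (f x)
  | flip q m P h ih =>
    have hm : (0 : ℝ) < (m : ℝ) + 1 := by positivity
    refine ⟨div_nonneg (Finset.sum_nonneg fun i _ => (ih i).1) hm.le, ?_⟩
    rw [div_le_one hm]
    calc (∑ i, P i f) ≤ ∑ _i : Fin (m + 1), (1 : ℝ) := Finset.sum_le_sum fun i _ => (ih i).2
      _ = (m : ℝ) + 1 := by simp

/-- Run two randomized algorithms with independent random choices, and reject if one of them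
rejects. -/
theorem RComp.or {q₁ q₂ : ℕ} {P Q : (X → ℝ) → ℝ} (h : RComp q₁ P) (hQ : RComp q₂ Q) :
    RComp (q₁ + q₂) (fun f => P f + (1 - P f) * Q f) := by
  induction h with
  | acc q =>
    have := hQ.mono (q' := q + q₂) (by omega)
    simpa using this
  | rej q =>
    have := RComp.rej (X := X) (q + q₂)
    simpa using this
  | query q x P h ih =>
    have h3 := RComp.query (q + q₂) x (fun r f => P r f + (1 - P r f) * Q f) ih
    have h4 : q + 1 + q₂ = q + q₂ + 1 := by omega
    rw [h4]
    exact h3
  | flip q m P h ih =>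
    have h3 := RComp.flip (q + q₂) m (fun i f => P i f + (1 - P i f) * Q f) ih
    have h4 : (fun f => (∑ i, (P i f + (1 - P i f) * Q f)) / ((m : ℝ) + 1)) =
        (fun f => (∑ i, P i f) / ((m : ℝ) + 1) +
          (1 - (∑ i, P i f) / ((m : ℝ) + 1)) * Q f) := by
      funext f
      have hm : (m : ℝ) + 1 ≠ 0 := by positivity
      have h5 : (∑ i, (P i f + (1 - P i f) * Q f)) =
          (∑ i, P i f) + (((m : ℝ) + 1) - ∑ i, P i f) * Q f := by
        rw [Finset.sum_add_distrib, ← Finset.sum_mul, Finset.sum_sub_distrib]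
        simp
      rw [h5]
      field_simp
    rw [h4] at h3
    exact h3

/-- Choose a uniformly random element of a nonempty finite set. -/
theorem RComp.avg {α : Type} {q : ℕ} (S : Finset α) (hS : S.Nonempty)
    (P : α → (X → ℝ) → ℝ) (h : ∀ c ∈ S, RComp q (P c)) :
    RComp q (fun f => (∑ c ∈ S, P c f) / (S.card : ℝ)) := by
  obtain ⟨m, hm⟩ : ∃ m, S.card = m + 1 := ⟨S.card - 1, by have := hS.card_pos; omega⟩
  let e : Fin (m + 1) ≃ S := (Finset.equivFinOfCardEq hm).symm
  have h3 := RComp.flip q m (fun i f => P (e i) f) (fun i => h _ (e i).2)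
  have h4 : (fun f => (∑ i : Fin (m + 1), P (e i) f) / ((m : ℝ) + 1)) =
      (fun f => (∑ c ∈ S, P c f) / (S.card : ℝ)) := by
    funext f
    rw [hm]
    push_cast
    congr 1
    rw [Equiv.sum_comp e (fun c : S => P c f)]
    exact Finset.sum_coe_sort S (fun c => P c f)
  rw [h4] at h3
  exact h3

/-- Repeat a randomized algorithm `m` times and reject if one of the runs rejects. -/
theorem RComp.repeat {q : ℕ} {P : (X → ℝ) → ℝ} (h : RComp q P) (m : ℕ) :
    RComp (m * q) (fun f => 1 - (1 - P f) ^ m) := by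
  induction m with
  | zero =>
    have := RComp.acc (X := X) (0 * q)
    simpa using this
  | succ m ih =>
    have h3 := h.or ih
    have h4 : (fun f => P f + (1 - P f) * (1 - (1 - P f) ^ m)) =
        (fun f => 1 - (1 - P f) ^ (m + 1)) := by
      funext f
      rw [pow_succ]
      ring
    rw [h4] at h3
    have h5 : (m + 1) * q = q + m * q := by ring
    rw [h5]
    exact h3

open Classical in
/-- Query all the points of a finite set. -/
theorem Comp.queries (Q : Finset X) (q : ℕ) (Φ : (X → ℝ) → (X → ℝ) → β)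
    (h : ∀ a, Comp q (Φ a)) :
    Comp (Q.card + q) (fun f => Φ (fun x => if x ∈ Q then f x else 0) f) := by
  induction Q using Finset.induction_on generalizing Φ with
  | empty =>
    have := h (fun _ => 0)
    simpa using this
  | insert x Q hx ih =>
    have h1 : ∀ r : ℝ, Comp (Q.card + q)
        (fun f => Φ (fun y => if y = x then r else if y ∈ Q then f y else 0) f) := by
      intro r
      exact ih (fun a f => Φ (fun y => if y = x then r else a y) f) (fun a => h _)
    have h2 := Comp.query (Q.card + q) x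
      (fun r f => Φ (fun y => if y = x then r else if y ∈ Q then f y else 0) f) h1
    rw [Finset.card_insert_of_notMem hx]
    have h3 : Q.card + 1 + q = Q.card + q + 1 := by omega
    rw [h3]
    have h4 : (fun f : X → ℝ => Φ (fun y => if y = x then f x else if y ∈ Q then f y else 0) f) =
        (fun f => Φ (fun y => if y ∈ insert x Q then f y else 0) f) := by
      funext f
      congr 1
      funext y
      by_cases hy : y = x
      · subst hy; simp
      · simp [hy]
    rw [← h4]
    exact h2

/-- Extraction of an algorithm. -/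
theorem RComp.toAlg {q : ℕ} {P : (X → ℝ) → ℝ} (h : RComp q P) :
    ∃ A : Alg X, A.Within q ∧ ∀ f, A.acc f = 1 - P f := by
  induction h with
  | acc q => exact ⟨.ret true, by simp [Alg.Within], fun f => by simp [Alg.acc]⟩
  | rej q => exact ⟨.ret false, by simp [Alg.Within], fun f => by simp [Alg.acc]⟩
  | query q x P h ih =>
    choose A hA hA' using ih
    exact ⟨.query x A, by simpa [Alg.Within] using hA, fun f => by simp [Alg.acc, hA']⟩
  | flip q m P h ih =>
    choose A hA hA' using ih
    refine ⟨.flip m A, by simpa [Alg.Within] using hA, fun f => ?_⟩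
    have hm : (m : ℝ) + 1 ≠ 0 := by positivity
    simp only [Alg.acc, hA', Finset.sum_sub_distrib]
    simp
    field_simp

end

end Pool.Agent.H.MP_f23a5d_lc
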