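import Pool.Agent.H.MP_f23a5d_lc.Frame

set_option autoImplicit false

namespace Pool.Agent.H.MP_f23a5d_lc

open Module Submodule

variable {d : ℕ}

namespace Frame

variable {R : Finset (Fin d → ℤ)}

open Classical in
/-- The coordinates of the points of `R`. -/
noncomputable def co (F : Frame R) (y : Fin d → ℤ) : Fin F.k → ℝ :=
  if h : y ∈ R then (F.cov y h).choose else 0

theorem co_isCo (F : Frame R) {y : Fin d → ℤ} (hy : y ∈ R) : F.IsCo y (F.co y) := by
  rw [co, dif_pos hy]
  exact (F.cov y hy).choose_spec.2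

theorem co_abs (F : Frame R) {y : Fin d → ℤ} (hy : y ∈ R) (i : Fin F.k) : |F.co y i| ≤ 1 := by
  rw [co, dif_pos hy]
  exact (F.cov y hy).choose_spec.1 i

theorem co_eq (F : Frame R) {y : Fin d → ℤ} (hy : y ∈ R) {t : Fin F.k → ℝ}
    (ht : F.IsCo y t) : F.co y = t := (F.co_isCo hy).unique ht

theorem mem_of_co (F : Frame R) (hR : LatConv R) {y : Fin d → ℤ} {t : Fin F.k → ℝ}
    (hy : F.IsCo y t) (ht : ∀ i, 0 ≤ t i) (ht1 : ∑ i, t i ≤ 1) : y ∈ R := by
  obtain ⟨K, hK, hRK⟩ := hR
  rw [hRK]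
  have h1 := F.mem_K hK hRK t ht ht1
  rw [IsCo, toR_sub] at hy
  rw [← hy] at h1
  simpa using h1

/-- The cell of a point of `R`. -/
noncomputable def cell (F : Frame R) (M : ℕ) (y : Fin d → ℤ) : Fin F.k → ℤ :=
  fun i => ⌊F.co y i * M⌋

theorem cell_image_card (F : Frame R) {M : ℕ} :
    (R.image (F.cell M)).card ≤ (2 * M + 1) ^ d := by
  have h1 : R.image (F.cell M) ⊆
      Fintype.piFinset (fun _ : Fin F.k => Finset.Icc (-(M : ℤ)) M) := by
    intro b hb
    rw [Finset.mem_image] at hb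
    obtain ⟨y, hy, rfl⟩ := hb
    rw [Fintype.mem_piFinset]
    intro i
    have h2 := abs_le.1 (F.co_abs hy i)
    have hM : (0 : ℝ) ≤ M := Nat.cast_nonneg M
    rw [Finset.mem_Icc]
    constructor
    · rw [cell, Int.le_floor]
      push_cast
      nlinarith [h2.1]
    · rw [cell, ← Int.cast_le (R := ℝ)]
      refine (Int.floor_le _).trans ?_
      push_cast
      nlinarith [h2.2]
  refine (Finset.card_le_card h1).trans ?_
  rw [Fintype.card_piFinset]
  simp only [Int.card_Icc, Finset.prod_const, Finset.card_univ, Fintype.card_fin]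
  have h3 : ((M : ℤ) + 1 - -(M : ℤ)).toNat = 2 * M + 1 := by omega
  rw [h3]
  exact Nat.pow_le_pow_right (by omega) F.k_le

theorem cell_eq (F : Frame R) {M : ℕ} (hM : 1 ≤ M) {y z : Fin d → ℤ}
    (h : F.cell M y = F.cell M z) (i : Fin F.k) : |F.co y i - F.co z i| ≤ 1 / M := by
  have h1 := congrFun h i
  simp only [cell] at h1
  have hM' : (0 : ℝ) < M := by exact_mod_cast hM
  have h2 := Int.abs_sub_lt_one_of_floor_eq_floor h1
  rw [← sub_mul, abs_mul, abs_of_pos hM'] at h2
  rw [le_div_iff₀ hM']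
  exact h2.le

theorem cube_count (F : Frame R) (hR : LatConv R) {ρ h : ℝ} (hρ : 0 ≤ ρ) (hF : F.Fat ρ)
    {M : ℕ} (hM : 1 ≤ M) (hh : d * ρ + 1 / M ≤ h) (a : Fin F.k → ℝ) (ha : ∀ i, h ≤ a i)
    (ha1 : ∑ i, (a i + h) ≤ 1) :
    R.card ≤ (R.filter (fun y => ∀ i, |F.co y i - a i| ≤ h)).card * (2 * M + 1) ^ d := by
  obtain ⟨y0, t0, hy0, ht0⟩ := F.exists_near hρ hF a
  refine le_trans (Finset.card_le_mul_card_image (f := F.cell M) R
    (R.filter (fun y => ∀ i, |F.co y i - a i| ≤ h)).card ?_)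
    (Nat.mul_le_mul_left _ F.cell_image_card)
  intro b hb
  rw [Finset.mem_image] at hb
  obtain ⟨q, hq, rfl⟩ := hb
  apply Finset.card_le_card_of_injOn (fun x => y0 + (x - q))
  · intro x hx
    have hx' := Finset.mem_coe.1 hx
    rw [Finset.mem_filter] at hx'
    obtain ⟨hxR, hxq⟩ := hx'
    have h1 : F.IsCo (y0 + (x - q)) (fun i => t0 i + (F.co x i - F.co q i)) := by
      have e1 : y0 + (x - q) - F.x0 = (y0 - F.x0) + ((x - F.x0) - (q - F.x0)) := by abel
      have e2 := F.co_isCo hxR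
      have e3 := F.co_isCo hq
      rw [IsCo] at hy0 e2 e3 ⊢
      rw [e1, toR_add, toR_sub (x - F.x0) (q - F.x0), hy0, e2, e3]
      simp only [add_smul, sub_smul, Finset.sum_add_distrib, Finset.sum_sub_distrib]
    have h2 : ∀ i, |t0 i + (F.co x i - F.co q i) - a i| ≤ h := by
      intro i
      have h3 := ht0 i
      have h4 := F.cell_eq hM hxq i
      calc |t0 i + (F.co x i - F.co q i) - a i| = |(t0 i - a i) + (F.co x i - F.co q i)| := by
            congr 1; ring
        _ ≤ |t0 i - a i| + |F.co x i - F.co q i| := abs_add_le _ _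
        _ ≤ d * ρ + 1 / M := add_le_add h3 h4
        _ ≤ h := hh
    have h5 : y0 + (x - q) ∈ R := by
      apply F.mem_of_co hR h1
      · intro i
        have := (abs_le.1 (h2 i)).1
        linarith [ha i]
      · refine le_trans (Finset.sum_le_sum fun i _ => ?_) ha1
        have := (abs_le.1 (h2 i)).2
        linarith
    simp only [Finset.coe_filter, Set.mem_ofPred_eq]
    refine ⟨h5, ?_⟩
    rw [F.co_eq h5 h1]
    exact h2
  · intro x _ x' _ hxx
    have : y0 + (x - q) = y0 + (x' - q) := hxx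
    simpa using this

/-- Points of `R` with equal residues modulo `m` differ by an element of the span of the short
vectors. -/
theorem res_eq (F : Frame R) {ρ : ℝ} {m : ℕ} (hm : 1 ≤ m) (hmρ : 2 / m ≤ ρ) {x y : Fin d → ℤ}
    (hx : x ∈ R) (hy : y ∈ R) (h : ∀ i, ((x i : ℤ) : ZMod m) = ((y i : ℤ) : ZMod m)) :
    toR (x - y) ∈ span ℝ (F.short ρ) := by
  have h1 : ∀ i, ∃ u : ℤ, x i - y i = m * u := by
    intro i
    have := (ZMod.intCast_eq_intCast_iff_dvd_sub (y i) (x i) m).1 (h i).symm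
    exact this
  choose u hu using h1
  have h2 : toR (x - y) = (m : ℝ) • toR u := by
    funext i
    have := hu i
    simp only [toR, Pi.sub_apply, Pi.smul_apply, smul_eq_mul]
    rw [this]
    push_cast
    ring
  rw [h2]
  apply smul_mem
  apply subset_span
  have hm' : (0 : ℝ) < m := by exact_mod_cast hm
  refine ⟨u, rfl, fun i => (F.co x i - F.co y i) / m, fun i => ?_, ?_⟩
  · rw [abs_div, abs_of_pos hm']
    refine le_trans ?_ hmρ
    apply div_le_div_of_nonneg_right _ hm'.le
    have h3 := F.co_abs hx i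
    have h4 := F.co_abs hy i
    calc |F.co x i - F.co y i| ≤ |F.co x i| + |F.co y i| := abs_sub _ _
      _ ≤ 2 := by linarith
  · have h5 : toR (x - y) = ∑ i, (F.co x i - F.co y i) • toR (F.v i) := by
      have e1 : x - y = (x - F.x0) - (y - F.x0) := by abel
      have e2 := F.co_isCo hx
      have e3 := F.co_isCo hy
      rw [IsCo] at e2 e3
      rw [e1, toR_sub (x - F.x0) (y - F.x0), e2, e3]
      simp only [sub_smul, Finset.sum_sub_distrib]
    have h6 : toR u = (1 / (m : ℝ)) • toR (x - y) := by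
      rw [h2, smul_smul]
      field_simp
      simp
    rw [h6, h5, Finset.smul_sum]
    apply Finset.sum_congr rfl
    intro i _
    rw [smul_smul]
    congr 1
    ring

end Frame

end Pool.Agent.H.MP_f23a5d_lc
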