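import Mathlib

set_option autoImplicit false

namespace Pool.Agent.H.MP_f23a5d_lc

/-- An adaptive randomized algorithm which queries values of a function `f : X → ℝ` and finally
accepts (`ret true`) or rejects (`ret false`). The constructor `query x k` asks for the value of
`f x` and continues with `k (f x)`; the constructor `flip m k` draws a uniformly random element
`i` of `Fin (m + 1)` and continues with `k i`. -/
inductive Alg (X : Type) : Type
  | ret : Bool → Alg X
  | query : X → (ℝ → Alg X) → Alg X
  | flip : (m : ℕ) → (Fin (m + 1) → Alg X) → Alg X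

/-- The probability that the algorithm accepts the function `f`. -/
noncomputable def Alg.acc {X : Type} (f : X → ℝ) : Alg X → ℝ
  | .ret b => if b then 1 else 0
  | .query x k => (k (f x)).acc f
  | .flip m k => (∑ i : Fin (m + 1), (k i).acc f) / ((m : ℝ) + 1)

/-- The algorithm makes at most `q` queries, whatever the answers and the random choices. -/
def Alg.Within {X : Type} : Alg X → ℕ → Prop
  | .ret _, _ => True
  | .query _ _, 0 => False
  | .query _ k, q + 1 => ∀ r : ℝ, (k r).Within q
  | .flip _ k, q => ∀ i, (k i).Within q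

/-- The point of `[n]^d ⊆ ℝ^d`, where `[n] = {1, ..., n}`, given by a vector of indices. -/
def gridPt {d n : ℕ} (x : Fin d → Fin n) : Fin d → ℝ := fun i => ((x i : ℕ) : ℝ) + 1

/-- `f : [n]^d → ℝ` is convex: it is the restriction of a convex function on `[1, n]^d`. -/
def ConvexGrid {d n : ℕ} (f : (Fin d → Fin n) → ℝ) : Prop :=
  ∃ F : (Fin d → ℝ) → ℝ,
    ConvexOn ℝ (Set.Icc (fun _ => (1 : ℝ)) (fun _ => (n : ℝ))) F ∧ ∀ x, f x = F (gridPt x)

/-- `f` takes its values in `[0, 1]`. -/
def UnitValued {d n : ℕ} (f : (Fin d → Fin n) → ℝ) : Prop := ∀ x, 0 ≤ f x ∧ f x ≤ 1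

/-- The normalised `L₁` distance on functions on `[n]^d`. -/
noncomputable def distL1 {d n : ℕ} (f g : (Fin d → Fin n) → ℝ) : ℝ :=
  (∑ x, |f x - g x|) / (n : ℝ) ^ d

/-- `f` is `ε`-far from the class of convex functions `[n]^d → [0, 1]`. -/
def FarFromConvex {d n : ℕ} (ε : ℝ) (f : (Fin d → Fin n) → ℝ) : Prop :=
  ∀ g : (Fin d → Fin n) → ℝ, UnitValued g → ConvexGrid g → ε ≤ distL1 f g

/-- `A` is a non-tolerant `L₁` tester for convexity of functions `[n]^d → [0, 1]` with
parameter `ε`: it accepts each convex function with probability at least `2/3` and rejects each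
`ε`-far function with probability at least `2/3`. -/
def IsConvexityTester {d n : ℕ} (ε : ℝ) (A : Alg (Fin d → Fin n)) : Prop :=
  (∀ f : (Fin d → Fin n) → ℝ, UnitValued f → ConvexGrid f → 2 / 3 ≤ A.acc f) ∧
  (∀ f : (Fin d → Fin n) → ℝ, UnitValued f → FarFromConvex ε f → 2 / 3 ≤ 1 - A.acc f)

end Pool.Agent.H.MP_f23a5d_lc
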