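import Pool.Agent.H.MP_f23a5d_lc.SubAlg

set_option autoImplicit false

namespace Pool.Agent.H.MP_f23a5d_lc

variable {d : ℕ}

/-- `F` has a subgradient at each point. -/
def HasSub (F : (Fin d → ℝ) → ℝ) : Prop :=
  ∀ u, ∃ p : Fin d → ℝ, ∀ v, F u + p ⬝ᵥ (v - u) ≤ F v

theorem HasSub.convexOn {F : (Fin d → ℝ) → ℝ} (hF : HasSub F) : ConvexOn ℝ Set.univ F := by
  refine ⟨convex_univ, fun x _ y _ a b ha hb hab => ?_⟩
  obtain ⟨p, hp⟩ := hF (a • x + b • y)
  have h1 := hp x
  have h2 := hp y
  have e : a * (p ⬝ᵥ (x - (a • x + b • y))) + b * (p ⬝ᵥ (y - (a • x + b • y))) = 0 := by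
    rw [← smul_eq_mul a, ← smul_eq_mul b, ← dotProduct_smul, ← dotProduct_smul,
      ← dotProduct_add]
    have : a • (x - (a • x + b • y)) + b • (y - (a • x + b • y)) = 0 := by
      have hb' : b = 1 - a := by linarith
      subst hb'
      module
    rw [this, dotProduct_zero]
  simp only [smul_eq_mul]
  have h3 := mul_le_mul_of_nonneg_left h1 ha
  have h4 := mul_le_mul_of_nonneg_left h2 hb
  have h5 : (a + b) * F (a • x + b • y) ≤ a * F x + b * F y := by
    rw [add_mul]
    rw [mul_add] at h3 h4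
    linarith
  rwa [hab, one_mul] at h5

theorem exists_max_fun {α : Type} (G : Finset α) (p : α → Fin d → ℝ) (c : α → ℝ) :
    ∃ F : (Fin d → ℝ) → ℝ, HasSub F ∧ (∀ u, 0 ≤ F u) ∧ (∀ z ∈ G, ∀ u, p z ⬝ᵥ u + c z ≤ F u) ∧
      ∀ u, F u = 0 ∨ ∃ z ∈ G, F u = p z ⬝ᵥ u + c z := by
  classical
  induction G using Finset.induction_on with
  | empty =>
    refine ⟨fun _ => 0, fun u => ⟨0, fun v => by simp⟩, fun _ => le_refl _, by simp,
      fun u => Or.inl rfl⟩
  | insert a G _ ih =>
    obtain ⟨F, hF, h0, h1, h2⟩ := ih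
    refine ⟨fun u => max (F u) (p a ⬝ᵥ u + c a), ?_, fun u => (h0 u).trans (le_max_left _ _),
      ?_, ?_⟩
    · intro u
      rcases le_total (F u) (p a ⬝ᵥ u + c a) with h | h
      · refine ⟨p a, fun v => ?_⟩
        dsimp only
        rw [max_eq_right h]
        refine le_trans (le_of_eq ?_) (le_max_right _ _)
        rw [dotProduct_sub]
        ring
      · obtain ⟨q, hq⟩ := hF u
        refine ⟨q, fun v => ?_⟩
        dsimp only
        rw [max_eq_left h]
        exact (hq v).trans (le_max_left _ _)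
    · intro z hz u
      rcases Finset.mem_insert.1 hz with rfl | hz
      · exact le_max_right _ _
      · exact (h1 z hz u).trans (le_max_left _ _)
    · intro u
      dsimp only
      rcases le_total (F u) (p a ⬝ᵥ u + c a) with h | h
      · right
        exact ⟨a, Finset.mem_insert_self _ _, max_eq_right h⟩
      · rw [max_eq_left h]
        rcases h2 u with h3 | ⟨z, hz, h3⟩
        · exact Or.inl h3
        · exact Or.inr ⟨z, Finset.mem_insert_of_mem hz, h3⟩

/-- A convex function on the grid with values in `[0, 1]` extends to a convex function with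
values in `[0, 1]` on the cube. -/
theorem exists_ext {n : ℕ} (hn : 1 ≤ n) {φ : (Fin d → ℤ) → ℝ}
    (h01 : ∀ x ∈ Box d n, 0 ≤ φ x ∧ φ x ≤ 1) (hφ : SubConv (Box d n) φ) :
    ∃ F : (Fin d → ℝ) → ℝ, HasSub F ∧ (∀ u, 0 ≤ F u) ∧
      (∀ u, (∀ i, 0 ≤ u i ∧ u i ≤ (n : ℝ) - 1) → F u ≤ 1) ∧
      ∀ x ∈ Box d n, F (toR x) = φ x := by
  classical
  choose! p hp using hφ
  obtain ⟨F, hF, h0, h1, h2⟩ := exists_max_fun (Box d n) p
    (fun z => φ z - p z ⬝ᵥ toR z)
  have hle : ∀ z ∈ Box d n, ∀ x ∈ Box d n, p z ⬝ᵥ toR x + (φ z - p z ⬝ᵥ toR z) ≤ φ x := by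
    intro z hz x hx
    have := hp z hz x hx
    rw [toR_sub, dotProduct_sub] at this
    linarith
  refine ⟨F, hF, h0, ?_, ?_⟩
  · intro u hu
    rcases h2 u with h | ⟨z, hz, h⟩
    · rw [h]; norm_num
    · rw [h]
      let x : Fin d → ℤ := fun i => if 0 ≤ p z i then (n : ℤ) - 1 else 0
      have hx : x ∈ Box d n := by
        rw [mem_Box]
        intro i
        simp only [x]
        split_ifs <;> omega
      have h3 : p z ⬝ᵥ u ≤ p z ⬝ᵥ toR x := by
        apply Finset.sum_le_sum
        intro i _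
        have h4 := hu i
        by_cases hpi : 0 ≤ p z i
        · have : toR x i = (n : ℝ) - 1 := by simp [toR, x, hpi]
          rw [this]
          exact mul_le_mul_of_nonneg_left h4.2 hpi
        · have : toR x i = 0 := by simp [toR, x, hpi]
          rw [this, mul_zero]
          push Not at hpi
          exact mul_nonpos_of_nonpos_of_nonneg hpi.le h4.1
      have h5 := hle z hz x hx
      linarith [(h01 x hx).2]
  · intro x hx
    apply le_antisymm
    · rcases h2 (toR x) with h | ⟨z, hz, h⟩
      · rw [h]; exact (h01 x hx).1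
      · rw [h]; exact hle z hz x hx
    · have := h1 x hx (toR x)
      linarith

/-- `φ` is the restriction of a convex function to the grid `{0, ..., n - 1}^d`. -/
def CvxBox (n : ℕ) (φ : (Fin d → ℤ) → ℝ) : Prop :=
  ∃ F : (Fin d → ℝ) → ℝ, ConvexOn ℝ (Set.Icc (fun _ => (0 : ℝ)) (fun _ => (n : ℝ) - 1)) F ∧
    ∀ x ∈ Box d n, φ x = F (toR x)

theorem toR_mem_Icc {n : ℕ} {x : Fin d → ℤ} (hx : x ∈ Box d n) :
    toR x ∈ Set.Icc (fun _ : Fin d => (0 : ℝ)) (fun _ => (n : ℝ) - 1) := by
  rw [Set.mem_Icc, Pi.le_def, Pi.le_def]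
  constructor
  · intro i
    have := (mem_Box.1 hx i).1
    simp only [toR]
    exact_mod_cast this
  · intro i
    have := (mem_Box.1 hx i).2
    have h : x i ≤ (n : ℤ) - 1 := by omega
    simp only [toR]
    exact_mod_cast h

/-- Jensen type inequality gives approximate subgradients. -/
theorem exists_approx_sub {n : ℕ} {φ : (Fin d → ℤ) → ℝ} (hφ : CvxBox n φ) {z : Fin d → ℤ}
    (hz : z ∈ Box d n) {δ : ℝ} (hδ : 0 < δ) :
    ∃ p : Fin d → ℝ, ∀ w ∈ Box d n, φ z - δ + p ⬝ᵥ toR (w - z) ≤ φ w := by
  classical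
  obtain ⟨F, hF, hFφ⟩ := hφ
  let pts : Set ((Fin d → ℝ) × ℝ) := (fun w : Fin d → ℤ => (toR w, φ w)) '' (Box d n : Set _)
  have hfin : pts.Finite := (Finset.finite_toSet _).image _
  have hepi : convexHull ℝ pts ⊆
      {q | q.1 ∈ Set.Icc (fun _ : Fin d => (0 : ℝ)) (fun _ => (n : ℝ) - 1) ∧ F q.1 ≤ q.2} := by
    apply convexHull_min
    · rintro q ⟨w, hw, rfl⟩
      have hw' : w ∈ Box d n := hw
      exact ⟨toR_mem_Icc hw', (hFφ w hw').symm.le⟩
    · exact hF.convex_epigraph
  let t : Set ((Fin d → ℝ) × ℝ) := {q | q.1 = toR z ∧ q.2 ≤ φ z - δ}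
  have htc : Convex ℝ t := by
    rintro ⟨x, r⟩ ⟨hx, hr⟩ ⟨y, s⟩ ⟨hy, hs⟩ a b ha hb hab
    simp only at hx hr hy hs
    refine ⟨?_, ?_⟩
    · simp only [Prod.smul_mk, Prod.mk_add_mk, hx, hy]
      rw [← add_smul, hab, one_smul]
    · simp only [Prod.smul_mk, Prod.mk_add_mk, smul_eq_mul]
      have h1 := mul_le_mul_of_nonneg_left hr ha
      have h2 := mul_le_mul_of_nonneg_left hs hb
      have h3 : (a + b) * (φ z - δ) = φ z - δ := by rw [hab, one_mul]
      linarith
  have htcl : IsClosed t := by
    apply IsClosed.inter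
    · exact isClosed_eq continuous_fst continuous_const
    · exact isClosed_le continuous_snd continuous_const
  have hdisj : Disjoint (convexHull ℝ pts) t := by
    rw [Set.disjoint_left]
    rintro ⟨x, r⟩ h1 ⟨h2, h3⟩
    have h4 := hepi h1
    simp only [Set.mem_ofPred_eq] at h4 h2 h3
    have h5 := h4.2
    rw [h2, ← hFφ z hz] at h5
    linarith
  obtain ⟨g, u, v, hgu, huv, hgv⟩ := geometric_hahn_banach_compact_closed
    (convex_convexHull ℝ pts) (hfin.isCompact_convexHull ℝ) htc htcl hdisj
  set β : ℝ := g (0, 1) with hβ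
  have hsplit : ∀ (x : Fin d → ℝ) (r : ℝ), g (x, r) = g (x, 0) + r * β := by
    intro x r
    have : ((x, r) : (Fin d → ℝ) × ℝ) = (x, 0) + r • (0, 1) := by
      ext <;> simp
    rw [this, map_add, map_smul, smul_eq_mul]
  have hwu : ∀ w ∈ Box d n, g (toR w, 0) + φ w * β < u := by
    intro w hw
    rw [← hsplit]
    exact hgu _ (subset_convexHull ℝ pts ⟨w, hw, rfl⟩)
  have hzv : ∀ r ≤ φ z - δ, v < g (toR z, 0) + r * β := by
    intro r hr
    rw [← hsplit]
    exact hgv _ ⟨rfl, hr⟩
  have h1 := hwu z hz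
  have h2 := hzv (φ z - δ) (le_refl _)
  have hβneg : β < 0 := by
    by_contra hcon
    push Not at hcon
    nlinarith
  refine ⟨fun i => g (Pi.single i 1, 0) / (-β), fun w hw => ?_⟩
  have h3 := hwu w hw
  have hlin : (fun i => g (Pi.single i 1, 0) / (-β)) ⬝ᵥ toR (w - z) =
      (g (toR w, 0) - g (toR z, 0)) / (-β) := by
    have e1 : g (toR w, 0) - g (toR z, 0) = g (toR (w - z), 0) := by
      rw [← map_sub]
      congr 1
      ext <;> simp [toR]
    have e2 : ((toR (w - z), 0) : (Fin d → ℝ) × ℝ) =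
        ∑ i, toR (w - z) i • (Pi.single i 1, 0) := by
      ext j
      · simp only [Prod.fst_sum, Finset.sum_apply, Prod.smul_mk, Pi.smul_apply, smul_eq_mul]
        simp [Pi.single_apply]
      · simp [Prod.snd_sum]
    rw [e1, e2, map_sum, Finset.sum_div]
    simp only [map_smul, smul_eq_mul, dotProduct]
    apply Finset.sum_congr rfl
    intro i _
    ring
  rw [hlin]
  have h4 : (g (toR w, 0) - g (toR z, 0)) / (-β) ≤ φ w - (φ z - δ) := by
    rw [div_le_iff₀ (by linarith)]
    nlinarith
  linarith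

/-- Clipping the slopes. -/
theorem exists_bdd_approx_sub {n : ℕ} (hn : 1 ≤ n) {φ : (Fin d → ℤ) → ℝ} (hφ : CvxBox n φ)
    (h01 : ∀ x ∈ Box d n, 0 ≤ φ x ∧ φ x ≤ 1) {z : Fin d → ℤ}
    (hz : z ∈ Box d n) {δ : ℝ} (hδ : 0 < δ) (hδn : δ ≤ 1 / n) :
    ∃ p : Fin d → ℝ, (∀ i, |p i| ≤ d * n + 1) ∧
      ∀ w ∈ Box d n, φ z - δ + p ⬝ᵥ toR (w - z) ≤ φ w := by
  classical
  obtain ⟨p, hp⟩ := exists_approx_sub hφ hz hδ
  have hnr : (1 : ℝ) ≤ n := by exact_mod_cast hn
  set B : ℝ := d * n + 1 with hB
  have hB1 : 1 ≤ B := by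
    have : (0 : ℝ) ≤ d * n := by positivity
    linarith
  -- one step moves
  have hup : ∀ i, z i + 1 < n → p i ≤ 1 + δ := by
    intro i hi
    have hw : z + Pi.single i 1 ∈ Box d n := by
      rw [mem_Box]
      intro j
      have := mem_Box.1 hz j
      by_cases hj : j = i
      · subst hj; simp; omega
      · simp [hj]; exact this
    have h1 := hp _ hw
    have h2 : p ⬝ᵥ toR (z + Pi.single i 1 - z) = p i := by
      have : toR (z + Pi.single i 1 - z) = Pi.single i (1 : ℝ) := by
        funext j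
        by_cases hj : j = i
        · subst hj; simp [toR]
        · simp [toR, hj]
      rw [this]; simp
    rw [h2] at h1
    linarith [(h01 _ hw).2, (h01 z hz).1]
  have hdown : ∀ i, 0 < z i → -(1 + δ) ≤ p i := by
    intro i hi
    have hw : z - Pi.single i 1 ∈ Box d n := by
      rw [mem_Box]
      intro j
      have := mem_Box.1 hz j
      by_cases hj : j = i
      · subst hj; simp; omega
      · simp [hj]; exact this
    have h1 := hp _ hw
    have h2 : p ⬝ᵥ toR (z - Pi.single i 1 - z) = - p i := by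
      have : toR (z - Pi.single i 1 - z) = -Pi.single i (1 : ℝ) := by
        funext j
        by_cases hj : j = i
        · subst hj; simp [toR]
        · simp [toR, hj]
      rw [this]; simp
    rw [h2] at h1
    linarith [(h01 _ hw).2, (h01 z hz).1]
  have hδ1 : (1 + δ) * ((n : ℝ) - 1) ≤ n := by
    have h1 : δ * n ≤ 1 := by rwa [le_div_iff₀ (by linarith)] at hδn
    nlinarith
  have hδB : 1 + δ ≤ B ∨ d = 0 := by
    rcases Nat.eq_zero_or_pos d with h | h
    · exact Or.inr h
    · left
      have hd1 : (1 : ℝ) ≤ d := by exact_mod_cast h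
      have h2 : δ ≤ 1 := hδn.trans (by rw [div_le_one (by linarith)]; exact hnr)
      have : (1 : ℝ) ≤ d * n := by nlinarith
      rw [hB]
      linarith
  refine ⟨fun i => max (-B) (min B (p i)), ?_, ?_⟩
  · intro i
    rw [abs_le]
    exact ⟨le_max_left _ _, max_le (by linarith) (min_le_left _ _)⟩
  · intro w hw
    -- each term is at most n
    have hterm : ∀ i, max (-B) (min B (p i)) * toR (w - z) i ≤ n ∧
        (|p i| ≤ B → max (-B) (min B (p i)) = p i) ∧
        (B < |p i| → w i ≠ z i → max (-B) (min B (p i)) * toR (w - z) i ≤ -B) := by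
      intro i
      have hwi := mem_Box.1 hw i
      have hzi := mem_Box.1 hz i
      have hval : toR (w - z) i = (w i : ℝ) - z i := by simp [toR]
      have hwi' : (w i : ℝ) ≤ (n : ℝ) - 1 := by
        have h : w i ≤ (n : ℤ) - 1 := by omega
        exact_mod_cast h
      have hwi0 : (0 : ℝ) ≤ w i := by exact_mod_cast hwi.1
      have hzi' : (z i : ℝ) ≤ (n : ℝ) - 1 := by
        have h : z i ≤ (n : ℤ) - 1 := by omega
        exact_mod_cast h
      have hzi0 : (0 : ℝ) ≤ z i := by exact_mod_cast hzi.1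
      rw [hval]
      refine ⟨?_, ?_, ?_⟩
      · -- bound by n
        rcases lt_trichotomy (w i) (z i) with h | h | h
        · have h1 := hdown i (by omega)
          have h2 : -(1 + δ) ≤ max (-B) (min B (p i)) := by
            rcases hδB with hδB | hd0
            · apply le_max_of_le_right
              apply le_min _ h1
              linarith
            · subst hd0; exact i.elim0
          have h3 : (w i : ℝ) - z i < 0 := by
            have : (w i : ℝ) < z i := by exact_mod_cast h
            linarith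
          have h4 : -((w i : ℝ) - z i) ≤ (n : ℝ) - 1 := by linarith
          calc max (-B) (min B (p i)) * ((w i : ℝ) - z i)
              ≤ -(1 + δ) * ((w i : ℝ) - z i) := mul_le_mul_of_nonpos_right h2 h3.le
            _ = (1 + δ) * (-((w i : ℝ) - z i)) := by ring
            _ ≤ (1 + δ) * ((n : ℝ) - 1) := mul_le_mul_of_nonneg_left h4 (by linarith)
            _ ≤ n := hδ1
        · rw [h, sub_self, mul_zero]; linarith
        · have h1 := hup i (by omega)
          have h2 : max (-B) (min B (p i)) ≤ 1 + δ := by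
            apply max_le (by linarith)
            exact (min_le_right _ _).trans h1
          have h3 : 0 < (w i : ℝ) - z i := by
            have : (z i : ℝ) < w i := by exact_mod_cast h
            linarith
          calc max (-B) (min B (p i)) * ((w i : ℝ) - z i)
              ≤ (1 + δ) * ((w i : ℝ) - z i) := mul_le_mul_of_nonneg_right h2 h3.le
            _ ≤ (1 + δ) * ((n : ℝ) - 1) := by
                apply mul_le_mul_of_nonneg_left _ (by linarith); linarith
            _ ≤ n := hδ1
      · intro h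
        rw [abs_le] at h
        rw [min_eq_right h.2, max_eq_right h.1]
      · intro h hne
        rcases hδB with hδB | hd0
        swap
        · subst hd0; exact i.elim0
        rw [lt_abs] at h
        rcases h with h | h
        · -- p i > B, so w i < z i
          have h1 : ¬ z i + 1 < n := by
            intro hcon
            linarith [hup i hcon]
          have h2 : w i ≤ z i - 1 := by omega
          have h2' : (w i : ℝ) - z i ≤ -1 := by
            have : (w i : ℝ) ≤ z i - 1 := by exact_mod_cast h2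
            linarith
          rw [min_eq_left h.le, max_eq_right (by linarith)]
          nlinarith
        · have h1 : ¬ 0 < z i := by
            intro hcon
            linarith [hdown i hcon]
          have h2 : z i + 1 ≤ w i := by omega
          have h2' : 1 ≤ (w i : ℝ) - z i := by
            have : (z i : ℝ) + 1 ≤ w i := by exact_mod_cast h2
            linarith
          rw [min_eq_right (by linarith), max_eq_left (by linarith)]
          nlinarith
    by_cases hcase : ∀ i, B < |p i| → w i = z i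
    · have h1 : (fun i => max (-B) (min B (p i))) ⬝ᵥ toR (w - z) = p ⬝ᵥ toR (w - z) := by
        apply Finset.sum_congr rfl
        intro i _
        by_cases hi : |p i| ≤ B
        · change max (-B) (min B (p i)) * toR (w - z) i = p i * toR (w - z) i
          rw [(hterm i).2.1 hi]
        · push Not at hi
          have : toR (w - z) i = 0 := by simp [toR, hcase i hi]
          rw [this, mul_zero, mul_zero]
      rw [h1]
      exact hp w hw
    · push Not at hcase
      obtain ⟨i0, hi0, hne⟩ := hcase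
      have h1 : (fun i => max (-B) (min B (p i))) ⬝ᵥ toR (w - z) ≤ -B + d * n := by
        rw [dotProduct, ← Finset.add_sum_erase _ _ (Finset.mem_univ i0)]
        apply add_le_add
        · exact (hterm i0).2.2 hi0 hne
        · calc ∑ i ∈ Finset.univ.erase i0, max (-B) (min B (p i)) * toR (w - z) i
              ≤ ∑ _i ∈ Finset.univ.erase i0, (n : ℝ) :=
                Finset.sum_le_sum fun i _ => (hterm i).1
            _ ≤ ∑ _i : Fin d, (n : ℝ) :=
                Finset.sum_le_sum_of_subset_of_nonneg (Finset.erase_subset _ _)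
                  (fun _ _ _ => by linarith)
            _ = d * n := by simp
      have h2 : -B + d * n = -1 := by rw [hB]; ring
      linarith [(h01 z hz).2, (h01 w hw).1]

/-- Convex functions with values in `[0, 1]` have bounded subgradients on the grid. -/
theorem bddSub_of_cvxBox {n : ℕ} (hn : 1 ≤ n) {φ : (Fin d → ℤ) → ℝ} (hφ : CvxBox n φ)
    (h01 : ∀ x ∈ Box d n, 0 ≤ φ x ∧ φ x ≤ 1) : BddSub n φ := by
  intro z hz
  have hnr : (1 : ℝ) ≤ n := by exact_mod_cast hn
  have hδ : ∀ k : ℕ, ∃ p : Fin d → ℝ, (∀ i, |p i| ≤ d * n + 1) ∧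
      ∀ w ∈ Box d n, φ z - 1 / ((n : ℝ) + k) + p ⬝ᵥ toR (w - z) ≤ φ w := by
    intro k
    apply exists_bdd_approx_sub hn hφ h01 hz (by positivity)
    apply one_div_le_one_div_of_le (by linarith)
    linarith [Nat.cast_nonneg (α := ℝ) k]
  choose p hpB hp using hδ
  have hmem : ∀ k, p k ∈ Set.Icc (fun _ : Fin d => -((d : ℝ) * n + 1))
      (fun _ => (d : ℝ) * n + 1) := by
    intro k
    rw [Set.mem_Icc, Pi.le_def, Pi.le_def]
    exact ⟨fun i => (abs_le.1 (hpB k i)).1, fun i => (abs_le.1 (hpB k i)).2⟩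
  obtain ⟨q, hq, ψ, hψ, hlim⟩ := isCompact_Icc.tendsto_subseq hmem
  refine ⟨q, fun i => ?_, fun w hw => ?_⟩
  · rw [Set.mem_Icc, Pi.le_def, Pi.le_def] at hq
    exact abs_le.2 ⟨hq.1 i, hq.2 i⟩
  · have h1 : Filter.Tendsto (fun k => φ z - 1 / ((n : ℝ) + ψ k) +
        p (ψ k) ⬝ᵥ toR (w - z)) Filter.atTop (nhds (φ z - 0 + q ⬝ᵥ toR (w - z))) := by
      apply Filter.Tendsto.add
      · apply Filter.Tendsto.sub tendsto_const_nhds
        have h2 : Filter.Tendsto (fun k : ℕ => (n : ℝ) + (ψ k : ℝ)) Filter.atTop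
            Filter.atTop := by
          apply Filter.tendsto_atTop_add_const_left
          exact tendsto_natCast_atTop_atTop.comp hψ.tendsto_atTop
        have h4 := h2.inv_tendsto_atTop
        have h5 : (fun k : ℕ => 1 / ((n : ℝ) + (ψ k : ℝ))) =
            (fun k : ℕ => (n : ℝ) + (ψ k : ℝ))⁻¹ := by
          funext k
          simp
        rw [h5]
        exact h4
      · have h3 : Continuous (fun p : Fin d → ℝ => p ⬝ᵥ toR (w - z)) := by
          simp only [dotProduct]
          fun_prop
        exact (h3.tendsto q).comp hlim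
    rw [sub_zero] at h1
    apply le_of_tendsto h1
    exact Filter.Eventually.of_forall fun k => hp (ψ k) w hw

/-- The integer point of an index vector. -/
def emb {n : ℕ} (y : Fin d → Fin n) : Fin d → ℤ := fun i => ((y i : ℕ) : ℤ)

/-- The index vector of an integer point. -/
def prj {n : ℕ} (hn : 0 < n) (x : Fin d → ℤ) : Fin d → Fin n :=
  fun i => ⟨(x i).toNat % n, Nat.mod_lt _ hn⟩

theorem prj_emb {n : ℕ} (hn : 0 < n) (y : Fin d → Fin n) : prj hn (emb y) = y := by
  funext i
  apply Fin.ext
  simp [prj, emb, Nat.mod_eq_of_lt (y i).2]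

theorem emb_prj {n : ℕ} (hn : 0 < n) {x : Fin d → ℤ} (hx : x ∈ Box d n) :
    emb (prj hn x) = x := by
  funext i
  have := mem_Box.1 hx i
  simp only [prj, emb]
  rw [Nat.mod_eq_of_lt (by omega)]
  omega

theorem emb_mem {n : ℕ} (y : Fin d → Fin n) : emb y ∈ Box d n := by
  rw [mem_Box]
  intro i
  have := (y i).2
  simp only [emb]
  omega

theorem sum_Box {n : ℕ} (hn : 0 < n) (g : (Fin d → ℤ) → ℝ) :
    ∑ x ∈ Box d n, g x = ∑ y : Fin d → Fin n, g (emb y) := by
  symm
  apply Finset.sum_bij (fun y _ => emb y)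
  · intro y _; exact emb_mem y
  · intro y _ y' _ h
    rw [← prj_emb hn y, h, prj_emb]
  · intro x hx
    exact ⟨prj hn x, Finset.mem_univ _, emb_prj hn hx⟩
  · intro y _; rfl

theorem convexGrid_of_subConv {n : ℕ} (hn : 1 ≤ n) {g : (Fin d → ℤ) → ℝ}
    (h01 : ∀ x ∈ Box d n, 0 ≤ g x ∧ g x ≤ 1) (hg : SubConv (Box d n) g) :
    ConvexGrid (fun y : Fin d → Fin n => g (emb y)) := by
  obtain ⟨F, hF, -, -, hFg⟩ := exists_ext hn h01 hg
  refine ⟨fun x => F (fun i => x i - 1), ⟨convex_Icc _ _, ?_⟩, ?_⟩
  · intro x _ y _ a b ha hb hab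
    have h1 := hF.convexOn.2 (Set.mem_univ (fun i => x i - 1))
      (Set.mem_univ (fun i => y i - 1)) ha hb hab
    have h2 : (a • (fun i => x i - 1) + b • (fun i => y i - 1)) =
        (fun i => (a • x + b • y) i - 1) := by
      funext i
      simp only [Pi.add_apply, Pi.smul_apply, smul_eq_mul]
      have : b = 1 - a := by linarith
      subst this
      ring
    rw [h2] at h1
    exact h1
  · intro y
    change g (emb y) = F (fun i => gridPt y i - 1)
    rw [← hFg (emb y) (emb_mem y)]
    congr 1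
    funext i
    simp [gridPt, emb, toR]

theorem cvxBox_of_convexGrid {n : ℕ} (hn : 0 < n) {f : (Fin d → Fin n) → ℝ}
    (hf : ConvexGrid f) : CvxBox n (fun x => f (prj hn x)) := by
  obtain ⟨F, hF, hfF⟩ := hf
  refine ⟨fun x => F (fun i => x i + 1), ⟨convex_Icc _ _, ?_⟩, ?_⟩
  · intro x hx y hy a b ha hb hab
    have hmem : ∀ u : Fin d → ℝ, u ∈ Set.Icc (fun _ : Fin d => (0 : ℝ)) (fun _ => (n : ℝ) - 1) →
        (fun i => u i + 1) ∈ Set.Icc (fun _ : Fin d => (1 : ℝ)) (fun _ => (n : ℝ)) := by
      intro u hu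
      rw [Set.mem_Icc, Pi.le_def, Pi.le_def] at hu ⊢
      constructor
      · intro i; linarith [hu.1 i]
      · intro i; linarith [hu.2 i]
    have h1 := hF.2 (hmem x hx) (hmem y hy) ha hb hab
    have h2 : (a • (fun i => x i + 1) + b • (fun i => y i + 1)) =
        (fun i => (a • x + b • y) i + 1) := by
      funext i
      simp only [Pi.add_apply, Pi.smul_apply, smul_eq_mul]
      have : b = 1 - a := by linarith
      subst this
      ring
    rw [h2] at h1
    exact h1
  · intro x hx
    dsimp only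
    rw [hfF]
    congr 1
    funext i
    have h1 := congrFun (emb_prj hn hx) i
    simp only [emb] at h1
    simp only [gridPt, toR]
    rw [← h1]
    push_cast
    rfl

end Pool.Agent.H.MP_f23a5d_lc
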