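import Pool.Agent.H.MP_f23a5d_lc.Cube

set_option autoImplicit false

namespace Pool.Agent.H.MP_f23a5d_lc

open Module Submodule

variable {d : ℕ}

/-- `f` has a subgradient on `R` at each point of `R`. -/
def SubConv (R : Finset (Fin d → ℤ)) (f : (Fin d → ℤ) → ℝ) : Prop :=
  ∀ z ∈ R, ∃ p : Fin d → ℝ, ∀ w ∈ R, f z + p ⬝ᵥ toR (w - z) ≤ f w

theorem SubConv.mono {R R' : Finset (Fin d → ℤ)} {f : (Fin d → ℤ) → ℝ} (h : SubConv R f)
    (hR : R' ⊆ R) : SubConv R' f := by
  intro z hz
  obtain ⟨p, hp⟩ := h z (hR hz)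
  exact ⟨p, fun w hw => hp w (hR hw)⟩

theorem convex_dot_lt (p : Fin d → ℝ) (r : ℝ) : Convex ℝ {x : Fin d → ℝ | p ⬝ᵥ x < r} := by
  apply convex_halfSpace_lt
  exact ⟨fun x y => dotProduct_add p x y, fun c x => dotProduct_smul c p x⟩

theorem convex_dot_le (p : Fin d → ℝ) (r : ℝ) : Convex ℝ {x : Fin d → ℝ | p ⬝ᵥ x ≤ r} := by
  apply convex_halfSpace_le
  exact ⟨fun x y => dotProduct_add p x y, fun c x => dotProduct_smul c p x⟩

theorem latConv_empty : LatConv (∅ : Finset (Fin d → ℤ)) :=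
  ⟨∅, convex_empty, fun x => by simp⟩

namespace Frame

variable {R : Finset (Fin d → ℤ)}

theorem mem_half (F : Frame R) (hR : LatConv R) {w y : Fin d → ℤ} (hw : w ∈ R)
    {t : Fin F.k → ℝ} (hy : F.IsCo y t) (h0 : ∀ i, 0 ≤ 2 * t i - F.co w i)
    (h1 : ∑ i, (2 * t i - F.co w i) ≤ 1) : y ∈ R := by
  obtain ⟨K, hK, hRK⟩ := hR
  have h2 := F.mem_K hK hRK _ h0 h1
  have h3 := (hRK w).1 hw
  rw [hRK]
  have h4 : toR y = (1 / 2 : ℝ) • toR w + (1 / 2 : ℝ) •
      (toR F.x0 + ∑ i, (2 * t i - F.co w i) • toR (F.v i)) := by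
    have e1 : toR y = toR F.x0 + ∑ i, t i • toR (F.v i) := by
      rw [IsCo, toR_sub] at hy
      rw [← hy]; abel
    have e2 : toR w = toR F.x0 + ∑ i, F.co w i • toR (F.v i) := by
      have := F.co_isCo hw
      rw [IsCo, toR_sub] at this
      rw [← this]; abel
    have e3 : ∑ i, (2 * t i - F.co w i) • toR (F.v i) =
        (2 : ℝ) • ∑ i, t i • toR (F.v i) - ∑ i, F.co w i • toR (F.v i) := by
      simp only [sub_smul, Finset.sum_sub_distrib, Finset.smul_sum, smul_smul]
    rw [e3, e1, e2]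
    module
  rw [h4]
  exact hK h3 h2 (by norm_num) (by norm_num) (by norm_num)

theorem sum_const_le (F : Frame R) (hd : 1 ≤ d) (t : Fin F.k → ℝ)
    (ht : ∀ i, t i ≤ 1 / (d : ℝ)) : ∑ i, t i ≤ 1 := by
  have hd' : (0 : ℝ) < d := by exact_mod_cast hd
  calc ∑ i, t i ≤ ∑ _i : Fin F.k, 1 / (d : ℝ) := Finset.sum_le_sum fun i _ => ht i
    _ = (F.k : ℝ) * (1 / d) := by simp
    _ ≤ (d : ℝ) * (1 / d) := by
        apply mul_le_mul_of_nonneg_right _ (by positivity)
        exact_mod_cast F.k_le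
    _ = 1 := by field_simp

set_option maxHeartbeats 1000000 in
theorem fat_step (F : Frame R) (hR : LatConv R) (hd : 1 ≤ d)
    (hFat : F.Fat (1 / (512 * (d : ℝ) ^ 2))) :
    ∃ Q ⊆ R, Q.Nonempty ∧ Q.card ≤ 2 ^ d + (256 * d + 1) ^ d ∧
      ∀ a : (Fin d → ℤ) → ℝ, ∃ R' ⊆ R, LatConv R' ∧
        (64 * d + 1) ^ d * R'.card + R.card ≤ (64 * d + 1) ^ d * R.card ∧
        ∀ f : (Fin d → ℤ) → ℝ, (∀ x ∈ Q, f x = a x) → SubConv R f →
          ∀ w ∈ R, w ∉ R' → ∃ c ∈ Q, f c ≤ f w := by
  classical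
  have hd' : (1 : ℝ) ≤ d := by exact_mod_cast hd
  have hd0 : (0 : ℝ) < d := by linarith
  set δ : ℝ := 1 / (512 * (d : ℝ)) with hδ
  have hδ0 : 0 < δ := by positivity
  have hdδ : 1 / (d : ℝ) = 512 * δ := by rw [hδ]; field_simp
  have hμ : (d : ℝ) * (1 / (512 * (d : ℝ) ^ 2)) = δ := by rw [hδ]; field_simp
  have hρ : (0 : ℝ) ≤ 1 / (512 * (d : ℝ) ^ 2) := by positivity
  -- corner points
  have hnear := fun a : Fin F.k → ℝ => F.exists_near hρ hFat a
  rw [hμ] at hnear
  choose c τ hcτ hτ using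
    fun σ : Fin F.k → Bool => hnear (fun i => 256 * δ + if σ i then 8 * δ else -(8 * δ))
  have hτ' : ∀ σ i, |τ σ i - 256 * δ| ≤ 9 * δ := by
    intro σ i
    have h1 := abs_le.1 (hτ σ i)
    rw [abs_le]
    split_ifs at h1 <;> constructor <;> linarith [h1.1, h1.2]
  have hcR : ∀ σ, c σ ∈ R := by
    intro σ
    apply F.mem_of_co hR (hcτ σ)
    · intro i
      linarith [(abs_le.1 (hτ' σ i)).1]
    · apply F.sum_const_le hd
      intro i
      rw [hdδ]
      linarith [(abs_le.1 (hτ' σ i)).2]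
  -- the net
  choose s ts hs hts using
    fun w : Fin d → ℤ => hnear (fun i => (F.co w i + 256 * δ) / 2)
  have hsR : ∀ w ∈ R, s w ∈ R := by
    intro w hw
    apply F.mem_half hR hw (hs w)
    · intro i
      have := (abs_le.1 (hts w i)).1
      linarith
    · apply F.sum_const_le hd
      intro i
      rw [hdδ]
      have := (abs_le.1 (hts w i)).2
      linarith
  let rep : (Fin F.k → ℤ) → (Fin d → ℤ) := fun b =>
    if h : ∃ w ∈ R, F.cell (128 * d) w = b then h.choose else F.x0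
  have hrepR : ∀ b, rep b ∈ R := by
    intro b
    simp only [rep]
    split_ifs with h
    · exact h.choose_spec.1
    · exact F.hx0
  have hrep : ∀ w ∈ R, F.cell (128 * d) (rep (F.cell (128 * d) w)) = F.cell (128 * d) w := by
    intro w hw
    have h : ∃ w' ∈ R, F.cell (128 * d) w' = F.cell (128 * d) w := ⟨w, hw, rfl⟩
    simp only [rep, h, dif_pos]
    exact h.choose_spec.2
  let S : Finset (Fin d → ℤ) := (R.image (F.cell (128 * d))).image (fun b => s (rep b))
  let C : Finset (Fin d → ℤ) := Finset.univ.image c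
  have hCne : C.Nonempty := ⟨c (fun _ => true), Finset.mem_image.2 ⟨_, Finset.mem_univ _, rfl⟩⟩
  have hcC : ∀ σ, c σ ∈ C ∪ S := fun σ =>
    Finset.mem_union_left _ (Finset.mem_image.2 ⟨σ, Finset.mem_univ _, rfl⟩)
  have hQR : C ∪ S ⊆ R := by
    intro x hx
    rw [Finset.mem_union] at hx
    rcases hx with hx | hx
    · obtain ⟨σ, -, rfl⟩ := Finset.mem_image.1 hx
      exact hcR σ
    · obtain ⟨b, -, rfl⟩ := Finset.mem_image.1 hx
      exact hsR _ (hrepR b)
  refine ⟨C ∪ S, hQR, hCne.mono Finset.subset_union_left, ?_, ?_⟩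
  · refine (Finset.card_union_le _ _).trans (add_le_add ?_ ?_)
    · refine Finset.card_image_le.trans ?_
      rw [Finset.card_univ, Fintype.card_fun, Fintype.card_bool, Fintype.card_fin]
      exact Nat.pow_le_pow_right (by norm_num) F.k_le
    · refine Finset.card_image_le.trans ?_
      refine F.cell_image_card.trans (le_of_eq ?_)
      congr 2
      ring
  intro a
  obtain ⟨σ0, hσ0⟩ := Finite.exists_max (fun σ => a (c σ))
  by_cases hp : ∃ p : Fin d → ℝ, ∀ x ∈ C ∪ S, a (c σ0) + p ⬝ᵥ toR (x - c σ0) ≤ a x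
  swap
  · refine ⟨∅, Finset.empty_subset _, latConv_empty, ?_, ?_⟩
    · simp only [Finset.card_empty, mul_zero, zero_add]
      exact Nat.le_mul_of_pos_left _ (by positivity)
    · intro f hf hconv w hw _
      exfalso
      apply hp
      obtain ⟨p, hp'⟩ := hconv (c σ0) (hcR σ0)
      refine ⟨p, fun x hx => ?_⟩
      rw [← hf x hx, ← hf _ (hcC σ0)]
      exact hp' x (hQR hx)
  obtain ⟨p, hp⟩ := hp
  set P : Fin F.k → ℝ := fun i => p ⬝ᵥ toR (F.v i) with hP
  set Λ : ℝ := ∑ i, |P i| with hΛ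
  let R' := R.filter (fun w => p ⬝ᵥ toR (w - c σ0) < 16 * δ * Λ)
  refine ⟨R', Finset.filter_subset _ _, ?_, ?_, ?_⟩
  · apply hR.filter {x | p ⬝ᵥ x < p ⬝ᵥ toR (c σ0) + 16 * δ * Λ} (convex_dot_lt _ _)
    intro x _
    rw [toR_sub, dotProduct_sub, Set.mem_ofPred_eq, sub_lt_iff_lt_add']
  · have hM2 : 1 ≤ 32 * d := by omega
    have h1 := F.cube_count hR (h := 32 * δ) hρ hFat hM2 (by
        rw [hμ]
        have : 1 / ((32 * d : ℕ) : ℝ) = 16 * δ := by
          rw [hδ]; push_cast; field_simp; norm_num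
        rw [this]; linarith)
      (fun i => 256 * δ + if 0 ≤ P i then 128 * δ else -(128 * δ))
      (by intro i; split_ifs <;> linarith)
      (by
        apply F.sum_const_le hd
        intro i
        rw [hdδ]
        split_ifs <;> linarith)
    have h2 : 2 * (32 * d) + 1 = 64 * d + 1 := by ring
    rw [h2] at h1
    set H := R.filter (fun y => ∀ i, |F.co y i -
      (256 * δ + if 0 ≤ P i then 128 * δ else -(128 * δ))| ≤ 32 * δ) with hH
    have h3 : Disjoint H R' := by
      rw [Finset.disjoint_left]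
      intro w hw hw'
      rw [hH, Finset.mem_filter] at hw
      rw [Finset.mem_filter] at hw'
      obtain ⟨hwR, hw⟩ := hw
      have h4 := hw'.2
      rw [F.dot_sub (F.co_isCo hwR) (hcτ σ0)] at h4
      have h5 : 16 * δ * Λ ≤ ∑ i, (F.co w i - τ σ0 i) * P i := by
        rw [hΛ, Finset.mul_sum]
        apply Finset.sum_le_sum
        intro i _
        have h6 := abs_le.1 (hw i)
        have h7 := abs_le.1 (hτ' σ0 i)
        by_cases hPi : 0 ≤ P i
        · rw [abs_of_nonneg hPi]
          rw [if_pos hPi] at h6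
          apply mul_le_mul_of_nonneg_right _ hPi
          linarith [h6.1, h7.2]
        · rw [if_neg hPi] at h6
          push Not at hPi
          rw [abs_of_neg hPi]
          have : 16 * δ ≤ -(F.co w i - τ σ0 i) := by linarith [h6.2, h7.1]
          nlinarith
      linarith
    have h4 : H.card + R'.card ≤ R.card := by
      rw [← Finset.card_union_of_disjoint h3]
      apply Finset.card_le_card
      apply Finset.union_subset (Finset.filter_subset _ _) (Finset.filter_subset _ _)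
    calc (64 * d + 1) ^ d * R'.card + R.card
        ≤ (64 * d + 1) ^ d * R'.card + H.card * (64 * d + 1) ^ d := by omega
      _ = (64 * d + 1) ^ d * (H.card + R'.card) := by ring
      _ ≤ (64 * d + 1) ^ d * R.card := Nat.mul_le_mul_left _ h4
  · intro f hf hconv w hw hwR'
    refine ⟨c σ0, hcC σ0, ?_⟩
    have hw1 : 16 * δ * Λ ≤ p ⬝ᵥ toR (w - c σ0) := by
      by_contra hcon
      push Not at hcon
      exact hwR' (Finset.mem_filter.2 ⟨hw, hcon⟩)
    set w1 := rep (F.cell (128 * d) w) with hw1def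
    have hM1 : 1 ≤ 128 * d := by omega
    have hcell : ∀ i, |F.co w1 i - F.co w i| ≤ 4 * δ := by
      intro i
      have h1 := F.cell_eq hM1 (hrep w hw) i
      have h2 : 1 / ((128 * d : ℕ) : ℝ) = 4 * δ := by
        rw [hδ]; push_cast; field_simp; norm_num
      rw [h2] at h1
      exact h1
    have hs1 : ∀ i, |2 * ts w1 i - F.co w i - 256 * δ| ≤ 6 * δ := by
      intro i
      have h1 := abs_le.1 (hts w1 i)
      have h2 := abs_le.1 (hcell i)
      rw [abs_le]
      constructor
      · linarith [h1.1, h2.1]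
      · linarith [h1.2, h2.2]
    have hsQ : s w1 ∈ C ∪ S :=
      Finset.mem_union_right _ (Finset.mem_image.2
        ⟨F.cell (128 * d) w, Finset.mem_image.2 ⟨w, hw, rfl⟩, rfl⟩)
    have hw1R : w1 ∈ R := hrepR _
    have hs1R : s w1 ∈ R := hsR _ hw1R
    -- step 1
    have h1 : f (c σ0) ≤ f (s w1) := by
      have e1 := hp (s w1) hsQ
      rw [← hf _ hsQ, ← hf _ (hcC σ0)] at e1
      have e2 : 0 ≤ p ⬝ᵥ toR (s w1 - c σ0) := by
        rw [F.dot_sub (F.co_isCo hw) (hcτ σ0)] at hw1
        rw [F.dot_sub (hs w1) (hcτ σ0)]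
        have e3 : 2 * ∑ i, (ts w1 i - τ σ0 i) * P i =
            ∑ i, (F.co w i - τ σ0 i) * P i +
              ∑ i, (2 * ts w1 i - F.co w i - τ σ0 i) * P i := by
          rw [Finset.mul_sum, ← Finset.sum_add_distrib]
          apply Finset.sum_congr rfl
          intro i _
          ring
        have e4 : -(16 * δ * Λ) ≤ ∑ i, (2 * ts w1 i - F.co w i - τ σ0 i) * P i := by
          rw [hΛ, Finset.mul_sum, ← Finset.sum_neg_distrib]
          apply Finset.sum_le_sum
          intro i _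
          have e5 : |2 * ts w1 i - F.co w i - τ σ0 i| ≤ 16 * δ := by
            have e6 := abs_le.1 (hs1 i)
            have e7 := abs_le.1 (hτ' σ0 i)
            rw [abs_le]
            constructor
            · linarith [e6.1, e7.2]
            · linarith [e6.2, e7.1]
          have e8 : |(2 * ts w1 i - F.co w i - τ σ0 i) * P i| ≤ 16 * δ * |P i| := by
            rw [abs_mul]
            exact mul_le_mul_of_nonneg_right e5 (abs_nonneg _)
          linarith [(abs_le.1 e8).1]
        linarith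
      linarith
    -- step 2
    obtain ⟨q, hq⟩ := hconv (s w1) hs1R
    set Qv : Fin F.k → ℝ := fun i => q ⬝ᵥ toR (F.v i) with hQv
    let σ : Fin F.k → Bool := fun i => decide (0 ≤ Qv i)
    have h2 := hq w hw
    have h3 := hq (c σ) (hcR σ)
    have h4 : 0 ≤ q ⬝ᵥ toR (w - s w1) + q ⬝ᵥ toR (c σ - s w1) := by
      rw [F.dot_sub (F.co_isCo hw) (hs w1), F.dot_sub (hcτ σ) (hs w1),
        ← Finset.sum_add_distrib]
      apply Finset.sum_nonneg
      intro i _
      have e1 : (F.co w i - ts w1 i) * (q ⬝ᵥ toR (F.v i)) +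
          (τ σ i - ts w1 i) * (q ⬝ᵥ toR (F.v i)) =
          (F.co w i + τ σ i - 2 * ts w1 i) * Qv i := by
        rw [hQv]; ring
      rw [e1]
      have e2 := abs_le.1 (hs1 i)
      have e3 := abs_le.1 (hτ σ i)
      by_cases hQi : 0 ≤ Qv i
      · have e4 : σ i = true := by simp [σ, hQi]
        rw [e4] at e3
        simp only [if_true] at e3
        apply mul_nonneg _ hQi
        linarith [e2.2, e3.1]
      · have e4 : σ i = false := by simp [σ]; linarith [not_le.1 hQi]
        rw [e4] at e3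
        simp only [Bool.false_eq_true, if_false] at e3
        push Not at hQi
        have : F.co w i + τ σ i - 2 * ts w1 i ≤ 0 := by linarith [e2.1, e3.2]
        nlinarith
    have h5 : f (c σ) ≤ f (c σ0) := by
      rw [hf _ (hcC σ), hf _ (hcC σ0)]
      exact hσ0 σ
    linarith

end Frame

end Pool.Agent.H.MP_f23a5d_lc
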