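import Pool.Agent.H.MP_f23a5d_lc.Lip
import Pool.Agent.H.MP_f23a5d_lc.Coarse

set_option autoImplicit false

namespace Pool.Agent.H.MP_f23a5d_lc

variable {d : ℕ}

/-- A point of the subgrid with offset `a` and mesh `r`. -/
def pt (r : ℕ) (a x : Fin d → ℤ) : Fin d → ℤ := a + (r : ℤ) • x

theorem pt_mem {n m r : ℕ} (h : r * m ≤ n) {a x : Fin d → ℤ} (ha : a ∈ Box d r)
    (hx : x ∈ Box d m) : pt r a x ∈ Box d n := by
  rw [mem_Box]
  intro i
  have h1 := mem_Box.1 ha i
  have h2 := mem_Box.1 hx i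
  have h3 : ((r * m : ℕ) : ℤ) ≤ n := by exact_mod_cast h
  push_cast at h3
  simp only [pt, Pi.add_apply, Pi.smul_apply, smul_eq_mul]
  constructor
  · have : 0 ≤ (r : ℤ) * x i := mul_nonneg (by omega) h2.1
    omega
  · have h4 : (r : ℤ) * x i ≤ r * (m - 1) := mul_le_mul_of_nonneg_left (by omega) (by omega)
    have h5 : (r : ℤ) * (m - 1) = r * m - r := by ring
    omega

theorem cvxBox_sub {n m r : ℕ} (h : r * m ≤ n) (hr : 1 ≤ r) {f : (Fin d → ℤ) → ℝ}
    (hf : CvxBox n f) {a : Fin d → ℤ} (ha : a ∈ Box d r) :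
    CvxBox m (fun x => f (pt r a x)) := by
  obtain ⟨F, hF, hfF⟩ := hf
  refine ⟨fun u => F (toR a + (r : ℝ) • u), ⟨convex_Icc _ _, ?_⟩, ?_⟩
  · intro x hx y hy s t hs ht hst
    have hmem : ∀ u : Fin d → ℝ, u ∈ Set.Icc (fun _ : Fin d => (0 : ℝ)) (fun _ => (m : ℝ) - 1) →
        toR a + (r : ℝ) • u ∈ Set.Icc (fun _ : Fin d => (0 : ℝ)) (fun _ => (n : ℝ) - 1) := by
      intro u hu
      rw [Set.mem_Icc, Pi.le_def, Pi.le_def] at hu ⊢
      have hr' : (1 : ℝ) ≤ r := by exact_mod_cast hr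
      have h' : (r : ℝ) * m ≤ n := by exact_mod_cast h
      constructor
      · intro i
        have h1 : (0 : ℝ) ≤ a i := by exact_mod_cast (mem_Box.1 ha i).1
        have h2 := hu.1 i
        simp only [Pi.add_apply, Pi.smul_apply, smul_eq_mul, toR]
        positivity
      · intro i
        have h1 : (a i : ℝ) ≤ r - 1 := by
          have : a i ≤ (r : ℤ) - 1 := by have := (mem_Box.1 ha i).2; omega
          exact_mod_cast this
        have h2 := hu.2 i
        simp only [Pi.add_apply, Pi.smul_apply, smul_eq_mul, toR]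
        have h3 : (r : ℝ) * u i ≤ r * (m - 1) := mul_le_mul_of_nonneg_left h2 (by linarith)
        have h4 : (r : ℝ) * (m - 1) = r * m - r := by ring
        linarith
    have h1 := hF.2 (hmem x hx) (hmem y hy) hs ht hst
    have h2 : s • (toR a + (r : ℝ) • x) + t • (toR a + (r : ℝ) • y) =
        toR a + (r : ℝ) • (s • x + t • y) := by
      have : t = 1 - s := by linarith
      subst this
      module
    rw [h2] at h1
    exact h1
  · intro x hx
    dsimp only
    rw [hfF _ (pt_mem h ha hx)]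
    congr 1
    rw [pt, toR_add, toR_zsmul]
    norm_num

theorem lip_test_yes {n m r t : ℕ} (h : r * m ≤ n) (hr : 1 ≤ r) (ht : 1 ≤ t)
    {f : (Fin d → ℤ) → ℝ} (h01 : ∀ x ∈ Box d n, 0 ≤ f x ∧ f x ≤ 1)
    (hf : SubConv (Box d n) f) {a b x : Fin d → ℤ} (ha : a ∈ Box d r) (hb : b ∈ Box d r)
    (hx : x ∈ Box d m) (hxt : x ∉ margin d m t) : |f (pt r a x) - f (pt r b x)| ≤ 1 / t := by
  rcases Nat.eq_zero_or_pos d with hd | hd
  · subst hd
    have : pt r a x = pt r b x := by funext i; exact i.elim0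
    rw [this, sub_self, abs_zero]
    positivity
  have hm : 1 ≤ m := by
    have := mem_Box.1 hx ⟨0, hd⟩
    omega
  have hn : 1 ≤ n := by nlinarith
  obtain ⟨F, hF, hF0, hF1, hFf⟩ := exists_ext hn h01 hf
  rw [← hFf _ (pt_mem h ha hx), ← hFf _ (pt_mem h hb hx)]
  have hr' : (1 : ℝ) ≤ r := by exact_mod_cast hr
  have ht' : (1 : ℝ) ≤ t := by exact_mod_cast ht
  have h' : (r : ℝ) * m ≤ n := by exact_mod_cast h
  have hgood : ∀ i, (t : ℤ) ≤ x i ∧ x i < (m : ℤ) - t := by
    rw [margin, Finset.mem_filter, not_and, not_not] at hxt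
    exact hxt hx
  have hmar : ∀ c ∈ Box d r, ∀ i, (r : ℝ) * t ≤ toR (pt r c x) i ∧
      toR (pt r c x) i ≤ (n : ℝ) - 1 - r * t := by
    intro c hc i
    have h1 : (0 : ℝ) ≤ c i := by exact_mod_cast (mem_Box.1 hc i).1
    have h2 : (c i : ℝ) ≤ r - 1 := by
      have : c i ≤ (r : ℤ) - 1 := by have := (mem_Box.1 hc i).2; omega
      exact_mod_cast this
    have h3 : (t : ℝ) ≤ x i := by exact_mod_cast (hgood i).1
    have h4 : (x i : ℝ) ≤ m - t - 1 := by
      have : x i ≤ (m : ℤ) - t - 1 := by have := (hgood i).2; omega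
      exact_mod_cast this
    have e : toR (pt r c x) i = c i + r * x i := by simp [toR, pt]
    rw [e]
    have h5 : (r : ℝ) * t ≤ r * x i := mul_le_mul_of_nonneg_left h3 (by linarith)
    have h6 : (r : ℝ) * x i ≤ r * (m - t - 1) := mul_le_mul_of_nonneg_left h4 (by linarith)
    have h7 : (r : ℝ) * (m - t - 1) = r * m - r * t - r := by ring
    constructor <;> linarith
  have hdiff : ∀ i, |toR (pt r a x) i - toR (pt r b x) i| ≤ r := by
    intro i
    have h1 := mem_Box.1 ha i
    have h2 := mem_Box.1 hb i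
    have e : toR (pt r a x) i - toR (pt r b x) i = ((a i - b i : ℤ) : ℝ) := by
      simp [toR, pt]
    rw [e]
    have h3 : |a i - b i| ≤ (r : ℤ) := by rw [abs_le]; omega
    exact_mod_cast h3
  have := lip hF hF0 hF1 (M := (n : ℝ) - 1) (μ := r * t) (κ := r) (by positivity) (by linarith)
    (hmar a ha) (hmar b hb) hdiff
  refine this.trans (le_of_eq ?_)
  field_simp

theorem pt_injective {r : ℕ} {a x a' x' : Fin d → ℤ} (ha : a ∈ Box d r)
    (ha' : a' ∈ Box d r) (h : pt r a x = pt r a' x') : a = a' ∧ x = x' := by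
  have h1 : ∀ i, a i = a' i ∧ x i = x' i := by
    intro i
    have h2 := congrFun h i
    simp only [pt, Pi.add_apply, Pi.smul_apply, smul_eq_mul] at h2
    have h3 := mem_Box.1 ha i
    have h4 := mem_Box.1 ha' i
    have hr : (r : ℤ) ≠ 0 := by omega
    have e1 : (a i + r * x i) / r = x i := by
      rw [Int.add_mul_ediv_left _ _ hr, Int.ediv_eq_zero_of_lt h3.1 h3.2, zero_add]
    have e2 : (a' i + r * x' i) / r = x' i := by
      rw [Int.add_mul_ediv_left _ _ hr, Int.ediv_eq_zero_of_lt h4.1 h4.2, zero_add]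
    have e3 : x i = x' i := by rw [← e1, ← e2, h2]
    refine ⟨?_, e3⟩
    rw [e3] at h2
    linarith
  exact ⟨funext fun i => (h1 i).1, funext fun i => (h1 i).2⟩

theorem sum_le_sub {n m r : ℕ} (h : r * m ≤ n) {ψ : (Fin d → ℤ) → ℝ}
    (hψ : ∀ y ∈ Box d n, 0 ≤ ψ y ∧ ψ y ≤ 1) :
    ∑ y ∈ Box d n, ψ y ≤ ∑ b ∈ Box d r, ∑ x ∈ Box d m, ψ (pt r b x) +
      ((n : ℝ) ^ d - ((r * m : ℕ) : ℝ) ^ d) := by
  classical
  let I := (Box d r ×ˢ Box d m).image (fun q => pt r q.1 q.2)
  have hinj : Set.InjOn (fun q : (Fin d → ℤ) × (Fin d → ℤ) => pt r q.1 q.2)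
      (Box d r ×ˢ Box d m : Finset _) := by
    rintro ⟨a, x⟩ hax ⟨a', x'⟩ hax' hq
    rw [Finset.mem_coe, Finset.mem_product] at hax hax'
    obtain ⟨h1, h2⟩ := pt_injective hax.1 hax'.1 hq
    exact Prod.ext h1 h2
  have hIsub : I ⊆ Box d n := by
    intro y hy
    obtain ⟨⟨a, x⟩, hax, rfl⟩ := Finset.mem_image.1 hy
    rw [Finset.mem_product] at hax
    exact pt_mem h hax.1 hax.2
  have hIcard : I.card = (r * m) ^ d := by
    rw [Finset.card_image_of_injOn hinj, Finset.card_product, card_Box, card_Box, mul_pow]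
  have hIsum : ∑ y ∈ I, ψ y = ∑ b ∈ Box d r, ∑ x ∈ Box d m, ψ (pt r b x) := by
    rw [Finset.sum_image hinj, Finset.sum_product]
  rw [← Finset.sum_sdiff hIsub, hIsum, add_comm]
  apply add_le_add (le_refl _)
  calc ∑ y ∈ Box d n \ I, ψ y ≤ ∑ _y ∈ Box d n \ I, (1 : ℝ) :=
        Finset.sum_le_sum fun y hy => (hψ y (Finset.mem_sdiff.1 hy).1).2
    _ = ((Box d n \ I).card : ℝ) := by simp
    _ = (n : ℝ) ^ d - ((r * m : ℕ) : ℝ) ^ d := by
        rw [Finset.card_sdiff_of_subset hIsub, card_Box, hIcard, Nat.cast_sub]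
        · push_cast; ring
        · exact Nat.pow_le_pow_left h d

set_option maxHeartbeats 1000000 in
/-- If `f` is far from convex, then so is its restriction to a typical subgrid. -/
theorem far_sub {n m r t : ℕ} (h : r * m ≤ n) (hnm : n < r * (m + 1)) (hr : 1 ≤ r)
    (hm : 1 ≤ m) (hn2 : 2 ≤ n) (ht : 3 ≤ t) {ε : ℝ} (hε : 0 < ε) (hε1 : ε ≤ 1)
    (ht2 : 2 / ((t : ℝ) - 2) ≤ ε / 16) (hmar : 2 * d * t / (m : ℝ) ≤ ε / 16)
    (hleft : (d : ℝ) * r / n ≤ ε / 16)
    {f : (Fin d → ℤ) → ℝ} (h01 : ∀ x ∈ Box d n, 0 ≤ f x ∧ f x ≤ 1) (hfar : FarBox n ε f)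
    {a : Fin d → ℤ} (ha : a ∈ Box d r)
    (hΔ : ∑ b ∈ Box d r, ∑ x ∈ Box d m, |f (pt r a x) - f (pt r b x)| ≤
      3 * ε / 16 * ((r : ℝ) ^ d * (m : ℝ) ^ d)) :
    FarBox m (ε / 8) (fun x => f (pt r a x)) := by
  intro g hg01 hg
  by_contra hcon
  push Not at hcon
  obtain ⟨G, hG, hG0, hG1, hGg⟩ := exists_ext hm hg01 hg
  have hr' : (1 : ℝ) ≤ r := by exact_mod_cast hr
  have hm' : (1 : ℝ) ≤ m := by exact_mod_cast hm
  have hn' : (2 : ℝ) ≤ n := by exact_mod_cast hn2
  have ht' : (3 : ℝ) ≤ t := by exact_mod_cast ht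
  have h' : (r : ℝ) * m ≤ n := by exact_mod_cast h
  have hnm' : (n : ℝ) ≤ r * m + r - 1 := by
    have : n + 1 ≤ r * m + r := by nlinarith
    have h2 : ((n + 1 : ℕ) : ℝ) ≤ ((r * m + r : ℕ) : ℝ) := by exact_mod_cast this
    push_cast at h2
    linarith
  have hn1 : (0 : ℝ) < (n : ℝ) - 1 := by linarith
  set σ : ℝ := ((m : ℝ) - 1) / ((n : ℝ) - 1) with hσ
  have hσ0 : 0 ≤ σ := div_nonneg (by linarith) hn1.le
  have hσn : σ * ((n : ℝ) - 1) = (m : ℝ) - 1 := by rw [hσ]; field_simp
  have hσr : σ * r ≤ 1 := by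
    rw [hσ, div_mul_eq_mul_div, div_le_one hn1]
    nlinarith
  set gh : (Fin d → ℤ) → ℝ := fun y => G (σ • toR y) with hgh
  have hgh01 : ∀ y ∈ Box d n, 0 ≤ gh y ∧ gh y ≤ 1 := by
    intro y hy
    refine ⟨hG0 _, hG1 _ ?_⟩
    intro i
    have h1 := mem_Box.1 hy i
    have h2 : (0 : ℝ) ≤ y i := by exact_mod_cast h1.1
    have h3 : (y i : ℝ) ≤ (n : ℝ) - 1 := by
      have : y i ≤ (n : ℤ) - 1 := by omega
      exact_mod_cast this
    simp only [Pi.smul_apply, toR, smul_eq_mul]
    refine ⟨by positivity, ?_⟩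
    rw [← hσn]
    exact mul_le_mul_of_nonneg_left h3 hσ0
  have hghconv : SubConv (Box d n) gh := by
    intro z _
    obtain ⟨p, hp⟩ := hG (σ • toR z)
    refine ⟨σ • p, fun w _ => ?_⟩
    have h1 := hp (σ • toR w)
    have h2 : (σ • p) ⬝ᵥ toR (w - z) = p ⬝ᵥ (σ • toR w - σ • toR z) := by
      rw [← smul_sub, ← toR_sub, dotProduct_smul, smul_dotProduct]
    rw [h2]
    exact h1
  have h1 := hfar gh hgh01 hghconv
  have h2 := sum_le_sub (d := d) h (ψ := fun y => |f y - gh y|) (by
    intro y hy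
    refine ⟨abs_nonneg _, ?_⟩
    have e1 := h01 y hy
    have e2 := hgh01 y hy
    rw [abs_le]
    constructor <;> linarith [e1.1, e1.2, e2.1, e2.2])
  -- the third difference
  have h3 : ∀ b ∈ Box d r, ∀ x ∈ Box d m, |g x - gh (pt r b x)| ≤
      ε / 16 + (if x ∈ margin d m t then 1 else 0) := by
    intro b hb x hx
    by_cases hxm : x ∈ margin d m t
    · rw [if_pos hxm]
      have e1 := hg01 x hx
      have e2 := hgh01 _ (pt_mem h hb hx)
      have : |g x - gh (pt r b x)| ≤ 1 := by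
        rw [abs_le]; constructor <;> linarith [e1.1, e1.2, e2.1, e2.2]
      linarith
    · rw [if_neg hxm, add_zero]
      have hgood : ∀ i, (t : ℤ) ≤ x i ∧ x i < (m : ℤ) - t := by
        rw [margin, Finset.mem_filter, not_and, not_not] at hxm
        exact hxm hx
      rw [← hGg x hx, hgh]
      dsimp only
      have hcoord : ∀ i, (x i : ℝ) - 2 ≤ σ * ((b i : ℝ) + r * x i) ∧
          σ * ((b i : ℝ) + r * x i) ≤ x i + 1 := by
        intro i
        have e1 : (0 : ℝ) ≤ b i := by exact_mod_cast (mem_Box.1 hb i).1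
        have e2 : (b i : ℝ) ≤ r - 1 := by
          have : b i ≤ (r : ℤ) - 1 := by have := (mem_Box.1 hb i).2; omega
          exact_mod_cast this
        have e3 : (0 : ℝ) ≤ x i := by exact_mod_cast (mem_Box.1 hx i).1
        have e4 : (x i : ℝ) ≤ m - 1 := by
          have : x i ≤ (m : ℤ) - 1 := by have := (mem_Box.1 hx i).2; omega
          exact_mod_cast this
        constructor
        · have e5 : (x i : ℝ) * (1 - σ * r) ≤ 2 := by
            have e6 : 1 - σ * r ≤ (2 * r - 2) / ((n : ℝ) - 1) := by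
              rw [le_div_iff₀ hn1, sub_mul, one_mul]
              have : σ * r * ((n : ℝ) - 1) = r * (m - 1) := by
                rw [mul_right_comm, hσn]; ring
              rw [this]
              linarith
            have e7 : (x i : ℝ) * (1 - σ * r) ≤ (m - 1) * ((2 * r - 2) / ((n : ℝ) - 1)) :=
              mul_le_mul e4 e6 (by linarith) (by linarith)
            refine e7.trans ?_
            rw [← mul_div_assoc, div_le_iff₀ hn1]
            nlinarith
          have e8 : 0 ≤ σ * b i := mul_nonneg hσ0 e1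
          linarith
        · have e5 : σ * ((b i : ℝ) + r * x i) ≤ σ * (r * (x i + 1)) := by
            apply mul_le_mul_of_nonneg_left _ hσ0
            linarith
          have e6 : σ * (r * ((x i : ℝ) + 1)) = (σ * r) * (x i + 1) := by ring
          rw [e6] at e5
          have e7 : (σ * r) * ((x i : ℝ) + 1) ≤ 1 * (x i + 1) :=
            mul_le_mul_of_nonneg_right hσr (by linarith)
          linarith
      have hval : ∀ i, (σ • toR (pt r b x)) i = σ * ((b i : ℝ) + r * x i) := by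
        intro i; simp [toR, pt]
      have := lip hG hG0 hG1 (M := (m : ℝ) - 1) (μ := (t : ℝ) - 2) (κ := 2) (by linarith)
        (by norm_num) (u := toR x) (v := σ • toR (pt r b x)) (by
          intro i
          have e1 : (t : ℝ) ≤ x i := by exact_mod_cast (hgood i).1
          have e2 : (x i : ℝ) ≤ m - t - 1 := by
            have : x i ≤ (m : ℤ) - t - 1 := by have := (hgood i).2; omega
            exact_mod_cast this
          simp only [toR]
          constructor <;> linarith) (by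
          intro i
          have e1 : (t : ℝ) ≤ x i := by exact_mod_cast (hgood i).1
          have e2 : (x i : ℝ) ≤ m - t - 1 := by
            have : x i ≤ (m : ℤ) - t - 1 := by have := (hgood i).2; omega
            exact_mod_cast this
          rw [hval]
          have e3 := hcoord i
          constructor <;> linarith [e3.1, e3.2]) (by
          intro i
          rw [hval]
          have e3 := hcoord i
          simp only [toR]
          rw [abs_le]
          constructor <;> linarith [e3.1, e3.2])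
      exact this.trans ht2
  have hsum : ∑ b ∈ Box d r, ∑ x ∈ Box d m, |f (pt r b x) - gh (pt r b x)| ≤
      3 * ε / 16 * ((r : ℝ) ^ d * (m : ℝ) ^ d) + (r : ℝ) ^ d * (ε / 8 * (m : ℝ) ^ d) +
      (r : ℝ) ^ d * (ε / 16 * (m : ℝ) ^ d + ε / 16 * (m : ℝ) ^ d) := by
    calc ∑ b ∈ Box d r, ∑ x ∈ Box d m, |f (pt r b x) - gh (pt r b x)|
        ≤ ∑ b ∈ Box d r, ∑ x ∈ Box d m, (|f (pt r a x) - f (pt r b x)| +
            |f (pt r a x) - g x| + (ε / 16 + (if x ∈ margin d m t then 1 else 0))) := by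
          apply Finset.sum_le_sum
          intro b hb
          apply Finset.sum_le_sum
          intro x hx
          have e1 := h3 b hb x hx
          calc |f (pt r b x) - gh (pt r b x)|
              = |-(f (pt r a x) - f (pt r b x)) + (f (pt r a x) - g x) +
                  (g x - gh (pt r b x))| := by congr 1; ring
            _ ≤ |-(f (pt r a x) - f (pt r b x)) + (f (pt r a x) - g x)| +
                  |g x - gh (pt r b x)| := abs_add_le _ _
            _ ≤ |-(f (pt r a x) - f (pt r b x))| + |f (pt r a x) - g x| +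
                  |g x - gh (pt r b x)| := by
                have := abs_add_le (-(f (pt r a x) - f (pt r b x))) (f (pt r a x) - g x)
                linarith
            _ ≤ _ := by rw [abs_neg]; linarith
      _ = ∑ b ∈ Box d r, ∑ x ∈ Box d m, |f (pt r a x) - f (pt r b x)| +
            (r : ℝ) ^ d * ∑ x ∈ Box d m, |f (pt r a x) - g x| +
            (r : ℝ) ^ d * (ε / 16 * (m : ℝ) ^ d + (margin d m t).card) := by
          simp only [Finset.sum_add_distrib, Finset.sum_const, card_Box, nsmul_eq_mul]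
          have e1 : ∑ x ∈ Box d m, (if x ∈ margin d m t then (1 : ℝ) else 0) =
              (margin d m t).card := by
            rw [← Finset.sum_filter, Finset.sum_const, nsmul_eq_mul, mul_one]
            congr 2
            ext x
            rw [Finset.mem_filter]
            constructor
            · exact fun h => h.2
            · intro h
              exact ⟨(Finset.mem_filter.1 h).1, h⟩
          rw [e1]
          push_cast
          ring
      _ ≤ _ := by
          have e1 : ((margin d m t).card : ℝ) ≤ ε / 16 * (m : ℝ) ^ d := by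
            refine (margin_card d m t hm).trans ?_
            exact mul_le_mul_of_nonneg_right hmar (by positivity)
          have e2 : (r : ℝ) ^ d * ∑ x ∈ Box d m, |f (pt r a x) - g x| ≤
              (r : ℝ) ^ d * (ε / 8 * (m : ℝ) ^ d) :=
            mul_le_mul_of_nonneg_left hcon.le (by positivity)
          have e3 : (r : ℝ) ^ d * (ε / 16 * (m : ℝ) ^ d + (margin d m t).card) ≤
              (r : ℝ) ^ d * (ε / 16 * (m : ℝ) ^ d + ε / 16 * (m : ℝ) ^ d) := by
            apply mul_le_mul_of_nonneg_left _ (by positivity)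
            linarith
          linarith
  -- the left over points
  have hrm : (r : ℝ) ^ d * (m : ℝ) ^ d ≤ (n : ℝ) ^ d := by
    rw [← mul_pow]
    exact pow_le_pow_left₀ (by positivity) h' d
  have hleft' : (n : ℝ) ^ d - ((r * m : ℕ) : ℝ) ^ d ≤ ε / 16 * (n : ℝ) ^ d := by
    have hn0 : (0 : ℝ) < n := by linarith
    have e1 : ((n : ℝ) - r) ≤ ((r * m : ℕ) : ℝ) := by push_cast; linarith
    have hrn : (r : ℝ) ≤ n := by nlinarith
    have e2 : (1 - (d : ℝ) * (r / n)) ≤ (1 - (r : ℝ) / n) ^ d := by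
      have h5 := one_add_mul_le_pow (a := -((r : ℝ) / n)) (by
        have : (r : ℝ) / n ≤ 1 := by rw [div_le_one hn0]; exact hrn
        linarith) d
      calc (1 - (d : ℝ) * (r / n)) = 1 + d * (-((r : ℝ) / n)) := by ring
        _ ≤ (1 + -((r : ℝ) / n)) ^ d := h5
        _ = (1 - (r : ℝ) / n) ^ d := by rw [← sub_eq_add_neg]
    have e3 : ((n : ℝ) - r) ^ d = (1 - (r : ℝ) / n) ^ d * (n : ℝ) ^ d := by
      rw [← mul_pow]; congr 1; field_simp
    have e4 : ((n : ℝ) - r) ^ d ≤ ((r * m : ℕ) : ℝ) ^ d :=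
      pow_le_pow_left₀ (by linarith) e1 d
    have e5 : (1 - (d : ℝ) * (r / n)) * (n : ℝ) ^ d ≤ (1 - (r : ℝ) / n) ^ d * (n : ℝ) ^ d :=
      mul_le_mul_of_nonneg_right e2 (by positivity)
    have e6 : (d : ℝ) * (r / n) ≤ ε / 16 := by rw [← mul_div_assoc]; exact hleft
    have e7 : (d : ℝ) * (r / n) * (n : ℝ) ^ d ≤ ε / 16 * (n : ℝ) ^ d :=
      mul_le_mul_of_nonneg_right e6 (by positivity)
    rw [← e3] at e5
    linarith
  have hnpos : (0 : ℝ) < (n : ℝ) ^ d := by positivity
  have hfin : ∑ b ∈ Box d r, ∑ x ∈ Box d m, |f (pt r b x) - gh (pt r b x)| ≤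
      (7 * ε / 16) * (n : ℝ) ^ d := by
    refine hsum.trans ?_
    have : 3 * ε / 16 * ((r : ℝ) ^ d * (m : ℝ) ^ d) + (r : ℝ) ^ d * (ε / 8 * (m : ℝ) ^ d) +
      (r : ℝ) ^ d * (ε / 16 * (m : ℝ) ^ d + ε / 16 * (m : ℝ) ^ d) =
      (7 * ε / 16) * ((r : ℝ) ^ d * (m : ℝ) ^ d) := by ring
    rw [this]
    exact mul_le_mul_of_nonneg_left hrm (by positivity)
  have hεn : 0 < ε * (n : ℝ) ^ d := by positivity
  linarith

end Pool.Agent.H.MP_f23a5d_lc
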