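import Pool.Agent.H.MP_f23a5d_lc.Auerbach

set_option autoImplicit false

namespace Pool.Agent.H.MP_f23a5d_lc

open Module Submodule

variable {d : ℕ}

/-- An Auerbach type affine frame of a finite set of integer points. -/
structure Frame (R : Finset (Fin d → ℤ)) where
  k : ℕ
  x0 : Fin d → ℤ
  v : Fin k → Fin d → ℤ
  hx0 : x0 ∈ R
  hv : ∀ i, x0 + v i ∈ R
  li : LinearIndependent ℝ (fun i => toR (v i))
  cov : ∀ y ∈ R, ∃ t : Fin k → ℝ, (∀ i, |t i| ≤ 1) ∧ toR (y - x0) = ∑ i, t i • toR (v i)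

/-- `t` is the coordinate vector of `y`. -/
def Frame.IsCo {R : Finset (Fin d → ℤ)} (F : Frame R) (y : Fin d → ℤ) (t : Fin F.k → ℝ) :
    Prop := toR (y - F.x0) = ∑ i, t i • toR (F.v i)

/-- The set `R` lies in a coset of a subspace of dimension at most `k`. -/
def DimLE (R : Finset (Fin d → ℤ)) (k : ℕ) : Prop :=
  ∃ W : Submodule ℝ (Fin d → ℝ), finrank ℝ W ≤ k ∧ ∀ x ∈ R, ∀ y ∈ R, toR (x - y) ∈ W

theorem exists_frame (R : Finset (Fin d → ℤ)) (hne : R.Nonempty) (k : ℕ) (hk : DimLE R k) :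
    ∃ F : Frame R, F.k ≤ k := by
  classical
  obtain ⟨x0, hx0⟩ := hne
  obtain ⟨W, hW, hRW⟩ := hk
  let S : Finset (Fin d → ℝ) := R.image (fun y => toR (y - x0))
  obtain ⟨v, hvS, hli, hcov⟩ := auerbach S
  have h1 : ∀ i, ∃ y ∈ R, toR (y - x0) = v i := by
    intro i
    have := hvS i
    simpa [S] using this
  choose y hyR hy using h1
  have h2 : (fun i => toR (y i - x0)) = v := funext hy
  refine ⟨⟨_, x0, fun i => y i - x0, hx0, fun i => by simpa using hyR i, ?_, ?_⟩, ?_⟩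
  · rw [h2]; exact hli
  · intro z hz
    obtain ⟨t, ht1, ht2⟩ := hcov (toR (z - x0)) (Finset.mem_image.2 ⟨z, hz, rfl⟩)
    refine ⟨t, ht1, ?_⟩
    rw [ht2]
    simp only [hy]
  · change finrank ℝ (span ℝ (S : Set (Fin d → ℝ))) ≤ k
    refine le_trans (Submodule.finrank_mono ?_) hW
    rw [span_le]
    intro z hz
    simp only [S, Finset.coe_image, Set.mem_image, Finset.mem_coe] at hz
    obtain ⟨w, hw, rfl⟩ := hz
    exact hRW w hw x0 hx0

namespace Frame

variable {R : Finset (Fin d → ℤ)} (F : Frame R)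

theorem k_le : F.k ≤ d := by
  have := F.li.fintype_card_le_finrank
  simpa using this

variable {F}

theorem IsCo.unique {y : Fin d → ℤ} {s t : Fin F.k → ℝ} (hs : F.IsCo y s) (ht : F.IsCo y t) :
    s = t := by
  have h1 : ∑ i, (s i - t i) • toR (F.v i) = 0 := by
    simp only [sub_smul, Finset.sum_sub_distrib]
    rw [← hs, ← ht, sub_self]
  have h2 := Fintype.linearIndependent_iff.1 F.li (fun i => s i - t i) h1
  funext i
  have := h2 i
  linarith

theorem dot_sub {y z : Fin d → ℤ} {s t : Fin F.k → ℝ} (hy : F.IsCo y s) (hz : F.IsCo z t)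
    (p : Fin d → ℝ) :
    p ⬝ᵥ toR (y - z) = ∑ i, (s i - t i) * (p ⬝ᵥ toR (F.v i)) := by
  have h1 : toR (y - z) = toR (y - F.x0) - toR (z - F.x0) := by
    rw [← toR_sub]; congr 1; abel
  rw [h1, hy, hz, ← Finset.sum_sub_distrib]
  simp only [← sub_smul]
  rw [dotProduct_sum]
  simp only [dotProduct_smul, smul_eq_mul]

theorem mem_K (F : Frame R) {K : Set (Fin d → ℝ)} (hK : Convex ℝ K)
    (hRK : ∀ x, x ∈ R ↔ toR x ∈ K) (t : Fin F.k → ℝ) (ht : ∀ i, 0 ≤ t i)
    (ht1 : ∑ i, t i ≤ 1) : toR F.x0 + ∑ i, t i • toR (F.v i) ∈ K := by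
  have h1 : toR F.x0 + ∑ i, t i • toR (F.v i) =
      ∑ i : Option (Fin F.k), (Option.elim i (1 - ∑ i, t i) t) •
        (Option.elim i (toR F.x0) (fun i => toR (F.x0 + F.v i))) := by
    rw [Fintype.sum_option]
    simp only [Option.elim, toR_add, smul_add, Finset.sum_add_distrib]
    rw [← Finset.sum_smul]
    rw [sub_smul, one_smul]
    abel
  rw [h1]
  apply hK.sum_mem
  · intro i _
    cases i with
    | none => simp only [Option.elim]; linarith
    | some i => exact ht i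
  · rw [Fintype.sum_option]
    simp only [Option.elim]
    ring
  · intro i _
    cases i with
    | none => exact (hRK _).1 F.hx0
    | some i => exact (hRK _).1 (F.hv i)

/-- The short lattice vectors with respect to the frame. -/
def short (F : Frame R) (ρ : ℝ) : Set (Fin d → ℝ) :=
  {u | ∃ x : Fin d → ℤ, u = toR x ∧ ∃ t : Fin F.k → ℝ, (∀ i, |t i| ≤ ρ) ∧
    toR x = ∑ i, t i • toR (F.v i)}

/-- The short vectors span the direction space. -/
def Fat (F : Frame R) (ρ : ℝ) : Prop :=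
  span ℝ (Set.range (fun i => toR (F.v i))) ≤ span ℝ (F.short ρ)

theorem short_subset (F : Frame R) (ρ : ℝ) :
    span ℝ (F.short ρ) ≤ span ℝ (Set.range (fun i => toR (F.v i))) := by
  rw [span_le]
  rintro u ⟨x, rfl, t, -, ht⟩
  rw [ht]
  exact sum_mem fun i _ => smul_mem _ _ (subset_span ⟨i, rfl⟩)

theorem exists_near (F : Frame R) {ρ : ℝ} (hρ : 0 ≤ ρ) (hF : F.Fat ρ) (a : Fin F.k → ℝ) :
    ∃ (y : Fin d → ℤ) (t : Fin F.k → ℝ), F.IsCo y t ∧ ∀ i, |t i - a i| ≤ d * ρ := by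
  obtain ⟨f, hfS, hfspan, -⟩ := exists_fun_fin_finrank_span_eq ℝ (F.short ρ)
  have hm : finrank ℝ (span ℝ (F.short ρ)) ≤ d := by
    have := Submodule.finrank_le (span ℝ (F.short ρ))
    simpa using this
  have h1 : ∑ i, a i • toR (F.v i) ∈ span ℝ (Set.range f) := by
    rw [hfspan]
    apply hF
    exact sum_mem fun i _ => smul_mem _ _ (subset_span ⟨i, rfl⟩)
  rw [mem_span_range_iff_exists_fun] at h1
  obtain ⟨c, hc⟩ := h1
  choose x hfx σ hσ hxσ using hfS
  refine ⟨F.x0 + ∑ j, ⌊c j⌋ • x j, fun i => ∑ j, (⌊c j⌋ : ℝ) * σ j i, ?_, ?_⟩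
  · have h2 : toR (F.x0 + ∑ j, ⌊c j⌋ • x j - F.x0) = ∑ j, (⌊c j⌋ : ℝ) • toR (x j) := by
      rw [add_sub_cancel_left]
      funext i
      simp [toR]
    rw [IsCo, h2]
    simp only [hxσ, Finset.smul_sum, smul_smul]
    rw [Finset.sum_comm]
    simp only [Finset.sum_smul]
  · have h3 : ∀ i, a i = ∑ j, c j * σ j i := by
      have h4 : ∑ i, a i • toR (F.v i) = ∑ i, (∑ j, c j * σ j i) • toR (F.v i) := by
        rw [← hc]
        simp only [hfx, hxσ, Finset.smul_sum, smul_smul]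
        rw [Finset.sum_comm]
        simp only [Finset.sum_smul]
      have h5 : ∑ i, (a i - ∑ j, c j * σ j i) • toR (F.v i) = 0 := by
        simp only [sub_smul, Finset.sum_sub_distrib]
        rw [h4, sub_self]
      have h6 := Fintype.linearIndependent_iff.1 F.li _ h5
      intro i
      linarith [h6 i]
    intro i
    rw [h3 i, ← Finset.sum_sub_distrib]
    calc |∑ j, ((⌊c j⌋ : ℝ) * σ j i - c j * σ j i)|
        ≤ ∑ j, |(⌊c j⌋ : ℝ) * σ j i - c j * σ j i| := Finset.abs_sum_le_sum_abs _ _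
      _ ≤ ∑ _j : Fin (finrank ℝ (span ℝ (F.short ρ))), ρ := by
          apply Finset.sum_le_sum
          intro j _
          rw [← sub_mul, abs_mul]
          have h7 : |(⌊c j⌋ : ℝ) - c j| ≤ 1 := by
            rw [abs_le]
            constructor
            · linarith [Int.lt_floor_add_one (c j)]
            · linarith [Int.floor_le (c j)]
          calc |(⌊c j⌋ : ℝ) - c j| * |σ j i| ≤ 1 * ρ :=
                mul_le_mul h7 (hσ j i) (abs_nonneg _) zero_le_one
            _ = ρ := one_mul _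
      _ = (finrank ℝ (span ℝ (F.short ρ)) : ℝ) * ρ := by simp
      _ ≤ d * ρ := by
          apply mul_le_mul_of_nonneg_right _ hρ
          exact_mod_cast hm

end Frame

end Pool.Agent.H.MP_f23a5d_lc
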