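import Pool.Agent.H.MP_f23a5d_lc.Level

set_option autoImplicit false

namespace Pool.Agent.H.MP_f23a5d_lc

variable {d : ℕ}

section

variable {O : (Fin d → ℤ) → ((Fin d → ℤ) → ℝ) → Option ((Fin d → ℝ) × ℝ)} {η : ℝ}
  {X : Finset (Fin d → ℤ)} {T : ℕ} {f : (Fin d → ℤ) → ℝ}

theorem rej_mem (k : ℕ) : ∀ z ∈ X, 0 ≤ rej O η X T k z f ∧ rej O η X T k z f ≤ 1 := by
  induction k with
  | zero =>
    intro z _
    rw [rej]
    rcases O z f with _ | o
    · simp [comb]
    · simp [comb]
  | succ k ih =>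
    intro z hz
    rw [rej]
    rcases O z f with _ | o
    · simp [comb]
    · simp only [comb]
      have h1 := ih z hz
      have h2 := proc_mem (η := η) (O := O) (z := z) (o := o) ih T X (Finset.Subset.refl _)
      constructor
      · have := mul_nonneg (sub_nonneg.2 h1.2) h2.1
        linarith [h1.1]
      · nlinarith [h1.1, h1.2, h2.1, h2.2]

theorem rej_none {z : Fin d → ℤ} (k : ℕ) (h : O z f = none) : rej O η X T k z f = 1 := by
  cases k <;> simp [rej, h, comb]

theorem rej_succ_ge (k : ℕ) {z : Fin d → ℤ} (hz : z ∈ X) :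
    rej O η X T k z f ≤ rej O η X T (k + 1) z f := by
  rcases h : O z f with _ | o
  · rw [rej_none k h, rej_none (k + 1) h]
  · rw [rej.eq_2, h]
    simp only [comb]
    have h1 := rej_mem (O := O) (η := η) (T := T) (f := f) k z hz
    have h2 := proc_mem (η := η) (O := O) (z := z) (o := o)
      (rej_mem (O := O) (η := η) (X := X) (T := T) (f := f) k) T X (Finset.Subset.refl _)
    have := mul_nonneg (sub_nonneg.2 h1.2) h2.1
    linarith

theorem rej_mono {k l : ℕ} (hkl : k ≤ l) {z : Fin d → ℤ} (hz : z ∈ X) :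
    rej O η X T k z f ≤ rej O η X T l z f := by
  induction hkl with
  | refl => exact le_refl _
  | step _ ih => exact ih.trans (rej_succ_ge _ hz)

theorem proc_le_rej (k : ℕ) {z : Fin d → ℤ} (hz : z ∈ X) {o : (Fin d → ℝ) × ℝ}
    (h : O z f = some o) :
    proc O η (rej O η X T k) z o T X f ≤ rej O η X T (k + 1) z f := by
  rw [rej.eq_2, h]
  simp only [comb]
  have h1 := rej_mem (O := O) (η := η) (T := T) (f := f) k z hz
  have h2 := proc_mem (η := η) (O := O) (z := z) (o := o)
    (rej_mem (O := O) (η := η) (X := X) (T := T) (f := f) k) T X (Finset.Subset.refl _)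
  nlinarith [h1.1, h1.2, h2.1, h2.2]

/-- The sets of violating centres at level `k`. -/
noncomputable def VV (O : (Fin d → ℤ) → ((Fin d → ℤ) → ℝ) → Option ((Fin d → ℝ) × ℝ)) (η : ℝ)
    (X : Finset (Fin d → ℤ)) (T : ℕ) (f : (Fin d → ℤ) → ℝ) (α : ℝ) (k : ℕ)
    (y : Fin d → ℤ) : Finset (Fin d → ℤ) :=
  Vs X (fun c => O c f) f (fun c => rej O η X T k c f) (α + 2 * η * k)
    ((1 / (4 * (T : ℝ))) ^ k) y

theorem VV_succ_subset {α : ℝ} (hη : 0 < η) (hT : 1 ≤ T) (k : ℕ) (y : Fin d → ℤ) :
    VV O η X T f α (k + 1) y ⊆ VV O η X T f α k y := by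
  intro c hc
  rw [VV, Vs, Finset.mem_filter] at hc ⊢
  obtain ⟨hcX, oc, hA, hv, hE⟩ := hc
  refine ⟨hcX, oc, hA, ?_, ?_⟩
  · push_cast at hv
    nlinarith
  · refine lt_of_le_of_lt (rej_succ_ge k hcX) (lt_of_lt_of_le hE ?_)
    have hT' : (1 : ℝ) ≤ T := by exact_mod_cast hT
    rw [pow_succ]
    have h1 : 1 / (4 * (T : ℝ)) ≤ 1 := by
      rw [div_le_one (by positivity)]; linarith
    have h2 : (0 : ℝ) ≤ (1 / (4 * (T : ℝ))) ^ k := by positivity
    calc (1 / (4 * (T : ℝ))) ^ k * (1 / (4 * (T : ℝ))) ≤ (1 / (4 * (T : ℝ))) ^ k * 1 :=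
          mul_le_mul_of_nonneg_left h1 h2
      _ = (1 / (4 * (T : ℝ))) ^ k := mul_one _

/-- The double counting at one level. -/
theorem level_sum (hX : LatConv X) {α : ℝ} (hη : 0 < η) (hα : η ≤ α) (hT : 1 ≤ T)
    (hTX : (1 - 1 / 2 ^ (d + 1)) ^ T * (X.card : ℝ) ≤ 1 / 16) (k : ℕ) :
    ∑ y ∈ X, ((VV O η X T f α (k + 1) y).card : ℝ) / (VV O η X T f α k y).card ≤
      64 * (T : ℝ) ^ 3 * ∑ z ∈ X, rej O η X T (k + 1) z f := by
  classical
  have hT' : (1 : ℝ) ≤ T := by exact_mod_cast hT
  have hT0 : (0 : ℝ) < T := by linarith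
  have hE := rej_mem (O := O) (η := η) (X := X) (T := T) (f := f) k
  have he0 : (0 : ℝ) < (1 / (4 * (T : ℝ))) ^ k := by positivity
  have he1 : (1 / (4 * (T : ℝ))) ^ k ≤ 1 := by
    apply pow_le_one₀ (by positivity)
    rw [div_le_one (by positivity)]; linarith
  -- for each z
  have hz : ∀ z ∈ X, ∑ y ∈ X, (if z ∈ VV O η X T f α (k + 1) y then
      1 / (64 * (T : ℝ) ^ 2 * (VV O η X T f α k y).card) else 0) ≤
      T * rej O η X T (k + 1) z f := by
    intro z hzX
    have hr := rej_mem (O := O) (η := η) (X := X) (T := T) (f := f) (k + 1) z hzX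
    by_cases hgood : (∃ o, O z f = some o) ∧
        rej O η X T (k + 1) z f < (1 / (4 * (T : ℝ))) ^ (k + 1)
    · obtain ⟨⟨o, ho⟩, hlt⟩ := hgood
      have hp := proc_le_rej (O := O) (η := η) (T := T) (f := f) k hzX ho
      have hpe : proc O η (rej O η X T k) z o T X f ≤ (1 / (4 * (T : ℝ))) ^ k / (4 * T) := by
        refine hp.trans (hlt.le.trans (le_of_eq ?_))
        rw [pow_succ]; ring
      have hθ : η ≤ α + 2 * η * k := by
        have : 0 ≤ 2 * η * k := by positivity
        linarith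
      have h1 := level_step hX hη hθ he0 he1 hT hTX hE z o hpe
      have h2 : ∑ y ∈ X, (if z ∈ VV O η X T f α (k + 1) y then
          1 / (64 * (T : ℝ) ^ 2 * (VV O η X T f α k y).card) else 0) ≤
          ∑ y ∈ X.filter (fun y => f y + ((α + 2 * η * k) + 2 * η) < lin z o y),
            1 / (64 * (T : ℝ) ^ 2 * (VV O η X T f α k y).card) := by
        rw [Finset.sum_filter]
        apply Finset.sum_le_sum
        intro y _
        by_cases hy : z ∈ VV O η X T f α (k + 1) y
        · have hy' := hy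
          rw [VV, Vs, Finset.mem_filter] at hy'
          obtain ⟨-, oc, hA, hv, -⟩ := hy'
          have : oc = o := by
            rw [ho] at hA
            exact (Option.some.inj hA).symm
          subst this
          have hlt' : f y + ((α + 2 * η * k) + 2 * η) < lin z oc y := by
            push_cast at hv
            linarith
          rw [if_pos hy, if_pos hlt']
        · rw [if_neg hy]
          split_ifs <;> positivity
      refine h2.trans (h1.trans ?_)
      exact mul_le_mul_of_nonneg_left hp hT0.le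
    · have h0 : ∑ y ∈ X, (if z ∈ VV O η X T f α (k + 1) y then
          1 / (64 * (T : ℝ) ^ 2 * (VV O η X T f α k y).card) else 0) = 0 := by
        apply Finset.sum_eq_zero
        intro y _
        rw [if_neg]
        intro hy
        rw [VV, Vs, Finset.mem_filter] at hy
        obtain ⟨-, oc, hA, hv, hlt⟩ := hy
        exact hgood ⟨⟨oc, hA⟩, hlt⟩
      rw [h0]
      exact mul_nonneg hT0.le hr.1
  have hsum := Finset.sum_le_sum hz
  rw [Finset.sum_comm, ← Finset.mul_sum] at hsum
  have hleft : ∑ y ∈ X, ∑ z ∈ X, (if z ∈ VV O η X T f α (k + 1) y then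
      1 / (64 * (T : ℝ) ^ 2 * (VV O η X T f α k y).card) else 0) =
      (1 / (64 * (T : ℝ) ^ 2)) *
        ∑ y ∈ X, ((VV O η X T f α (k + 1) y).card : ℝ) / (VV O η X T f α k y).card := by
    rw [Finset.mul_sum]
    apply Finset.sum_congr rfl
    intro y _
    rw [← Finset.sum_filter, Finset.sum_const, nsmul_eq_mul]
    have h1 : X.filter (fun z => z ∈ VV O η X T f α (k + 1) y) = VV O η X T f α (k + 1) y := by
      ext z
      rw [Finset.mem_filter]
      exact ⟨fun h => h.2, fun h => ⟨(Finset.mem_filter.1 h).1, h⟩⟩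
    rw [h1]
    rcases eq_or_ne ((VV O η X T f α k y).card : ℝ) 0 with h0 | h0
    · rw [h0]; simp
    · field_simp
  rw [hleft] at hsum
  have h2 : ∑ y ∈ X, ((VV O η X T f α (k + 1) y).card : ℝ) / (VV O η X T f α k y).card =
      64 * (T : ℝ) ^ 2 * ((1 / (64 * (T : ℝ) ^ 2)) *
        ∑ y ∈ X, ((VV O η X T f α (k + 1) y).card : ℝ) / (VV O η X T f α k y).card) := by
    field_simp
  rw [h2]
  calc 64 * (T : ℝ) ^ 2 * ((1 / (64 * (T : ℝ) ^ 2)) *
        ∑ y ∈ X, ((VV O η X T f α (k + 1) y).card : ℝ) / (VV O η X T f α k y).card)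
      ≤ 64 * (T : ℝ) ^ 2 * (T * ∑ z ∈ X, rej O η X T (k + 1) z f) :=
        mul_le_mul_of_nonneg_left hsum (by positivity)
    _ = 64 * (T : ℝ) ^ 3 * ∑ z ∈ X, rej O η X T (k + 1) z f := by ring

/-- A telescoping product argument. -/
theorem ratio_ge (a : ℕ → ℕ) (ha : ∀ k, a (k + 1) ≤ a k) {N K : ℕ} (hK : 1 ≤ K)
    (haN : a 0 ≤ N) (haK : 1 ≤ a K) {b : ℝ} (hb : 0 < b) (hbN : b ^ K * N ≤ 1) :
    b ≤ ∑ k ∈ Finset.range K, (a (k + 1) : ℝ) / a k := by
  by_contra hcon
  push Not at hcon
  have h1 : ∀ k < K, (a (k + 1) : ℝ) / a k < b := by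
    intro k hk
    refine lt_of_le_of_lt ?_ hcon
    exact Finset.single_le_sum (f := fun k => (a (k + 1) : ℝ) / a k)
      (fun i _ => by positivity) (Finset.mem_range.2 hk)
  have hanti : ∀ k l, k ≤ l → a l ≤ a k := by
    intro k l hkl
    induction hkl with
    | refl => exact le_refl _
    | step _ ih => exact (ha _).trans ih
  have hpos : ∀ k ≤ K, 0 < a k := fun k hk => lt_of_lt_of_le haK (hanti k K hk)
  have h2 : ∀ k ≤ K, (a k : ℝ) ≤ b ^ k * a 0 := by
    intro k
    induction k with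
    | zero => intro _; simp
    | succ k ih =>
      intro hk
      have h3 := h1 k (by omega)
      have h4 : (0 : ℝ) < a k := by exact_mod_cast hpos k (by omega)
      rw [div_lt_iff₀ h4] at h3
      calc (a (k + 1) : ℝ) ≤ b * a k := h3.le
        _ ≤ b * (b ^ k * a 0) := mul_le_mul_of_nonneg_left (ih (by omega)) hb.le
        _ = b ^ (k + 1) * a 0 := by ring
  obtain ⟨k, rfl⟩ : ∃ k, K = k + 1 := ⟨K - 1, by omega⟩
  have h3 := h1 k (by omega)
  have h4 : (0 : ℝ) < a k := by exact_mod_cast hpos k (by omega)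
  rw [div_lt_iff₀ h4] at h3
  have h5 : (a (k + 1) : ℝ) < 1 := by
    calc (a (k + 1) : ℝ) < b * a k := h3
      _ ≤ b * (b ^ k * a 0) := mul_le_mul_of_nonneg_left (h2 k (by omega)) hb.le
      _ = b ^ (k + 1) * a 0 := by ring
      _ ≤ b ^ (k + 1) * N := by
          apply mul_le_mul_of_nonneg_left _ (by positivity)
          exact_mod_cast haN
      _ ≤ 1 := hbN
  have h6 : (1 : ℝ) ≤ a (k + 1) := by exact_mod_cast haK
  linarith

/-- The set of points violated by some centre which survives all levels is small. -/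
theorem violated_le (hX : LatConv X) {α : ℝ} (hη : 0 < η) (hα : η ≤ α) (hT : 1 ≤ T)
    (hTX : (1 - 1 / 2 ^ (d + 1)) ^ T * (X.card : ℝ) ≤ 1 / 16) {K : ℕ} (hK : 1 ≤ K)
    {b : ℝ} (hb : 0 < b) (hbN : b ^ K * X.card ≤ 1) :
    ((X.filter (fun y => (VV O η X T f α K y).Nonempty)).card : ℝ) * b ≤
      64 * (T : ℝ) ^ 3 * K * ∑ z ∈ X, rej O η X T K z f := by
  have h1 : ((X.filter (fun y => (VV O η X T f α K y).Nonempty)).card : ℝ) * b ≤
      ∑ y ∈ X, ∑ k ∈ Finset.range K,
        ((VV O η X T f α (k + 1) y).card : ℝ) / (VV O η X T f α k y).card := by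
    calc ((X.filter (fun y => (VV O η X T f α K y).Nonempty)).card : ℝ) * b
        = ∑ _y ∈ X.filter (fun y => (VV O η X T f α K y).Nonempty), b := by
          rw [Finset.sum_const, nsmul_eq_mul]
      _ ≤ ∑ y ∈ X.filter (fun y => (VV O η X T f α K y).Nonempty), ∑ k ∈ Finset.range K,
        ((VV O η X T f α (k + 1) y).card : ℝ) / (VV O η X T f α k y).card := by
          apply Finset.sum_le_sum
          intro y hy
          apply ratio_ge (fun k => (VV O η X T f α k y).card)
            (fun k => Finset.card_le_card (VV_succ_subset hη hT k y)) hK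
            (N := X.card) _ _ hb hbN
          · exact Finset.card_le_card (Finset.filter_subset _ _)
          · exact Finset.card_pos.2 (Finset.mem_filter.1 hy).2
      _ ≤ ∑ y ∈ X, ∑ k ∈ Finset.range K,
        ((VV O η X T f α (k + 1) y).card : ℝ) / (VV O η X T f α k y).card := by
          apply Finset.sum_le_sum_of_subset_of_nonneg (Finset.filter_subset _ _)
          intro y _ _
          exact Finset.sum_nonneg fun k _ => by positivity
  refine h1.trans ?_
  rw [Finset.sum_comm]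
  calc ∑ k ∈ Finset.range K, ∑ y ∈ X,
        ((VV O η X T f α (k + 1) y).card : ℝ) / (VV O η X T f α k y).card
      ≤ ∑ _k ∈ Finset.range K, 64 * (T : ℝ) ^ 3 * ∑ z ∈ X, rej O η X T K z f := by
        apply Finset.sum_le_sum
        intro k hk
        refine (level_sum hX hη hα hT hTX k).trans ?_
        apply mul_le_mul_of_nonneg_left _ (by positivity)
        apply Finset.sum_le_sum
        intro z hz
        exact rej_mono (Finset.mem_range.1 hk) hz
    _ = 64 * (T : ℝ) ^ 3 * K * ∑ z ∈ X, rej O η X T K z f := by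
        rw [Finset.sum_const, Finset.card_range, nsmul_eq_mul]; ring

end

/-- The maximum of `0` and finitely many affine functions. -/
theorem exists_max_affine (G : Finset (Fin d → ℤ)) (o : (Fin d → ℤ) → (Fin d → ℝ) × ℝ)
    (β : ℝ) : ∃ g : (Fin d → ℤ) → ℝ, (∀ w, 0 ≤ g w) ∧ (∀ z ∈ G, ∀ w, lin z (o z) w - β ≤ g w) ∧
      (∀ w, g w = 0 ∨ ∃ z ∈ G, g w = lin z (o z) w - β) := by
  classical
  induction G using Finset.induction_on with
  | empty => exact ⟨fun _ => 0, by simp⟩
  | insert a G _ ih =>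
    obtain ⟨g, h1, h2, h3⟩ := ih
    refine ⟨fun w => max (g w) (lin a (o a) w - β), fun w => (h1 w).trans (le_max_left _ _),
      ?_, ?_⟩
    · intro z hz w
      rw [Finset.mem_insert] at hz
      rcases hz with rfl | hz
      · exact le_max_right _ _
      · exact (h2 z hz w).trans (le_max_left _ _)
    · intro w
      dsimp only
      rcases le_total (g w) (lin a (o a) w - β) with h | h
      · right
        exact ⟨a, Finset.mem_insert_self _ _, max_eq_right h⟩
      · rw [max_eq_left h]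
        rcases h3 w with h4 | ⟨z, hz, h4⟩
        · exact Or.inl h4
        · exact Or.inr ⟨z, Finset.mem_insert_of_mem hz, h4⟩

theorem lin_shift (z : Fin d → ℤ) (o : (Fin d → ℝ) × ℝ) (w u : Fin d → ℤ) :
    lin z o u = lin z o w + o.1 ⬝ᵥ toR (u - w) := by
  have e : toR (u - z) = toR (w - z) + toR (u - w) := by
    rw [← toR_add]; congr 1; abel
  simp only [lin, e, dotProduct_add]
  ring

/-- The main analysis: a function which is far from convex is rejected from many points. -/
theorem coarse_analysis {O : (Fin d → ℤ) → ((Fin d → ℤ) → ℝ) → Option ((Fin d → ℝ) × ℝ)}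
    {η : ℝ} {X : Finset (Fin d → ℤ)} {T : ℕ} {f : (Fin d → ℤ) → ℝ}
    (hX : LatConv X) (hη : 0 < η) (hT : 1 ≤ T)
    (hTX : (1 - 1 / 2 ^ (d + 1)) ^ T * (X.card : ℝ) ≤ 1 / 16) {K : ℕ} (hK : 1 ≤ K)
    {b : ℝ} (hb : 0 < b) (hbN : b ^ K * X.card ≤ 1) {ε : ℝ} (hε : 0 < ε)
    (hηε : η = ε / (8 * K))
    (hO : ∀ c ∈ X, ∀ oc, O c f = some oc → oc.2 = f c ∧ ∀ w ∈ X, lin c oc w ≤ 1 + η)
    (hf : ∀ x ∈ X, 0 ≤ f x ∧ f x ≤ 1)
    (hfar : ∀ g : (Fin d → ℤ) → ℝ, (∀ x ∈ X, 0 ≤ g x ∧ g x ≤ 1) → SubConv X g →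
      ε * X.card ≤ ∑ x ∈ X, |f x - g x|) :
    ε / 2 * X.card ≤ ((4 * (T : ℝ)) ^ K + 64 * (T : ℝ) ^ 3 * K / b) *
      ∑ z ∈ X, rej O η X T K z f := by
  classical
  have hT' : (1 : ℝ) ≤ T := by exact_mod_cast hT
  have hK' : (1 : ℝ) ≤ K := by exact_mod_cast hK
  set α : ℝ := ε / 4 with hα
  have h2ηK : 2 * η * K = α := by
    rw [hηε, hα]; field_simp; norm_num
  have hηα : η ≤ α := by
    rw [← h2ηK]; nlinarith
  set e : ℝ := (1 / (4 * (T : ℝ))) ^ K with he
  have he0 : 0 < e := by positivity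
  have he1 : e ≤ 1 := by
    apply pow_le_one₀ (by positivity)
    rw [div_le_one (by positivity)]; linarith
  -- the surviving centres
  set G := X.filter (fun z => (∃ o, O z f = some o) ∧ rej O η X T K z f < e) with hG
  set Y := X.filter (fun y => (VV O η X T f α K y).Nonempty) with hY
  let o : (Fin d → ℤ) → (Fin d → ℝ) × ℝ := fun z => (O z f).getD (0, 0)
  have ho : ∀ z ∈ G, O z f = some (o z) := by
    intro z hz
    obtain ⟨-, ⟨oz, hoz⟩, -⟩ := Finset.mem_filter.1 hz
    simp [o, hoz]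
  obtain ⟨g, hg0, hgG, hgc⟩ := exists_max_affine G o (2 * α)
  have hGX : ∀ z ∈ G, z ∈ X := fun z hz => (Finset.mem_filter.1 hz).1
  have hg1 : ∀ w ∈ X, g w ≤ 1 := by
    intro w hw
    rcases hgc w with h | ⟨z, hz, h⟩
    · rw [h]; norm_num
    · have := (hO z (hGX z hz) (o z) (ho z hz)).2 w hw
      rw [h]
      linarith
  have hgconv : SubConv X g := by
    intro w _
    rcases hgc w with h | ⟨z, hz, h⟩
    · refine ⟨0, fun u _ => ?_⟩
      rw [h, zero_dotProduct, add_zero]
      exact hg0 u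
    · refine ⟨(o z).1, fun u _ => ?_⟩
      rw [h]
      have h1 := hgG z hz u
      rw [lin_shift z (o z) w u] at h1
      linarith
  have hdist := hfar g (fun x hx => ⟨hg0 x, hg1 x hx⟩) hgconv
  -- bound the distance
  have hpt : ∀ y ∈ X, |f y - g y| ≤ 2 * α + (if y ∈ G then 0 else 1) +
      (if y ∈ Y then 1 else 0) := by
    intro y hy
    have hfy := hf y hy
    have hgy0 := hg0 y
    have hgy1 := hg1 y hy
    have hα0 : 0 < α := by positivity
    have habs : |f y - g y| ≤ 1 := by
      rw [abs_le]; constructor <;> linarith [hfy.1, hfy.2]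
    by_cases hyG : y ∈ G
    · by_cases hyY : y ∈ Y
      · rw [if_pos hyG, if_pos hyY]; linarith
      · rw [if_pos hyG, if_neg hyY, abs_le]
        have h1 := hgG y hyG y
        rw [lin_self, (hO y hy (o y) (ho y hyG)).1] at h1
        have h2 : g y ≤ f y := by
          rcases hgc y with h | ⟨z, hz, h⟩
          · rw [h]; exact hfy.1
          · by_contra hcon
            push Not at hcon
            apply hyY
            rw [hY, Finset.mem_filter]
            refine ⟨hy, z, ?_⟩
            rw [VV, Vs, Finset.mem_filter]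
            refine ⟨hGX z hz, o z, ho z hz, ?_, ?_⟩
            · rw [h2ηK]
              rw [h] at hcon
              linarith
            · exact (Finset.mem_filter.1 hz).2.2
        constructor <;> linarith
    · rw [if_neg hyG]
      have : (0 : ℝ) ≤ if y ∈ Y then (1 : ℝ) else 0 := by split_ifs <;> norm_num
      linarith
  have hsum := Finset.sum_le_sum hpt
  rw [Finset.sum_add_distrib, Finset.sum_add_distrib] at hsum
  have e1 : ∑ _y ∈ X, 2 * α = 2 * α * X.card := by
    rw [Finset.sum_const, nsmul_eq_mul]; ring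
  have e2 : ∑ y ∈ X, (if y ∈ G then (0 : ℝ) else 1) =
      ((X.filter (fun y => ¬ y ∈ G)).card : ℝ) := by
    rw [Finset.card_filter]
    push_cast
    apply Finset.sum_congr rfl
    intro y _
    by_cases h : y ∈ G <;> simp [h]
  have e3 : ∑ y ∈ X, (if y ∈ Y then (1 : ℝ) else 0) ≤ (Y.card : ℝ) := by
    rw [← Finset.sum_filter, Finset.sum_const, nsmul_eq_mul, mul_one]
    exact_mod_cast Finset.card_le_card (fun y hy => (Finset.mem_filter.1 hy).2)
  rw [e1, e2] at hsum
  set S := ∑ z ∈ X, rej O η X T K z f with hS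
  have hrm := rej_mem (O := O) (η := η) (X := X) (T := T) (f := f) K
  have hbad : ((X.filter (fun y => ¬ y ∈ G)).card : ℝ) * e ≤ S := by
    calc ((X.filter (fun y => ¬ y ∈ G)).card : ℝ) * e
        = ∑ _y ∈ X.filter (fun y => ¬ y ∈ G), e := by
          rw [Finset.sum_const, nsmul_eq_mul]
      _ ≤ ∑ y ∈ X.filter (fun y => ¬ y ∈ G), rej O η X T K y f := by
          apply Finset.sum_le_sum
          intro y hy
          obtain ⟨hyX, hyG⟩ := Finset.mem_filter.1 hy
          by_contra hcon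
          push Not at hcon
          apply hyG
          rw [hG, Finset.mem_filter]
          refine ⟨hyX, ?_, hcon⟩
          rcases hO' : O y f with _ | oy
          · rw [rej_none K hO'] at hcon
            linarith
          · exact ⟨oy, rfl⟩
      _ ≤ S := Finset.sum_le_sum_of_subset_of_nonneg (Finset.filter_subset _ _)
          (fun z hz _ => (hrm z hz).1)
  have hviol := violated_le (O := O) (f := f) hX hη hηα hT hTX hK hb hbN
  rw [← hY] at hviol
  have hb1 : ((X.filter (fun y => ¬ y ∈ G)).card : ℝ) ≤ (4 * (T : ℝ)) ^ K * S := by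
    have h1 : (4 * (T : ℝ)) ^ K * e = 1 := by
      rw [he, ← mul_pow]
      have : 4 * (T : ℝ) * (1 / (4 * T)) = 1 := by field_simp
      rw [this, one_pow]
    calc ((X.filter (fun y => ¬ y ∈ G)).card : ℝ)
        = (4 * (T : ℝ)) ^ K * (((X.filter (fun y => ¬ y ∈ G)).card : ℝ) * e) := by
          rw [mul_comm _ e, ← mul_assoc, h1, one_mul]
      _ ≤ (4 * (T : ℝ)) ^ K * S := mul_le_mul_of_nonneg_left hbad (by positivity)
  have hb2 : (Y.card : ℝ) ≤ 64 * (T : ℝ) ^ 3 * K / b * S := by
    rw [div_mul_eq_mul_div, le_div_iff₀ hb]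
    exact hviol
  have hfin : ε * X.card ≤ 2 * α * X.card + (4 * (T : ℝ)) ^ K * S +
      64 * (T : ℝ) ^ 3 * K / b * S := by
    linarith
  rw [hα] at hfin
  linarith

end Pool.Agent.H.MP_f23a5d_lc
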