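import Pool.Agent.H.MP_f23a5d_lc.Comp

set_option autoImplicit false

namespace Pool.Agent.H.MP_f23a5d_lc

/-- The real point of an integer point. -/
def toR {d : ℕ} (x : Fin d → ℤ) : Fin d → ℝ := fun i => (x i : ℝ)

/-- `R` is the set of integer points of a convex set. -/
def LatConv {d : ℕ} (R : Finset (Fin d → ℤ)) : Prop :=
  ∃ K : Set (Fin d → ℝ), Convex ℝ K ∧ ∀ x, x ∈ R ↔ toR x ∈ K

variable {d : ℕ}

theorem toR_add (x y : Fin d → ℤ) : toR (x + y) = toR x + toR y := by
  funext i; simp [toR]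

theorem toR_sub (x y : Fin d → ℤ) : toR (x - y) = toR x - toR y := by
  funext i; simp [toR]

theorem toR_zsmul (m : ℤ) (x : Fin d → ℤ) : toR (m • x) = (m : ℝ) • toR x := by
  funext i; simp [toR]

theorem toR_injective : Function.Injective (toR (d := d)) := by
  intro x y h
  funext i
  have := congrFun h i
  simpa [toR] using this

theorem LatConv.midpoint {R : Finset (Fin d → ℤ)} (hR : LatConv R) {x y c : Fin d → ℤ}
    (hx : x ∈ R) (hy : y ∈ R) (h : x + y = (2 : ℤ) • c) : c ∈ R := by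
  obtain ⟨K, hK, hRK⟩ := hR
  rw [hRK] at hx hy ⊢
  have h1 : toR c = (1 / 2 : ℝ) • toR x + (1 / 2 : ℝ) • toR y := by
    have h2 := congrArg toR h
    rw [toR_add, toR_zsmul] at h2
    rw [← smul_add, h2, smul_smul]
    norm_num
  rw [h1]
  exact hK hx hy (by norm_num) (by norm_num) (by norm_num)

theorem LatConv.filter {R : Finset (Fin d → ℤ)} (hR : LatConv R) (S : Set (Fin d → ℝ))
    (hS : Convex ℝ S) (p : (Fin d → ℤ) → Prop) [DecidablePred p]
    (hp : ∀ x ∈ R, p x ↔ toR x ∈ S) : LatConv (R.filter p) := by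
  obtain ⟨K, hK, hRK⟩ := hR
  refine ⟨K ∩ S, hK.inter hS, fun x => ?_⟩
  rw [Finset.mem_filter, Set.mem_inter_iff]
  constructor
  · rintro ⟨h1, h2⟩
    exact ⟨(hRK x).1 h1, (hp x h1).1 h2⟩
  · rintro ⟨h1, h2⟩
    have := (hRK x).2 h1
    exact ⟨this, (hp x this).2 h2⟩

/-- The part of `R` which is symmetric about `c`. -/
def symPart (R : Finset (Fin d → ℤ)) (c : Fin d → ℤ) : Finset (Fin d → ℤ) :=
  R.filter (fun x => (2 : ℤ) • c - x ∈ R)

/-- The parity vector. -/
def par (x : Fin d → ℤ) : Fin d → ZMod 2 := fun i => ((x i : ℤ) : ZMod 2)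

theorem exists_mid {x y : Fin d → ℤ} (h : par x = par y) : ∃ c, x + y = (2 : ℤ) • c := by
  have h1 : ∀ i, ∃ a : ℤ, x i + y i = 2 * a := by
    intro i
    have h2 := congrFun h i
    simp only [par] at h2
    have h3 : (2 : ℤ) ∣ x i - y i := by
      rw [← Int.cast_two] at *
      have := (ZMod.intCast_eq_intCast_iff_dvd_sub (y i) (x i) 2).1 h2.symm
      simpa using this
    obtain ⟨a, ha⟩ := h3
    exact ⟨a + y i, by linarith⟩
  choose c hc using h1
  exact ⟨c, by funext i; simpa using hc i⟩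

theorem sum_symPart {R : Finset (Fin d → ℤ)} (hR : LatConv R) :
    R.card ^ 2 ≤ 2 ^ d * ∑ c ∈ R, (symPart R c).card := by
  classical
  -- the number of pairs of equal parity
  let P : Finset ((Fin d → ℤ) × (Fin d → ℤ)) :=
    (R ×ˢ R).filter (fun q => par q.1 = par q.2)
  have h1 : P.card ≤ ∑ c ∈ R, (symPart R c).card := by
    have h2 : ∀ q : (Fin d → ℤ) × (Fin d → ℤ), q ∈ P → ∃ c, q.1 + q.2 = (2 : ℤ) • c := by
      intro q hq
      exact exists_mid (Finset.mem_filter.1 hq).2
    let mid : (Fin d → ℤ) × (Fin d → ℤ) → (Fin d → ℤ) := fun q =>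
      if h : ∃ c, q.1 + q.2 = (2 : ℤ) • c then h.choose else 0
    have hmid : ∀ q ∈ P, q.1 + q.2 = (2 : ℤ) • mid q := by
      intro q hq
      have h3 := h2 q hq
      simp only [mid, h3, dif_pos]
      exact h3.choose_spec
    rw [← Finset.card_sigma]
    apply Finset.card_le_card_of_injOn (fun q => (⟨mid q, q.1⟩ : Σ _ : (Fin d → ℤ), (Fin d → ℤ)))
    · intro q hq
      have hq' := Finset.mem_coe.1 hq
      have h3 := hmid q hq'
      have h4 := (Finset.mem_filter.1 hq').1
      rw [Finset.mem_product] at h4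
      simp only [Finset.coe_sigma, Set.mem_sigma_iff, Finset.mem_coe, symPart,
        Finset.mem_filter]
      refine ⟨hR.midpoint h4.1 h4.2 h3, h4.1, ?_⟩
      rw [← h3]
      simpa using h4.2
    · intro q hq q' hq' h
      simp only [Sigma.mk.injEq, heq_eq_eq] at h
      have h3 := hmid q (Finset.mem_coe.1 hq)
      have h4 := hmid q' (Finset.mem_coe.1 hq')
      rw [h.1, ← h4, h.2] at h3
      exact Prod.ext h.2 (by simpa using h3)
  have h5 : R.card ^ 2 ≤ 2 ^ d * P.card := by
    have h6 : P.card = ∑ σ : Fin d → ZMod 2, (R.filter (fun x => par x = σ)).card ^ 2 := by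
      have h7 : P.card = ∑ σ : Fin d → ZMod 2, (P.filter (fun q => par q.1 = σ)).card :=
        Finset.card_eq_sum_card_fiberwise (fun q _ => Finset.mem_univ _)
      rw [h7]
      apply Finset.sum_congr rfl
      intro σ _
      rw [sq, ← Finset.card_product]
      congr 1
      ext q
      simp only [P, Finset.mem_filter, Finset.mem_product]
      constructor
      · rintro ⟨⟨⟨h1, h2⟩, h3⟩, h4⟩
        exact ⟨⟨h1, h4⟩, h2, by rw [← h3, h4]⟩
      · rintro ⟨⟨h1, h4⟩, h2, h3⟩
        exact ⟨⟨⟨h1, h2⟩, by rw [h4, h3]⟩, h4⟩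
    have h8 : R.card = ∑ σ : Fin d → ZMod 2, (R.filter (fun x => par x = σ)).card :=
      Finset.card_eq_sum_card_fiberwise (fun q _ => Finset.mem_univ _)
    rw [h6, h8]
    have h9 := sq_sum_le_card_mul_sum_sq (s := (Finset.univ : Finset (Fin d → ZMod 2)))
      (f := fun σ => (R.filter (fun x => par x = σ)).card)
    have h10 : (Finset.univ : Finset (Fin d → ZMod 2)).card = 2 ^ d := by
      rw [Finset.card_univ, Fintype.card_fun, ZMod.card, Fintype.card_fin]
    rw [h10] at h9
    exact h9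
  exact h5.trans (Nat.mul_le_mul_left _ h1)

theorem exists_deep {R : Finset (Fin d → ℤ)} (hR : LatConv R) (hne : R.Nonempty) :
    ∃ c ∈ R, R.card ≤ 2 ^ d * (symPart R c).card := by
  by_contra hcon
  push Not at hcon
  have h1 := sum_symPart hR
  have h2 : ∑ c ∈ R, 2 ^ d * (symPart R c).card < ∑ _c ∈ R, R.card :=
    Finset.sum_lt_sum_of_nonempty hne (fun c hc => hcon c hc)
  rw [← Finset.mul_sum] at h2
  simp only [Finset.sum_const, smul_eq_mul] at h2
  rw [sq] at h1
  exact absurd h1 (not_le.2 h2)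

/-- A half space which contains the centre `c` contains at least half of the symmetric part. -/
theorem half_card (R : Finset (Fin d → ℤ)) (c : Fin d → ℤ) (L : (Fin d → ℤ) → ℝ)
    (hL : ∀ x, L x + L ((2 : ℤ) • c - x) = 2 * L c) (hc : 0 < L c)
    (R' : Finset (Fin d → ℤ)) (hR' : R' ⊆ R) (hR'' : ∀ x ∈ R', L x ≤ 0) :
    2 * R'.card + (symPart R c).card ≤ 2 * R.card := by
  classical
  let A := (symPart R c).filter (fun x => L x ≤ 0)
  let B := (symPart R c).filter (fun x => ¬ L x ≤ 0)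
  have h1 : A.card + B.card = (symPart R c).card :=
    Finset.card_filter_add_card_filter_not _
  have h2 : A.card ≤ B.card := by
    apply Finset.card_le_card_of_injOn (fun x => (2 : ℤ) • c - x)
    · intro x hx
      have hx' := Finset.mem_coe.1 hx
      simp only [A, symPart, Finset.mem_filter] at hx'
      simp only [B, symPart, Finset.coe_filter, Finset.mem_filter, Set.mem_ofPred_eq]
      refine ⟨⟨hx'.1.2, ?_⟩, ?_⟩
      · simpa using hx'.1.1
      · have := hL x
        intro h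
        linarith [hx'.2]
    · intro x _ y _ h
      have h' : (2 : ℤ) • c - x = (2 : ℤ) • c - y := h
      exact sub_right_injective h'
  have h3 : Disjoint B R' := by
    rw [Finset.disjoint_left]
    intro x hx hx'
    simp only [B, Finset.mem_filter] at hx
    exact hx.2 (hR'' x hx')
  have h4 : B.card + R'.card ≤ R.card := by
    rw [← Finset.card_union_of_disjoint h3]
    apply Finset.card_le_card
    intro x hx
    rw [Finset.mem_union] at hx
    rcases hx with hx | hx
    · simp only [B, symPart, Finset.mem_filter] at hx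
      exact hx.1.1
    · exact hR' hx
  omega

/-- Random centre: the expected size of what remains. -/
theorem sum_remaining {R : Finset (Fin d → ℤ)} (hR : LatConv R)
    (r : (Fin d → ℤ) → ℝ)
    (hr : ∀ c ∈ R, 2 * r c + ((symPart R c).card : ℝ) ≤ 2 * (R.card : ℝ)) :
    ∑ c ∈ R, r c ≤ (1 - 1 / 2 ^ (d + 1)) * (R.card : ℝ) ^ 2 := by
  have h1 : ((R.card : ℝ)) ^ 2 ≤ 2 ^ d * ∑ c ∈ R, ((symPart R c).card : ℝ) := by
    exact_mod_cast sum_symPart hR
  have h2 : ∑ c ∈ R, (2 * r c + ((symPart R c).card : ℝ)) ≤ ∑ _c ∈ R, 2 * (R.card : ℝ) :=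
    Finset.sum_le_sum hr
  rw [Finset.sum_add_distrib, ← Finset.mul_sum] at h2
  simp only [Finset.sum_const, nsmul_eq_mul] at h2
  have h3 : (0 : ℝ) < 2 ^ d := by positivity
  have h4 : ((R.card : ℝ)) ^ 2 / 2 ^ d ≤ ∑ c ∈ R, ((symPart R c).card : ℝ) := by
    rw [div_le_iff₀ h3]
    linarith
  have h5 : (1 - 1 / 2 ^ (d + 1)) * (R.card : ℝ) ^ 2 =
      (R.card : ℝ) ^ 2 - ((R.card : ℝ)) ^ 2 / 2 ^ d / 2 := by
    rw [pow_succ]
    field_simp
  rw [h5]
  nlinarith

end Pool.Agent.H.MP_f23a5d_lc
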