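import Pool.Agent.H.MP_f23a5d_lc.Analysis

set_option autoImplicit false

namespace Pool.Agent.H.MP_f23a5d_lc

variable {d : ℕ}

/-- The region update, when the answers of the oracle are fixed. -/
noncomputable def nx (η : ℝ) (A : (Fin d → ℤ) → Option ((Fin d → ℝ) × ℝ)) (z : Fin d → ℤ)
    (o : (Fin d → ℝ) × ℝ) (R : Finset (Fin d → ℤ)) (c : Fin d → ℤ) : Finset (Fin d → ℤ) :=
  match A c with
  | none => ∅
  | some oc => if oc.2 + η < lin z o c then ∅ else upd η z o c oc R

/-- The probability of rejection in one step. -/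
noncomputable def tt (η : ℝ) (A : (Fin d → ℤ) → Option ((Fin d → ℝ) × ℝ))
    (E f : (Fin d → ℤ) → ℝ) (z : Fin d → ℤ) (o : (Fin d → ℝ) × ℝ) (c y : Fin d → ℤ) : ℝ :=
  match A c with
  | none => 1
  | some oc => if oc.2 + η < lin z o c then 1 else if f y + η < lin c oc y then 1 else E c

/-- The centre `c` leads to immediate rejection. -/
def Flag (η : ℝ) (A : (Fin d → ℤ) → Option ((Fin d → ℝ) × ℝ)) (z : Fin d → ℤ)
    (o : (Fin d → ℝ) × ℝ) (c : Fin d → ℤ) : Prop :=
  ∀ oc, A c = some oc → oc.2 + η < lin z o c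

section

variable {η : ℝ} {A : (Fin d → ℤ) → Option ((Fin d → ℝ) × ℝ)} {z : Fin d → ℤ}
  {o : (Fin d → ℝ) × ℝ} {E f : (Fin d → ℤ) → ℝ} {X : Finset (Fin d → ℤ)}

theorem nx_subset (R : Finset (Fin d → ℤ)) (c : Fin d → ℤ) : nx η A z o R c ⊆ R := by
  rw [nx]
  split
  · exact Finset.empty_subset _
  · split_ifs
    · exact Finset.empty_subset _
    · exact upd_subset _ _ _ _ _ _

theorem latConv_nx {R : Finset (Fin d → ℤ)} (hR : LatConv R) (c : Fin d → ℤ) :
    LatConv (nx η A z o R c) := by
  rw [nx]
  split
  · exact latConv_empty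
  · split_ifs
    · exact latConv_empty
    · exact latConv_upd hR

theorem tt_mem (hE : ∀ c ∈ X, 0 ≤ E c ∧ E c ≤ 1) {c : Fin d → ℤ} (hc : c ∈ X) (y : Fin d → ℤ) :
    0 ≤ tt η A E f z o c y ∧ tt η A E f z o c y ≤ 1 := by
  rw [tt]
  split
  · exact ⟨zero_le_one, le_refl _⟩
  · split_ifs
    · exact ⟨zero_le_one, le_refl _⟩
    · exact ⟨zero_le_one, le_refl _⟩
    · exact hE c hc

theorem tt_flag {c : Fin d → ℤ} (hc : Flag η A z o c) (y : Fin d → ℤ) :
    tt η A E f z o c y = 1 := by
  rw [tt]
  split
  · rfl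
  · rename_i oc h
    rw [if_pos (hc oc h)]

theorem tt_ge (hE : ∀ c ∈ X, 0 ≤ E c ∧ E c ≤ 1) {c : Fin d → ℤ} (hc : c ∈ X)
    (y : Fin d → ℤ) : E c ≤ tt η A E f z o c y := by
  rw [tt]
  split
  · exact (hE c hc).2
  · split_ifs
    · exact (hE c hc).2
    · exact (hE c hc).2
    · exact le_refl _

theorem tt_viol {c y : Fin d → ℤ} {oc : (Fin d → ℝ) × ℝ} (hA : A c = some oc)
    (h : f y + η < lin c oc y) : tt η A E f z o c y = 1 := by
  rw [tt, hA]
  simp only
  split_ifs <;> rfl

theorem proc_succ {O : (Fin d → ℤ) → ((Fin d → ℤ) → ℝ) → Option ((Fin d → ℝ) × ℝ)}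
    {ek : (Fin d → ℤ) → ((Fin d → ℤ) → ℝ) → ℝ} (m : ℕ) (R : Finset (Fin d → ℤ)) :
    proc O η ek z o (m + 1) R f =
      (∑ c ∈ R, (∑ y ∈ R, (tt η (fun c => O c f) (fun c => ek c f) f z o c y +
        (1 - tt η (fun c => O c f) (fun c => ek c f) f z o c y) *
          proc O η ek z o m (nx η (fun c => O c f) z o R c) f)) / (R.card : ℝ)) /
            (R.card : ℝ) := by
  rw [proc]
  congr 1
  apply Finset.sum_congr rfl
  intro c _
  congr 1
  apply Finset.sum_congr rfl
  intro y _
  rw [tt, nx]
  rcases hO : O c f with _ | oc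
  · simp [inner]
  · simp only [inner]
    split_ifs
    · simp
    · simp
    · rfl

theorem proc_mem {O : (Fin d → ℤ) → ((Fin d → ℤ) → ℝ) → Option ((Fin d → ℝ) × ℝ)}
    {ek : (Fin d → ℤ) → ((Fin d → ℤ) → ℝ) → ℝ}
    (hE : ∀ c ∈ X, 0 ≤ ek c f ∧ ek c f ≤ 1) (m : ℕ) : ∀ R ⊆ X,
    0 ≤ proc O η ek z o m R f ∧ proc O η ek z o m R f ≤ 1 := by
  induction m with
  | zero => intro R _; simp [proc]
  | succ m ih =>
    intro R hR
    rw [proc_succ]
    by_cases hne : R.Nonempty
    · have hcard : (0 : ℝ) < R.card := by exact_mod_cast hne.card_pos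
      have h1 : ∀ c ∈ R, ∀ y ∈ R,
          0 ≤ (tt η (fun c => O c f) (fun c => ek c f) f z o c y +
          (1 - tt η (fun c => O c f) (fun c => ek c f) f z o c y) *
          proc O η ek z o m (nx η (fun c => O c f) z o R c) f) ∧
          (tt η (fun c => O c f) (fun c => ek c f) f z o c y +
          (1 - tt η (fun c => O c f) (fun c => ek c f) f z o c y) *
          proc O η ek z o m (nx η (fun c => O c f) z o R c) f) ≤ 1 := by
        intro c hc y _
        have e1 := tt_mem (η := η) (A := fun c => O c f) (E := fun c => ek c f) (f := f) (z := z)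
          (o := o) hE (hR hc) y
        have e2 := ih _ ((nx_subset (η := η) (A := fun c => O c f) (z := z) (o := o) R c).trans hR)
        constructor
        · have := mul_nonneg (sub_nonneg.2 e1.2) e2.1
          linarith [e1.1]
        · nlinarith [e1.1, e1.2, e2.1, e2.2]
      have h2 : ∀ c ∈ R, 0 ≤ (∑ y ∈ R, (tt η (fun c => O c f) (fun c => ek c f) f z o c y +
          (1 - tt η (fun c => O c f) (fun c => ek c f) f z o c y) *
          proc O η ek z o m (nx η (fun c => O c f) z o R c) f)) / (R.card : ℝ) ∧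
          (∑ y ∈ R, (tt η (fun c => O c f) (fun c => ek c f) f z o c y +
          (1 - tt η (fun c => O c f) (fun c => ek c f) f z o c y) *
          proc O η ek z o m (nx η (fun c => O c f) z o R c) f)) / (R.card : ℝ) ≤ 1 := by
        intro c hc
        constructor
        · exact div_nonneg (Finset.sum_nonneg fun y hy => (h1 c hc y hy).1) hcard.le
        · rw [div_le_one hcard]
          refine (Finset.sum_le_sum fun y hy => (h1 c hc y hy).2).trans ?_
          simp
      constructor
      · exact div_nonneg (Finset.sum_nonneg fun c hc => (h2 c hc).1) hcard.le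
      · rw [div_le_one hcard]
        refine (Finset.sum_le_sum fun c hc => (h2 c hc).2).trans ?_
        simp
    · rw [Finset.not_nonempty_iff_eq_empty] at hne
      subst hne
      simp

/-- The expected number of rejections is at most the number of steps times the rejection
probability. -/
theorem rewards_le {O : (Fin d → ℤ) → ((Fin d → ℤ) → ℝ) → Option ((Fin d → ℝ) × ℝ)}
    {ek : (Fin d → ℤ) → ((Fin d → ℤ) → ℝ) → ℝ}
    (hE : ∀ c ∈ X, 0 ≤ ek c f ∧ ek c f ≤ 1) (m : ℕ) : ∀ R ⊆ X,
    val (nx η (fun c => O c f) z o)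
      (fun R c => (∑ y ∈ R, tt η (fun c => O c f) (fun c => ek c f) f z o c y) / (R.card : ℝ))
      (fun _ => 0) m R ≤ m * proc O η ek z o m R f := by
  induction m with
  | zero => intro R _; simp [val]
  | succ m ih =>
    intro R hR
    rw [proc_succ]
    simp only [val]
    by_cases hne : R.Nonempty
    · have hcard : (0 : ℝ) < R.card := by exact_mod_cast hne.card_pos
      rw [← mul_div_assoc]
      apply div_le_div_of_nonneg_right _ hcard.le
      rw [Finset.mul_sum]
      apply Finset.sum_le_sum
      intro c hc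
      have hsub := (nx_subset (η := η) (A := fun c => O c f) (z := z) (o := o) R c).trans hR
      have h1 := ih _ hsub
      have h2 := proc_mem (η := η) (O := O) (z := z) (o := o) hE m _ hsub
      set P := proc O η ek z o m (nx η (fun c => O c f) z o R c) f with hP
      calc (∑ y ∈ R, tt η (fun c => O c f) (fun c => ek c f) f z o c y) / (R.card : ℝ) +
            val (nx η (fun c => O c f) z o) _ (fun _ => 0) m (nx η (fun c => O c f) z o R c)
          ≤ (∑ y ∈ R, tt η (fun c => O c f) (fun c => ek c f) f z o c y) / (R.card : ℝ) +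
            m * P := by linarith
        _ = (∑ y ∈ R, (tt η (fun c => O c f) (fun c => ek c f) f z o c y + m * P)) /
              (R.card : ℝ) := by
            rw [Finset.sum_add_distrib]
            simp only [Finset.sum_const, nsmul_eq_mul]
            field_simp
        _ ≤ (∑ y ∈ R, ((m + 1 : ℕ) : ℝ) *
              (tt η (fun c => O c f) (fun c => ek c f) f z o c y +
              (1 - tt η (fun c => O c f) (fun c => ek c f) f z o c y) * P)) / (R.card : ℝ) := by
            apply div_le_div_of_nonneg_right _ hcard.le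
            apply Finset.sum_le_sum
            intro y _
            have e1 := tt_mem (η := η) (A := fun c => O c f) (E := fun c => ek c f) (f := f)
              (z := z) (o := o) hE (hR hc) y
            set t := tt η (fun c => O c f) (fun c => ek c f) f z o c y with ht
            push_cast
            have e2 : ((m : ℝ) + 1) * (t + (1 - t) * P) - (t + m * P) =
                m * t * (1 - P) + P * (1 - t) := by ring
            have e3 : 0 ≤ (m : ℝ) * t * (1 - P) :=
              mul_nonneg (mul_nonneg (Nat.cast_nonneg _) e1.1) (by linarith [h2.2])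
            have e4 : 0 ≤ P * (1 - t) := mul_nonneg h2.1 (by linarith [e1.2])
            linarith
        _ = ((m + 1 : ℕ) : ℝ) *
              ((∑ y ∈ R, (tt η (fun c => O c f) (fun c => ek c f) f z o c y +
              (1 - tt η (fun c => O c f) (fun c => ek c f) f z o c y) * P)) / (R.card : ℝ)) := by
            rw [← Finset.mul_sum, mul_div_assoc]
    · rw [Finset.not_nonempty_iff_eq_empty] at hne
      subst hne
      simp

/-- The expected size of the region after `m` steps. -/
theorem size_le (hη : 0 < η) (m : ℕ) : ∀ R : Finset (Fin d → ℤ), LatConv R →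
    val (nx η A z o) (fun _ _ => 0) (fun R => (R.card : ℝ)) m R ≤
      (1 - 1 / 2 ^ (d + 1)) ^ m * R.card := by
  have hpow : (1 : ℝ) ≤ 2 ^ (d + 1) := one_le_pow₀ (by norm_num)
  have hc0 : (0 : ℝ) ≤ 1 - 1 / 2 ^ (d + 1) := by
    have : 1 / (2 : ℝ) ^ (d + 1) ≤ 1 := by
      rw [div_le_one (by positivity)]; exact hpow
    linarith
  induction m with
  | zero => intro R _; simp [val]
  | succ m ih =>
    intro R hR
    simp only [val, zero_add]
    by_cases hne : R.Nonempty
    · have hcard : (0 : ℝ) < R.card := by exact_mod_cast hne.card_pos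
      rw [div_le_iff₀ hcard]
      calc ∑ c ∈ R, val (nx η A z o) (fun _ _ => 0) (fun R => (R.card : ℝ)) m (nx η A z o R c)
          ≤ ∑ c ∈ R, (1 - 1 / 2 ^ (d + 1)) ^ m * ((nx η A z o R c).card : ℝ) :=
            Finset.sum_le_sum fun c _ => ih _ (latConv_nx hR c)
        _ = (1 - 1 / 2 ^ (d + 1)) ^ m * ∑ c ∈ R, ((nx η A z o R c).card : ℝ) := by
            rw [Finset.mul_sum]
        _ ≤ (1 - 1 / 2 ^ (d + 1)) ^ m * ((1 - 1 / 2 ^ (d + 1)) * (R.card : ℝ) ^ 2) := by
            apply mul_le_mul_of_nonneg_left _ (pow_nonneg hc0 m)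
            apply sum_remaining hR
            intro c hc
            have hsym : (symPart R c).card ≤ R.card :=
              Finset.card_le_card (Finset.filter_subset _ _)
            rw [nx]
            rcases hA : A c with _ | oc
            · simp only [Finset.card_empty, Nat.cast_zero, mul_zero, zero_add]
              have : ((symPart R c).card : ℝ) ≤ R.card := by exact_mod_cast hsym
              linarith
            · simp only
              split_ifs with h
              · simp only [Finset.card_empty, Nat.cast_zero, mul_zero, zero_add]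
                have : ((symPart R c).card : ℝ) ≤ R.card := by exact_mod_cast hsym
                linarith
              · have h1 := half_card R c (fun w => lin c oc w - lin z o w + 2 * η) (by
                  intro x
                  have e1 := lin_mid c oc c x
                  have e2 := lin_mid z o c x
                  linarith) (by
                  rw [lin_self]
                  linarith) (upd η z o c oc R) (upd_subset _ _ _ _ _ _) (by
                  intro x hx
                  have := (Finset.mem_filter.1 hx).2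
                  linarith)
                exact_mod_cast h1
        _ = (1 - 1 / 2 ^ (d + 1)) ^ (m + 1) * R.card * R.card := by ring
    · rw [Finset.not_nonempty_iff_eq_empty] at hne
      subst hne
      simp

end

open Classical in
/-- The centres whose affine function violates the value at `y` by more than `θ` and whose test
rejects with probability less than `e`. -/
noncomputable def Vs (X : Finset (Fin d → ℤ)) (A : (Fin d → ℤ) → Option ((Fin d → ℝ) × ℝ))
    (f E : (Fin d → ℤ) → ℝ) (θ e : ℝ) (y : Fin d → ℤ) : Finset (Fin d → ℤ) :=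
  X.filter (fun c => ∃ oc, A c = some oc ∧ f y + θ < lin c oc y ∧ E c < e)

open Classical in
/-- One level of the analysis, for a fixed point `z`. -/
theorem level_step {O : (Fin d → ℤ) → ((Fin d → ℤ) → ℝ) → Option ((Fin d → ℝ) × ℝ)}
    {ek : (Fin d → ℤ) → ((Fin d → ℤ) → ℝ) → ℝ} {f : (Fin d → ℤ) → ℝ}
    {X : Finset (Fin d → ℤ)} (hX : LatConv X) {η θ e : ℝ} (hη : 0 < η) (hθ : η ≤ θ)
    (he0 : 0 < e) (he1 : e ≤ 1) {T : ℕ} (hT : 1 ≤ T)
    (hTX : (1 - 1 / 2 ^ (d + 1)) ^ T * (X.card : ℝ) ≤ 1 / 16)
    (hE : ∀ c ∈ X, 0 ≤ ek c f ∧ ek c f ≤ 1) (z : Fin d → ℤ) (o : (Fin d → ℝ) × ℝ)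
    (hp : proc O η ek z o T X f ≤ e / (4 * T)) :
    ∑ y ∈ X.filter (fun y => f y + (θ + 2 * η) < lin z o y),
      1 / (64 * (T : ℝ) ^ 2 * (Vs X (fun c => O c f) f (fun c => ek c f) θ e y).card) ≤
      T * proc O η ek z o T X f := by
  set A := fun c => O c f with hA
  set E := fun c => ek c f with hEdef
  have hT' : (0 : ℝ) < T := by exact_mod_cast hT
  set nxt := nx η A z o with hnxt
  have hn : ∀ R c, nxt R c ⊆ R := fun R c => nx_subset R c
  -- the rewards
  set S := val nxt (fun R c => (∑ y ∈ R, tt η A E f z o c y) / (R.card : ℝ)) (fun _ => 0) T X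
    with hS
  have hS1 : S ≤ T * proc O η ek z o T X f :=
    rewards_le (η := η) (O := O) (z := z) (o := o) hE T X (Finset.Subset.refl _)
  have hS2 : S ≤ e / 4 := by
    refine hS1.trans ?_
    calc (T : ℝ) * proc O η ek z o T X f ≤ T * (e / (4 * T)) :=
          mul_le_mul_of_nonneg_left hp hT'.le
      _ = e / 4 := by field_simp
  -- bad centres
  obtain ⟨bad, hbad⟩ : ∃ b : (Fin d → ℤ) → Prop, ∀ c, b c ↔ (Flag η A z o c ∨ e ≤ E c) :=
    ⟨_, fun _ => Iff.rfl⟩
  set M := val nxt (fun _ c => if bad c then 1 else 0) (fun _ => 0) T X with hM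
  have hM1 : e * M ≤ S := by
    rw [hM, val_smul]
    apply val_mono (X := X) hn _ (fun _ _ => le_refl _) T X (Finset.Subset.refl _)
    intro R hR c hc
    have hcard : (0 : ℝ) < R.card := by exact_mod_cast Finset.card_pos.2 ⟨c, hc⟩
    have h1 : ∀ y ∈ R, e * (if bad c then 1 else 0) ≤ tt η A E f z o c y := by
      intro y _
      split_ifs with hb
      · rcases (hbad c).1 hb with hb | hb
        · rw [tt_flag hb]; linarith
        · have := tt_ge (η := η) (A := A) (f := f) (z := z) (o := o) hE (hR hc) y
          simp only [mul_one]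
          exact hb.trans this
      · rw [mul_zero]
        exact (tt_mem (η := η) (A := A) (f := f) (z := z) (o := o) hE (hR hc) y).1
    rw [le_div_iff₀ hcard]
    calc e * (if bad c then 1 else 0) * (R.card : ℝ)
        = ∑ _y ∈ R, e * (if bad c then 1 else 0) := by
          rw [Finset.sum_const, nsmul_eq_mul]; ring
      _ ≤ ∑ y ∈ R, tt η A E f z o c y := Finset.sum_le_sum h1
  have hM2 : M ≤ 1 / 4 := by
    have : e * M ≤ e * (1 / 4) := by linarith
    exact le_of_mul_le_mul_left this he0
  -- size
  have hB := size_le (A := A) (z := z) (o := o) hη T X hX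
  -- the rewards of the targets
  set W : (Fin d → ℤ) → ℝ := fun y => val nxt (fun R c => if y ∈ R ∧
    c ∈ Vs X A f E θ e y then 1 / (R.card : ℝ) else 0) (fun _ => 0) T X with hW
  have hWnn : ∀ y, 0 ≤ W y := by
    intro y
    apply val_nonneg (X := X) hn _ (fun _ _ => le_refl _) T X (Finset.Subset.refl _)
    intro R _ c _
    split_ifs <;> positivity
  have hWS : ∑ y ∈ X, W y ≤ S := by
    rw [hW, val_sum]
    apply val_mono (X := X) hn _ (fun _ _ => le_refl _) T X (Finset.Subset.refl _)
    intro R hR c hc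
    have hcard : (0 : ℝ) < R.card := by exact_mod_cast Finset.card_pos.2 ⟨c, hc⟩
    rw [Finset.sum_div]
    have h1 : ∑ y ∈ X, (if y ∈ R ∧ c ∈ Vs X A f E θ e y then 1 / (R.card : ℝ) else 0) =
        ∑ y ∈ R, (if c ∈ Vs X A f E θ e y then 1 / (R.card : ℝ) else 0) := by
      have h2 : ∀ y, (if y ∈ R ∧ c ∈ Vs X A f E θ e y then 1 / (R.card : ℝ) else 0) =
          if y ∈ R then (if c ∈ Vs X A f E θ e y then 1 / (R.card : ℝ) else 0) else 0 := by
        intro y
        by_cases h : y ∈ R <;> simp [h]
      simp only [h2]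
      rw [← Finset.sum_filter]
      congr 1
      ext y
      rw [Finset.mem_filter]
      exact ⟨fun h => h.2, fun h => ⟨hR h, h⟩⟩
    rw [h1]
    apply Finset.sum_le_sum
    intro y _
    split_ifs with hcV
    · rw [Vs, Finset.mem_filter] at hcV
      obtain ⟨-, oc, hAc, hviol, -⟩ := hcV
      rw [tt_viol hAc (by linarith)]
    · apply div_nonneg _ hcard.le
      exact (tt_mem (η := η) (A := A) (f := f) (z := z) (o := o) hE (hR hc) y).1
  have hWy : ∀ y ∈ X.filter (fun y => f y + (θ + 2 * η) < lin z o y),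
      1 / (64 * (T : ℝ) ^ 2 * (Vs X A f E θ e y).card) ≤ W y := by
    intro y hy
    rw [Finset.mem_filter] at hy
    obtain ⟨hyX, hyz⟩ := hy
    have h1 := follow (X := X) hn bad (Vs X A f E θ e y) y (by
      intro R hR c hc hyR hcb hcV
      simp only [hbad, not_or, Flag, not_forall, not_lt, not_le] at hcb
      obtain ⟨⟨oc, hAc, hflag⟩, hEc⟩ := hcb
      have h2 : lin c oc y ≤ f y + θ := by
        by_contra hcon
        push Not at hcon
        exact hcV (Finset.mem_filter.2 ⟨hR hc, oc, hAc, hcon, hEc⟩)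
      rw [hnxt, nx, hAc]
      simp only
      rw [if_neg (not_lt.2 hflag)]
      rw [upd, Finset.mem_filter]
      exact ⟨hyR, by linarith⟩) hT' (a := ((Vs X A f E θ e y).card : ℝ)) (by
      intro R _
      exact_mod_cast Finset.card_le_card Finset.inter_subset_right) (Nat.cast_nonneg _) T X
      (Finset.Subset.refl _) hyX
    have h3 : (T : ℝ) / (4 * T) = 1 / 4 := by field_simp
    rw [h3] at h1
    have h4 : 7 / 16 ≤ 16 * (T : ℝ) ^ 2 * (Vs X A f E θ e y).card * W y := by
      linarith
    have hV0 : (0 : ℝ) < (Vs X A f E θ e y).card := by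
      rcases Nat.eq_zero_or_pos (Vs X A f E θ e y).card with h0 | h0
      · rw [h0] at h4
        norm_num at h4
      · exact_mod_cast h0
    rw [div_le_iff₀ (by positivity)]
    nlinarith
  calc ∑ y ∈ X.filter (fun y => f y + (θ + 2 * η) < lin z o y),
      1 / (64 * (T : ℝ) ^ 2 * (Vs X A f E θ e y).card)
      ≤ ∑ y ∈ X.filter (fun y => f y + (θ + 2 * η) < lin z o y), W y :=
        Finset.sum_le_sum hWy
    _ ≤ ∑ y ∈ X, W y := Finset.sum_le_sum_of_subset_of_nonneg (Finset.filter_subset _ _)
        (fun y _ _ => hWnn y)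
    _ ≤ S := hWS
    _ ≤ T * proc O η ek z o T X f := hS1

end Pool.Agent.H.MP_f23a5d_lc
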