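import Pool.Agent.H.MP_f23a5d_lc.Ext

set_option autoImplicit false

namespace Pool.Agent.H.MP_f23a5d_lc

variable {d : ℕ}

theorem lip_one {F : (Fin d → ℝ) → ℝ} (hF : HasSub F) (h0 : ∀ u, 0 ≤ F u) {M : ℝ}
    (h1 : ∀ u, (∀ i, 0 ≤ u i ∧ u i ≤ M) → F u ≤ 1) {μ κ : ℝ} (hμ : 0 < μ) (hκ : 0 < κ)
    {u v : Fin d → ℝ} (hv : ∀ i, μ ≤ v i ∧ v i ≤ M - μ) (huv : ∀ i, |u i - v i| ≤ κ) :
    F v - F u ≤ κ / μ := by
  set s : ℝ := μ / κ with hs
  have hs0 : 0 < s := by positivity
  obtain ⟨p, hp⟩ := hF v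
  have h2 := hp (v + s • (v - u))
  have h3 := hp u
  have h4 : F (v + s • (v - u)) ≤ 1 := by
    apply h1
    intro i
    have h5 : |s * (v i - u i)| ≤ μ := by
      rw [abs_mul, abs_of_pos hs0, abs_sub_comm]
      calc s * |u i - v i| ≤ s * κ := mul_le_mul_of_nonneg_left (huv i) hs0.le
        _ = μ := by rw [hs]; field_simp
    have h6 := abs_le.1 h5
    have h7 := hv i
    simp only [Pi.add_apply, Pi.smul_apply, Pi.sub_apply, smul_eq_mul]
    constructor
    · linarith [h6.1, h7.1]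
    · linarith [h6.2, h7.2]
  have h5 : p ⬝ᵥ (v + s • (v - u) - v) = -(s * (p ⬝ᵥ (u - v))) := by
    have : v + s • (v - u) - v = -(s • (u - v)) := by module
    rw [this, dotProduct_neg, dotProduct_smul, smul_eq_mul]
  rw [h5] at h2
  have h6 : (1 + s) * (F v - F u) ≤ 1 := by
    have h7 := mul_le_mul_of_nonneg_left h3 hs0.le
    have h8 := h0 u
    nlinarith
  have h7 : κ / μ = 1 / s := by rw [hs]; field_simp
  rw [h7, le_div_iff₀ hs0]
  by_cases hcase : 0 ≤ F v - F u
  · nlinarith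
  · push Not at hcase
    nlinarith

theorem lip {F : (Fin d → ℝ) → ℝ} (hF : HasSub F) (h0 : ∀ u, 0 ≤ F u) {M : ℝ}
    (h1 : ∀ u, (∀ i, 0 ≤ u i ∧ u i ≤ M) → F u ≤ 1) {μ κ : ℝ} (hμ : 0 < μ) (hκ : 0 < κ)
    {u v : Fin d → ℝ} (hu : ∀ i, μ ≤ u i ∧ u i ≤ M - μ) (hv : ∀ i, μ ≤ v i ∧ v i ≤ M - μ)
    (huv : ∀ i, |u i - v i| ≤ κ) : |F u - F v| ≤ κ / μ := by
  rw [abs_le]
  constructor
  · have := lip_one hF h0 h1 hμ hκ hv huv
    linarith
  · exact lip_one hF h0 h1 hμ hκ hu (fun i => by rw [abs_sub_comm]; exact huv i)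

/-- The points of the grid close to its boundary. -/
noncomputable def margin (d m t : ℕ) : Finset (Fin d → ℤ) :=
  (Box d m).filter (fun x => ¬ ∀ i, (t : ℤ) ≤ x i ∧ x i < (m : ℤ) - t)

theorem margin_card (d m t : ℕ) (hm : 1 ≤ m) :
    ((margin d m t).card : ℝ) ≤ 2 * d * t / m * (m : ℝ) ^ d := by
  classical
  have hm0 : (0 : ℝ) < m := by exact_mod_cast hm
  rcases Nat.eq_zero_or_pos d with hd | hd
  · subst hd
    have : margin 0 m t = ∅ := by
      rw [margin, Finset.filter_eq_empty_iff]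
      intro x _
      rw [not_not]
      intro i
      exact i.elim0
    rw [this]
    simp
  -- cover by slabs
  let S : Finset ℤ := (Finset.Ico (0 : ℤ) m).filter (fun y => ¬ ((t : ℤ) ≤ y ∧ y < (m : ℤ) - t))
  have hS : S.card ≤ 2 * t := by
    have h1 : S ⊆ Finset.Ico (0 : ℤ) t ∪ Finset.Ico ((m : ℤ) - t) m := by
      intro y hy
      simp only [S, Finset.mem_filter, Finset.mem_Ico] at hy
      simp only [Finset.mem_union, Finset.mem_Ico]
      omega
    calc S.card ≤ (Finset.Ico (0 : ℤ) t ∪ Finset.Ico ((m : ℤ) - t) m).card :=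
          Finset.card_le_card h1
      _ ≤ (Finset.Ico (0 : ℤ) t).card + (Finset.Ico ((m : ℤ) - t) m).card :=
          Finset.card_union_le _ _
      _ = 2 * t := by simp; omega
  have hcover : margin d m t ⊆ Finset.univ.biUnion (fun i : Fin d =>
      Fintype.piFinset (Function.update (fun _ : Fin d => Finset.Ico (0 : ℤ) m) i S)) := by
    intro x hx
    rw [margin, Finset.mem_filter] at hx
    obtain ⟨hxB, hx⟩ := hx
    push Not at hx
    obtain ⟨i, hi⟩ := hx
    rw [Finset.mem_biUnion]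
    refine ⟨i, Finset.mem_univ _, ?_⟩
    rw [Fintype.mem_piFinset]
    intro j
    have hj := mem_Box.1 hxB j
    by_cases hji : j = i
    · subst hji
      rw [Function.update_self]
      simp only [S, Finset.mem_filter, Finset.mem_Ico]
      refine ⟨hj, ?_⟩
      intro h
      have := hi h.1
      omega
    · rw [Function.update_of_ne hji, Finset.mem_Ico]
      exact hj
  have hslab : ∀ i : Fin d, (Fintype.piFinset
      (Function.update (fun _ : Fin d => Finset.Ico (0 : ℤ) m) i S)).card ≤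
      2 * t * m ^ (d - 1) := by
    intro i
    rw [Fintype.card_piFinset, ← Finset.mul_prod_erase Finset.univ _ (Finset.mem_univ i)]
    apply Nat.mul_le_mul
    · rw [Function.update_self]; exact hS
    · apply le_of_eq
      have h1 : ∀ j ∈ Finset.univ.erase i,
          (Function.update (fun _ : Fin d => Finset.Ico (0 : ℤ) m) i S j).card = m := by
        intro j hj
        rw [Function.update_of_ne (Finset.ne_of_mem_erase hj)]
        simp
      rw [Finset.prod_congr rfl h1, Finset.prod_const,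
        Finset.card_erase_of_mem (Finset.mem_univ i), Finset.card_univ, Fintype.card_fin]
  have htot : (margin d m t).card ≤ d * (2 * t * m ^ (d - 1)) := by
    refine (Finset.card_le_card hcover).trans (Finset.card_biUnion_le.trans ?_)
    refine (Finset.sum_le_sum fun i _ => hslab i).trans ?_
    simp
  have h2 : ((margin d m t).card : ℝ) ≤ d * (2 * t * (m : ℝ) ^ (d - 1)) := by
    exact_mod_cast htot
  refine h2.trans (le_of_eq ?_)
  have h3 : (m : ℝ) ^ d = m ^ (d - 1) * m := by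
    rw [← pow_succ]; congr 1; omega
  rw [h3]
  field_simp

end Pool.Agent.H.MP_f23a5d_lc
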