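import Pool.Agent.H.MP_f23a5d_lc.Fine

set_option autoImplicit false

namespace Pool.Agent.H.MP_f23a5d_lc

variable {d : ℕ}

/-- The rejection probability of one random comparison of two nearby values. -/
noncomputable def lipT (d r m : ℕ) (lam : ℝ) (f : (Fin d → ℤ) → ℝ) : ℝ :=
  (∑ a ∈ Box d r, (∑ b ∈ Box d r, (∑ x ∈ Box d m,
    (if lam < |f (pt r a x) - f (pt r b x)| then (1 : ℝ) else 0)) / ((Box d m).card : ℝ)) /
      ((Box d r).card : ℝ)) / ((Box d r).card : ℝ)

theorem rcomp_lipT {r m : ℕ} (hr : 1 ≤ r) (hm : 1 ≤ m) (lam : ℝ) :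
    RComp 2 (lipT d r m lam) := by
  have h1 : ∀ a b x : Fin d → ℤ, RComp 2 (fun f : (Fin d → ℤ) → ℝ =>
      (if lam < |f (pt r a x) - f (pt r b x)| then (1 : ℝ) else 0)) := by
    intro a b x
    have h2 := (Comp.val (pt r a x)).bindR (q₂ := 1)
      (fun u f => if lam < |u - f (pt r b x)| then (1 : ℝ) else 0) (fun u => by
        have h3 := (Comp.val (pt r b x)).bindR (q₂ := 0)
          (fun v _ => if lam < |u - v| then (1 : ℝ) else 0) (fun v => by
            by_cases h : lam < |u - v|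
            · simp only [h, if_true]; exact RComp.rej 0
            · simp only [h, if_false]; exact RComp.acc 0)
        exact h3)
    exact h2
  exact RComp.avg _ (Box_nonempty d hr) _ (fun a _ => RComp.avg _ (Box_nonempty d hr) _
    (fun b _ => RComp.avg _ (Box_nonempty d hm) _ (fun x _ => h1 a b x)))

theorem lipT_yes {n m r t : ℕ} (h : r * m ≤ n) (hr : 1 ≤ r) (hm : 1 ≤ m) (ht : 1 ≤ t)
    {lam : ℝ} (hlam : 1 / (t : ℝ) ≤ lam) {f : (Fin d → ℤ) → ℝ}
    (h01 : ∀ x ∈ Box d n, 0 ≤ f x ∧ f x ≤ 1) (hf : SubConv (Box d n) f) :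
    lipT d r m lam f ≤ 2 * d * t / m := by
  have hm0 : (0 : ℝ) < m := by exact_mod_cast hm
  have hBm : (0 : ℝ) < (Box d m).card := by exact_mod_cast (Box_nonempty d hm).card_pos
  have hBr : (0 : ℝ) < (Box d r).card := by exact_mod_cast (Box_nonempty d hr).card_pos
  have h1 : ∀ a ∈ Box d r, ∀ b ∈ Box d r, (∑ x ∈ Box d m,
      (if lam < |f (pt r a x) - f (pt r b x)| then (1 : ℝ) else 0)) / ((Box d m).card : ℝ) ≤
      2 * d * t / m := by
    intro a ha b hb
    rw [div_le_iff₀ hBm]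
    calc ∑ x ∈ Box d m, (if lam < |f (pt r a x) - f (pt r b x)| then (1 : ℝ) else 0)
        ≤ ∑ x ∈ Box d m, (if x ∈ margin d m t then (1 : ℝ) else 0) := by
          apply Finset.sum_le_sum
          intro x hx
          by_cases hxm : x ∈ margin d m t
          · rw [if_pos hxm]
            split_ifs <;> norm_num
          · rw [if_neg hxm, if_neg]
            rw [not_lt]
            exact (lip_test_yes h hr ht h01 hf ha hb hx hxm).trans hlam
      _ = (margin d m t).card := by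
          rw [← Finset.sum_filter, Finset.sum_const, nsmul_eq_mul, mul_one]
          congr 2
          ext x
          rw [Finset.mem_filter]
          constructor
          · exact fun h => h.2
          · intro h
            exact ⟨(Finset.mem_filter.1 h).1, h⟩
      _ ≤ 2 * d * t / m * (m : ℝ) ^ d := margin_card d m t hm
      _ = 2 * d * t / m * ((Box d m).card : ℝ) := by rw [card_Box]; push_cast; rfl
  have h2 : ∀ a ∈ Box d r, (∑ b ∈ Box d r, (∑ x ∈ Box d m,
      (if lam < |f (pt r a x) - f (pt r b x)| then (1 : ℝ) else 0)) / ((Box d m).card : ℝ)) /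
      ((Box d r).card : ℝ) ≤ 2 * d * t / m := by
    intro a ha
    rw [div_le_iff₀ hBr]
    refine (Finset.sum_le_sum fun b hb => h1 a ha b hb).trans ?_
    rw [Finset.sum_const, nsmul_eq_mul, mul_comm]
  rw [lipT, div_le_iff₀ hBr]
  refine (Finset.sum_le_sum fun a ha => h2 a ha).trans ?_
  rw [Finset.sum_const, nsmul_eq_mul, mul_comm]

/-- If nearby values rarely differ much then for at least half of the subgrids the average
difference to the other subgrids is small. -/
theorem half_good {n m r : ℕ} (h : r * m ≤ n) (hr : 1 ≤ r) (hm : 1 ≤ m) {ε : ℝ} (hε : 0 < ε)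
    {f : (Fin d → ℤ) → ℝ} (h01 : ∀ x ∈ Box d n, 0 ≤ f x ∧ f x ≤ 1)
    (hlip : lipT d r m (ε / 16) f < ε / 32) :
    ((Box d r).card : ℝ) / 2 ≤ (((Box d r).filter (fun a =>
      ∑ b ∈ Box d r, ∑ x ∈ Box d m, |f (pt r a x) - f (pt r b x)| ≤
        3 * ε / 16 * ((r : ℝ) ^ d * (m : ℝ) ^ d))).card : ℝ) := by
  have hBm : (0 : ℝ) < (Box d m).card := by exact_mod_cast (Box_nonempty d hm).card_pos
  have hBr : (0 : ℝ) < (Box d r).card := by exact_mod_cast (Box_nonempty d hr).card_pos
  have hrm : (r : ℝ) ^ d * (m : ℝ) ^ d = ((Box d r).card : ℝ) * ((Box d m).card : ℝ) := by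
    rw [card_Box, card_Box]; push_cast; rfl
  rw [hrm]
  set A : ℝ := ((Box d r).card : ℝ) with hA
  set B : ℝ := ((Box d m).card : ℝ) with hB
  set Dl : (Fin d → ℤ) → ℝ := fun a =>
    ∑ b ∈ Box d r, ∑ x ∈ Box d m, |f (pt r a x) - f (pt r b x)| with hDl
  have hDl0 : ∀ a, 0 ≤ Dl a := fun a =>
    Finset.sum_nonneg fun b _ => Finset.sum_nonneg fun x _ => abs_nonneg _
  -- total
  have h1 : ∑ a ∈ Box d r, Dl a ≤ 3 * ε / 32 * (A * A * B) := by
    have h2 : ∑ a ∈ Box d r, Dl a ≤ ∑ a ∈ Box d r, ∑ b ∈ Box d r, ∑ x ∈ Box d m,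
        ((if ε / 16 < |f (pt r a x) - f (pt r b x)| then (1 : ℝ) else 0) + ε / 16) := by
      apply Finset.sum_le_sum
      intro a ha
      apply Finset.sum_le_sum
      intro b hb
      apply Finset.sum_le_sum
      intro x hx
      have e1 := h01 _ (pt_mem h ha hx)
      have e2 := h01 _ (pt_mem h hb hx)
      have e3 : |f (pt r a x) - f (pt r b x)| ≤ 1 := by
        rw [abs_le]; constructor <;> linarith [e1.1, e1.2, e2.1, e2.2]
      split_ifs with hlt
      · linarith
      · push Not at hlt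
        linarith
    have h3 : ∑ a ∈ Box d r, ∑ b ∈ Box d r, ∑ x ∈ Box d m,
        ((if ε / 16 < |f (pt r a x) - f (pt r b x)| then (1 : ℝ) else 0) + ε / 16) =
        (A * A * B) * lipT d r m (ε / 16) f + (A * A * B) * (ε / 16) := by
      simp only [Finset.sum_add_distrib, Finset.sum_const, nsmul_eq_mul]
      rw [← hA, ← hB]
      have e1 : (A * A * B) * lipT d r m (ε / 16) f =
          ∑ a ∈ Box d r, ∑ b ∈ Box d r, ∑ x ∈ Box d m,
            (if ε / 16 < |f (pt r a x) - f (pt r b x)| then (1 : ℝ) else 0) := by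
        rw [lipT, ← hA, ← hB]
        simp only [← Finset.sum_div]
        field_simp
      rw [e1]
      ring
    rw [h3] at h2
    refine h2.trans ?_
    have hAAB : 0 < A * A * B := by positivity
    nlinarith
  -- Markov
  set Bad := (Box d r).filter (fun a => ¬ Dl a ≤ 3 * ε / 16 * (A * B)) with hBad
  set Good := (Box d r).filter (fun a => Dl a ≤ 3 * ε / 16 * (A * B)) with hGood
  have h2 : (Good.card : ℝ) + Bad.card = A := by
    rw [hA, hGood, hBad]
    exact_mod_cast Finset.card_filter_add_card_filter_not (s := Box d r) _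
  have h3 : (Bad.card : ℝ) * (3 * ε / 16 * (A * B)) ≤ 3 * ε / 32 * (A * A * B) := by
    calc (Bad.card : ℝ) * (3 * ε / 16 * (A * B)) = ∑ _a ∈ Bad, 3 * ε / 16 * (A * B) := by
          rw [Finset.sum_const, nsmul_eq_mul]
      _ ≤ ∑ a ∈ Bad, Dl a := by
          apply Finset.sum_le_sum
          intro a ha
          rw [hBad, Finset.mem_filter, not_le] at ha
          exact ha.2.le
      _ ≤ ∑ a ∈ Box d r, Dl a := Finset.sum_le_sum_of_subset_of_nonneg
          (Finset.filter_subset _ _) (fun a _ _ => hDl0 a)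
      _ ≤ _ := h1
  have h4 : (Bad.card : ℝ) ≤ A / 2 := by
    have h5 : (Bad.card : ℝ) * (3 * ε / 16 * (A * B)) ≤ A / 2 * (3 * ε / 16 * (A * B)) := by
      refine h3.trans (le_of_eq ?_)
      ring
    exact le_of_mul_le_mul_right h5 (by positivity)
  linarith

set_option maxHeartbeats 1000000 in
theorem exists_tester (d : ℕ) {δ : ℝ} (hδ : 0 < δ) : ∃ C : ℝ, 0 < C ∧ ∀ n : ℕ, 1 ≤ n →
    ∀ ε : ℝ, 0 < ε → ε < 1 → ∃ (q : ℕ) (P : ((Fin d → ℤ) → ℝ) → ℝ), RComp q P ∧
      (q : ℝ) ≤ C * ε ^ (-(1 + δ)) ∧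
      (∀ f, (∀ x ∈ Box d n, 0 ≤ f x ∧ f x ≤ 1) → CvxBox n f → P f ≤ 1 / 3) ∧
      (∀ f, (∀ x ∈ Box d n, 0 ≤ f x ∧ f x ≤ 1) → FarBox n ε f → 2 / 3 ≤ P f) := by
  classical
  set s : ℝ := δ / 3 with hs
  have hs0 : 0 < s := by positivity
  obtain ⟨C₀, hC₀, hcoarse⟩ := coarse d hs0
  set D : ℝ := 13650 * ((d : ℝ) + 1) with hD
  have hd0 : (0 : ℝ) ≤ d := Nat.cast_nonneg d
  have hD0 : 0 < D := by positivity
  set Z : ℝ := 16 * (D + 1) with hZ
  have hZ0 : 0 < Z := by positivity
  refine ⟨24 * C₀ * Z ^ s + 130, by positivity, fun n hn ε hε hε1 => ?_⟩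
  have hεinv : 1 ≤ ε⁻¹ := by rw [← one_div, le_div_iff₀ hε]; linarith
  have hεi0 : 0 < ε⁻¹ := inv_pos.2 hε
  -- powers of ε
  have hpow1 : ε⁻¹ * ((ε⁻¹) ^ 3) ^ s = ε ^ (-(1 + δ)) := by
    have e1 : ((ε⁻¹) ^ 3) ^ s = ε ^ (-δ) := by
      rw [← Real.rpow_natCast, ← Real.rpow_mul hεi0.le, Real.inv_rpow hε.le,
        ← Real.rpow_neg hε.le]
      congr 1
      rw [hs]; push_cast; ring
    rw [e1, ← Real.rpow_neg_one, ← Real.rpow_add hε]
    congr 1
    ring
  have hpow2 : ε⁻¹ ≤ ε ^ (-(1 + δ)) := by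
    rw [← Real.rpow_neg_one]
    exact Real.rpow_le_rpow_of_exponent_ge hε hε1.le (by linarith)
  have hpowpos : 0 < ε ^ (-(1 + δ)) := Real.rpow_pos_of_pos hε _
  set N0 : ℕ := ⌈D / ε ^ 2⌉₊ with hN0
  have hN0le : (N0 : ℝ) ≤ (D + 1) * (ε⁻¹) ^ 2 := by
    have e1 : (N0 : ℝ) ≤ D / ε ^ 2 + 1 := (Nat.ceil_lt_add_one (by positivity)).le
    have e2 : D / ε ^ 2 = D * (ε⁻¹) ^ 2 := by field_simp
    have e3 : (1 : ℝ) ≤ (ε⁻¹) ^ 2 := one_le_pow₀ hεinv
    rw [e2] at e1
    linarith
  have hN0ge : D / ε ^ 2 ≤ N0 := Nat.le_ceil _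
  have hN0pos : 0 < N0 := Nat.ceil_pos.2 (by positivity)
  -- the bound for the coarse tester
  have hbound : ∀ y : ℝ, 0 ≤ y → y ≤ Z * (ε⁻¹) ^ 3 →
      ε⁻¹ * y ^ s ≤ Z ^ s * ε ^ (-(1 + δ)) := by
    intro y hy0 hy
    have e1 : y ^ s ≤ (Z * (ε⁻¹) ^ 3) ^ s := Real.rpow_le_rpow hy0 hy hs0.le
    rw [Real.mul_rpow hZ0.le (by positivity)] at e1
    calc ε⁻¹ * y ^ s ≤ ε⁻¹ * (Z ^ s * ((ε⁻¹) ^ 3) ^ s) :=
          mul_le_mul_of_nonneg_left e1 hεi0.le
      _ = Z ^ s * (ε⁻¹ * ((ε⁻¹) ^ 3) ^ s) := by ring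
      _ = Z ^ s * ε ^ (-(1 + δ)) := by rw [hpow1]
  have hZs : 0 < Z ^ s := Real.rpow_pos_of_pos hZ0 _
  rcases lt_or_ge n N0 with hnN | hnN
  · -- small grids
    obtain ⟨q, P, hP, hq, hyes, hno⟩ := hcoarse n hn ε hε hε1.le
    refine ⟨q, P, hP, ?_, ?_, ?_⟩
    · have hn' : (n : ℝ) ≤ N0 := by exact_mod_cast hnN.le
      have e1 : (n : ℝ) / ε ≤ Z * (ε⁻¹) ^ 3 := by
        have e2 : (n : ℝ) / ε = n * ε⁻¹ := div_eq_mul_inv _ _
        rw [e2]
        have e3 : (n : ℝ) * ε⁻¹ ≤ ((D + 1) * (ε⁻¹) ^ 2) * ε⁻¹ :=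
          mul_le_mul_of_nonneg_right (hn'.trans hN0le) hεi0.le
        have e4 : ((D + 1) * (ε⁻¹) ^ 2) * ε⁻¹ = (D + 1) * (ε⁻¹) ^ 3 := by ring
        rw [e4] at e3
        refine e3.trans ?_
        apply mul_le_mul_of_nonneg_right _ (by positivity)
        rw [hZ]; linarith
      have e5 := hbound _ (by positivity) e1
      calc (q : ℝ) ≤ C₀ * (ε⁻¹ * ((n : ℝ) / ε) ^ s) := by rw [← mul_assoc]; exact hq
        _ ≤ C₀ * (Z ^ s * ε ^ (-(1 + δ))) := mul_le_mul_of_nonneg_left e5 hC₀.le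
        _ ≤ (24 * C₀ * Z ^ s + 130) * ε ^ (-(1 + δ)) := by
            have : 0 < C₀ * Z ^ s * ε ^ (-(1 + δ)) := by positivity
            nlinarith
    · intro f hf hconv
      rw [hyes f hf (bddSub_of_cvxBox hn hconv hf)]
      norm_num
    · intro f hf hfar
      linarith [hno f hf hfar]
  · -- large grids
    set r : ℕ := n / N0 with hr
    have hr1 : 1 ≤ r := (Nat.one_le_div_iff hN0pos).2 hnN
    set m : ℕ := n / r with hm
    have hrm : r * m ≤ n := Nat.mul_div_le n r
    have hnm : n < r * (m + 1) := by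
      have := Nat.lt_mul_div_succ n (show 0 < r by omega)
      simpa [hm] using this
    have hmN : N0 ≤ m := by
      rw [hm, Nat.le_div_iff_mul_le (by omega), mul_comm, ← Nat.le_div_iff_mul_le hN0pos]
    have hm1 : 1 ≤ m := by omega
    have hm2N : m ≤ 2 * N0 := by
      have e1 : n < N0 * (r + 1) := by
        have := Nat.lt_mul_div_succ n hN0pos
        simpa [hr] using this
      have e2 : n < r * (2 * N0) := by nlinarith
      rw [hm]
      exact ((Nat.div_lt_iff_lt_mul (by omega)).2 (by rw [mul_comm]; exact e2)).le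
    have hmge : D / ε ^ 2 ≤ m := hN0ge.trans (by exact_mod_cast hmN)
    have hm0 : (0 : ℝ) < m := by exact_mod_cast hm1
    have hmle : (m : ℝ) ≤ 2 * ((D + 1) * (ε⁻¹) ^ 2) := by
      have : (m : ℝ) ≤ 2 * N0 := by exact_mod_cast hm2N
      linarith
    have hn2 : 2 ≤ n := by
      have e1 : (2 : ℝ) ≤ N0 := by
        refine le_trans ?_ hN0ge
        rw [le_div_iff₀ (by positivity)]
        have : ε ^ 2 ≤ 1 := pow_le_one₀ hε.le hε1.le
        rw [hD]
        nlinarith
      have e2 : 2 ≤ N0 := by exact_mod_cast e1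
      omega
    have hn0 : (0 : ℝ) < n := by
      have : 0 < n := by omega
      exact_mod_cast this
    -- the margin parameter
    set t : ℕ := ⌈32 / ε⌉₊ + 2 with ht
    have ht3 : 3 ≤ t := by
      have : 0 < ⌈32 / ε⌉₊ := Nat.ceil_pos.2 (by positivity)
      omega
    have htge : 32 / ε ≤ (t : ℝ) - 2 := by
      rw [ht]; push_cast
      have := Nat.le_ceil (32 / ε)
      linarith
    have ht0 : (0 : ℝ) < t := by
      have : 0 < t := by omega
      exact_mod_cast this
    have htle : (t : ℝ) ≤ 35 / ε := by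
      rw [ht]; push_cast
      have e1 : (⌈32 / ε⌉₊ : ℝ) ≤ 32 / ε + 1 := (Nat.ceil_lt_add_one (by positivity)).le
      have e2 : (35 : ℝ) / ε = 32 / ε + 3 * ε⁻¹ := by field_simp; norm_num
      linarith
    have ht2 : 2 / ((t : ℝ) - 2) ≤ ε / 16 := by
      have e1 : 0 < (t : ℝ) - 2 := lt_of_lt_of_le (by positivity) htge
      rw [div_le_iff₀ e1]
      have e2 : ε / 16 * (32 / ε) ≤ ε / 16 * ((t : ℝ) - 2) :=
        mul_le_mul_of_nonneg_left htge (by positivity)
      have e3 : ε / 16 * (32 / ε) = 2 := by field_simp; norm_num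
      linarith
    have ht1 : 1 / (t : ℝ) ≤ ε / 16 := by
      rw [div_le_iff₀ ht0]
      have e2 : ε / 16 * (32 / ε) ≤ ε / 16 * (t : ℝ) := by
        apply mul_le_mul_of_nonneg_left _ (by positivity)
        linarith
      have e3 : ε / 16 * (32 / ε) = 2 := by field_simp; norm_num
      linarith
    have hεm : D ≤ m * ε ^ 2 := by
      rwa [div_le_iff₀ (by positivity)] at hmge
    have hmar0 : 2 * d * (t : ℝ) / m ≤ 70 * d / (ε * m) := by
      have e1 : 2 * d * (t : ℝ) ≤ 2 * d * (35 / ε) := mul_le_mul_of_nonneg_left htle (by positivity)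
      calc 2 * d * (t : ℝ) / m ≤ 2 * d * (35 / ε) / m := div_le_div_of_nonneg_right e1 hm0.le
        _ = 70 * d / (ε * m) := by field_simp; ring
    have hmar : 2 * d * (t : ℝ) / m ≤ ε / 16 := by
      refine hmar0.trans ?_
      rw [div_le_iff₀ (by positivity)]
      have : ε / 16 * (ε * m) = (m * ε ^ 2) / 16 := by ring
      rw [this]
      rw [hD] at hεm
      linarith
    have hleft : (d : ℝ) * r / n ≤ ε / 16 := by
      rw [div_le_iff₀ hn0]
      have e1 : (r : ℝ) * N0 ≤ n := by exact_mod_cast Nat.div_mul_le_self n N0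
      have e2 : (r : ℝ) * (D / ε ^ 2) ≤ n := by
        refine le_trans ?_ e1
        exact mul_le_mul_of_nonneg_left hN0ge (Nat.cast_nonneg _)
      have e3 : (r : ℝ) * D ≤ n * ε ^ 2 := by
        have e4 : (r : ℝ) * (D / ε ^ 2) = (r * D) / ε ^ 2 := by ring
        rw [e4, div_le_iff₀ (by positivity)] at e2
        exact e2
      have e5 : (n : ℝ) * ε ^ 2 ≤ n * ε := by
        apply mul_le_mul_of_nonneg_left _ hn0.le
        nlinarith
      have e6 : (16 : ℝ) * d * r ≤ r * D := by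
        rw [hD]
        have : (0 : ℝ) ≤ r := Nat.cast_nonneg _
        nlinarith
      linarith
    -- repetitions
    set m2 : ℕ := ⌈64 / ε⌉₊ with hm2
    have hm2ge : 64 / ε ≤ m2 := Nat.le_ceil _
    have hm2le : (m2 : ℝ) ≤ 65 / ε := by
      have e1 : (m2 : ℝ) ≤ 64 / ε + 1 := (Nat.ceil_lt_add_one (by positivity)).le
      have e2 : (65 : ℝ) / ε = 64 / ε + ε⁻¹ := by field_simp; norm_num
      linarith
    obtain ⟨q', P', hP', hq', hyes', hno'⟩ := hcoarse m hm1 (ε / 8) (by positivity) (by linarith)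
    set Pfar : ((Fin d → ℤ) → ℝ) → ℝ := fun f =>
      (∑ a ∈ Box d r, P' (fun x => f (pt r a x))) / ((Box d r).card : ℝ) with hPfar
    have hPfarC : RComp q' Pfar := by
      apply RComp.avg _ (Box_nonempty d hr1)
        (fun a f => P' (fun x => f (pt r a x)))
      intro a _
      exact hP'.comap (fun x => pt r a x)
    have hlipC := rcomp_lipT (d := d) hr1 hm1 (ε / 16)
    have hor := (hPfarC.repeat 3).or (hlipC.repeat m2)
    refine ⟨3 * q' + m2 * 2, _, hor, ?_, ?_, ?_⟩
    · -- cost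
      push_cast
      have e1 : (m : ℝ) / (ε / 8) ≤ Z * (ε⁻¹) ^ 3 := by
        have e2 : (m : ℝ) / (ε / 8) = 8 * m * ε⁻¹ := by field_simp
        rw [e2]
        have e3 : 8 * (m : ℝ) * ε⁻¹ ≤ 8 * (2 * ((D + 1) * (ε⁻¹) ^ 2)) * ε⁻¹ := by
          apply mul_le_mul_of_nonneg_right _ hεi0.le
          linarith
        refine e3.trans (le_of_eq ?_)
        rw [hZ]; ring
      have e5 := hbound _ (by positivity) e1
      have e6 : (q' : ℝ) ≤ 8 * C₀ * (ε⁻¹ * ((m : ℝ) / (ε / 8)) ^ s) := by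
        refine hq'.trans (le_of_eq ?_)
        have : (ε / 8)⁻¹ = 8 * ε⁻¹ := by field_simp
        rw [this]; ring
      have e7 : (q' : ℝ) ≤ 8 * C₀ * (Z ^ s * ε ^ (-(1 + δ))) :=
        e6.trans (mul_le_mul_of_nonneg_left e5 (by positivity))
      have e8 : (m2 : ℝ) * 2 ≤ 130 * ε ^ (-(1 + δ)) := by
        have e9 : (65 : ℝ) / ε = 65 * ε⁻¹ := div_eq_mul_inv _ _
        rw [e9] at hm2le
        linarith
      calc 3 * (q' : ℝ) + m2 * 2 ≤ 3 * (8 * C₀ * (Z ^ s * ε ^ (-(1 + δ)))) +
            130 * ε ^ (-(1 + δ)) := by linarith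
        _ = (24 * C₀ * Z ^ s + 130) * ε ^ (-(1 + δ)) := by ring
    · -- convex functions
      intro f hf hconv
      have hsubc := (bddSub_of_cvxBox hn hconv hf).subConv
      have hfar0 : Pfar f = 0 := by
        rw [hPfar]
        dsimp only
        rw [Finset.sum_eq_zero, zero_div]
        intro a ha
        have hcs := cvxBox_sub (m := m) hrm hr1 hconv ha
        have h01' : ∀ x ∈ Box d m, 0 ≤ f (pt r a x) ∧ f (pt r a x) ≤ 1 :=
          fun x hx => hf _ (pt_mem hrm ha hx)
        exact hyes' _ h01' (bddSub_of_cvxBox hm1 hcs h01')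
      have hlip := lipT_yes (d := d) (t := t) hrm hr1 hm1 (by omega) ht1 hf hsubc
      have hlip01 := hlipC.nonneg f
      set L := lipT d r m (ε / 16) f with hL
      have h1 : 1 - (m2 : ℝ) * L ≤ (1 - L) ^ m2 := by
        have h5 := one_add_mul_le_pow (a := -L) (by linarith [hlip01.2]) m2
        calc 1 - (m2 : ℝ) * L = 1 + m2 * (-L) := by ring
          _ ≤ (1 + -L) ^ m2 := h5
          _ = (1 - L) ^ m2 := by rw [← sub_eq_add_neg]
      have h2 : (m2 : ℝ) * L ≤ 1 / 3 := by
        have h3 : (m2 : ℝ) * L ≤ (65 / ε) * (70 * d / (ε * m)) :=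
          mul_le_mul hm2le (hlip.trans hmar0) hlip01.1 (by positivity)
        have h4 : (65 / ε) * (70 * d / (ε * m)) = 4550 * d / (m * ε ^ 2) := by
          field_simp; ring
        rw [h4] at h3
        refine h3.trans ?_
        have h5 : 0 < (m : ℝ) * ε ^ 2 := by positivity
        rw [div_le_iff₀ h5]
        rw [hD] at hεm
        linarith
      rw [hfar0, sub_zero, one_pow, sub_self, zero_add, sub_zero, one_mul]
      linarith
    · -- far functions
      intro f hf hfar
      have hlip01 := hlipC.nonneg f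
      have hfar01 := hPfarC.nonneg f
      set L := lipT d r m (ε / 16) f with hL
      have hgoal : (1 - Pfar f) ^ 3 * (1 - L) ^ m2 ≤ 1 / 3 := by
        have hF0 : 0 ≤ 1 - Pfar f := by linarith [hfar01.2]
        have hF1 : 1 - Pfar f ≤ 1 := by linarith [hfar01.1]
        have hL0 : 0 ≤ 1 - L := by linarith [hlip01.2]
        have hL1 : 1 - L ≤ 1 := by linarith [hlip01.1]
        rcases lt_or_ge L (ε / 32) with hcase | hcase
        · have hgood := half_good (d := d) hrm hr1 hm1 hε hf hcase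
          set Good := (Box d r).filter (fun a =>
            ∑ b ∈ Box d r, ∑ x ∈ Box d m, |f (pt r a x) - f (pt r b x)| ≤
              3 * ε / 16 * ((r : ℝ) ^ d * (m : ℝ) ^ d)) with hGood
          have hBr : (0 : ℝ) < (Box d r).card := by
            exact_mod_cast (Box_nonempty d hr1).card_pos
          have h1 : 9 / 20 ≤ Pfar f := by
            rw [hPfar]
            dsimp only
            rw [le_div_iff₀ hBr]
            calc 9 / 20 * ((Box d r).card : ℝ) ≤ (Good.card : ℝ) * (9 / 10) := by linarith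
              _ = ∑ _a ∈ Good, (9 / 10 : ℝ) := by rw [Finset.sum_const, nsmul_eq_mul]
              _ ≤ ∑ a ∈ Good, P' (fun x => f (pt r a x)) := by
                  apply Finset.sum_le_sum
                  intro a ha
                  rw [hGood, Finset.mem_filter] at ha
                  apply hno'
                  · exact fun x hx => hf _ (pt_mem hrm ha.1 hx)
                  · exact far_sub hrm hnm hr1 hm1 hn2 ht3 hε hε1.le ht2 hmar hleft hf hfar
                      ha.1 ha.2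
              _ ≤ ∑ a ∈ Box d r, P' (fun x => f (pt r a x)) :=
                  Finset.sum_le_sum_of_subset_of_nonneg (Finset.filter_subset _ _)
                    (fun a _ _ => (hP'.nonneg _).1)
          have h2 : (1 - Pfar f) ^ 3 ≤ (11 / 20) ^ 3 :=
            pow_le_pow_left₀ hF0 (by linarith) 3
          have h3 : (1 - L) ^ m2 ≤ 1 := pow_le_one₀ hL0 hL1
          calc (1 - Pfar f) ^ 3 * (1 - L) ^ m2 ≤ (11 / 20) ^ 3 * 1 :=
                mul_le_mul h2 h3 (pow_nonneg hL0 _) (by norm_num)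
            _ ≤ 1 / 3 := by norm_num
        · have h2 : (1 - Pfar f) ^ 3 ≤ 1 := pow_le_one₀ hF0 hF1
          have h3 : (1 - L) ^ m2 ≤ 1 / 3 := by
            calc (1 - L) ^ m2 ≤ Real.exp (-L) ^ m2 := by
                  apply pow_le_pow_left₀ hL0
                  have := Real.add_one_le_exp (-L)
                  linarith
              _ = Real.exp (m2 * (-L)) := by rw [← Real.exp_nat_mul]
              _ ≤ Real.exp (-2) := by
                  apply Real.exp_le_exp.2
                  have e1 : (64 / ε) * (ε / 32) ≤ m2 * L :=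
                    mul_le_mul hm2ge hcase (by positivity) (Nat.cast_nonneg _)
                  have e2 : (64 / ε) * (ε / 32) = 2 := by field_simp; norm_num
                  linarith
              _ ≤ 1 / 3 := by
                  rw [Real.exp_neg, ← one_div]
                  apply one_div_le_one_div_of_le (by norm_num)
                  have := Real.add_one_le_exp (2 : ℝ)
                  linarith
          calc (1 - Pfar f) ^ 3 * (1 - L) ^ m2 ≤ 1 * (1 / 3) :=
                mul_le_mul h2 h3 (pow_nonneg hL0 _) zero_le_one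
            _ = 1 / 3 := one_mul _
      have e : (1 - (1 - Pfar f) ^ 3) + (1 - (1 - (1 - Pfar f) ^ 3)) * (1 - (1 - L) ^ m2) =
          1 - (1 - Pfar f) ^ 3 * (1 - L) ^ m2 := by ring
      rw [e]
      linarith

/-- The main theorem: for each dimension and each `δ > 0` there are testers for convexity with
`O(ε ^ (-(1 + δ)))` queries. -/
theorem main (d : ℕ) {δ : ℝ} (hδ : 0 < δ) : ∃ C : ℝ, 0 < C ∧ ∀ n : ℕ, 1 ≤ n →
    ∀ ε : ℝ, 0 < ε → ε < 1 → ∃ (A : Alg (Fin d → Fin n)) (q : ℕ), A.Within q ∧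
      (q : ℝ) ≤ C * ε ^ (-(1 + δ)) ∧ IsConvexityTester ε A := by
  obtain ⟨C, hC, h⟩ := exists_tester d hδ
  refine ⟨C, hC, fun n hn ε hε hε1 => ?_⟩
  obtain ⟨q, P, hP, hq, hyes, hno⟩ := h n hn ε hε hε1
  obtain ⟨A, hAq, hA⟩ := (hP.comap (prj (d := d) hn)).toAlg
  refine ⟨A, q, hAq, hq, ?_, ?_⟩
  · intro f hf hconv
    rw [hA]
    have := hyes (fun x => f (prj hn x)) (fun x _ => hf _) (cvxBox_of_convexGrid hn hconv)
    linarith
  · intro f hf hfar
    rw [hA]
    have := hno (fun x => f (prj hn x)) (fun x _ => hf _) (by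
      intro g hg01 hg
      have h1 := hfar (fun y => g (emb y)) (fun y => hg01 _ (emb_mem y))
        (convexGrid_of_subConv hn hg01 hg)
      have hn0 : (0 : ℝ) < n := by exact_mod_cast hn
      rw [distL1, le_div_iff₀ (by positivity)] at h1
      rw [sum_Box hn]
      simp only [prj_emb]
      exact h1)
    linarith

end Pool.Agent.H.MP_f23a5d_lc
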