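import Pool.Agent.H.MP_f23a5d_lc.FatStep

set_option autoImplicit false

namespace Pool.Agent.H.MP_f23a5d_lc

open Module Submodule

variable {d : ℕ}

/-- `q` queries suffice to find the minimum on `R` of functions with subgradients on `R`. -/
def MinSpec (R : Finset (Fin d → ℤ)) (q : ℕ) : Prop :=
  ∃ Φ : ((Fin d → ℤ) → ℝ) → (Fin d → ℤ) × ℝ, Comp q Φ ∧
    (∀ f, (Φ f).1 ∈ R ∧ (Φ f).2 = f (Φ f).1) ∧
    ∀ f, SubConv R f → ∀ w ∈ R, (Φ f).2 ≤ f w

theorem MinSpec.mono {R : Finset (Fin d → ℤ)} {q q' : ℕ} (h : MinSpec R q) (hq : q ≤ q') :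
    MinSpec R q' := by
  obtain ⟨Φ, h1, h2⟩ := h
  exact ⟨Φ, h1.mono hq, h2⟩

theorem MinSpec.singleton (x : Fin d → ℤ) : MinSpec {x} 1 := by
  refine ⟨fun f => (x, f x), (Comp.val x).map (fun r => (x, r)), fun f => ?_, ?_⟩
  · simp
  · intro f _ w hw
    rw [Finset.mem_singleton] at hw
    rw [hw]

open Classical in
theorem MinSpec.union {R₁ R₂ : Finset (Fin d → ℤ)} {q₁ q₂ : ℕ} (h₁ : MinSpec R₁ q₁)
    (h₂ : MinSpec R₂ q₂) : MinSpec (R₁ ∪ R₂) (q₁ + q₂) := by
  obtain ⟨Φ₁, hc₁, hv₁, hm₁⟩ := h₁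
  obtain ⟨Φ₂, hc₂, hv₂, hm₂⟩ := h₂
  refine ⟨fun f => if (Φ₁ f).2 ≤ (Φ₂ f).2 then Φ₁ f else Φ₂ f, ?_, ?_, ?_⟩
  · exact hc₁.bind (fun b f => if b.2 ≤ (Φ₂ f).2 then b else Φ₂ f)
      (fun b => hc₂.map (fun c => if b.2 ≤ c.2 then b else c))
  · intro f
    dsimp only
    split_ifs with h
    · exact ⟨Finset.mem_union_left _ (hv₁ f).1, (hv₁ f).2⟩
    · exact ⟨Finset.mem_union_right _ (hv₂ f).1, (hv₂ f).2⟩
  · intro f hf w hw
    dsimp only
    have h1 := hm₁ f (hf.mono Finset.subset_union_left)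
    have h2 := hm₂ f (hf.mono Finset.subset_union_right)
    rw [Finset.mem_union] at hw
    split_ifs with h
    · rcases hw with hw | hw
      · exact h1 w hw
      · exact h.trans (h2 w hw)
    · push Not at h
      rcases hw with hw | hw
      · exact h.le.trans (h1 w hw)
      · exact h2 w hw

open Classical in
theorem MinSpec.biUnion {α : Type} (I : Finset α) (Rf : α → Finset (Fin d → ℤ)) (q : ℕ)
    (hI : I.Nonempty) (h : ∀ i ∈ I, MinSpec (Rf i) q) :
    MinSpec (I.biUnion Rf) (I.card * q) := by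
  induction I using Finset.induction_on with
  | empty => exact absurd hI (by simp)
  | insert a I ha ih =>
    rw [Finset.biUnion_insert, Finset.card_insert_of_notMem ha]
    by_cases hI' : I.Nonempty
    · have h1 := ih hI' (fun i hi => h i (Finset.mem_insert_of_mem hi))
      have h2 := (h a (Finset.mem_insert_self a I)).union h1
      have h3 : (I.card + 1) * q = q + I.card * q := by ring
      rw [h3]
      exact h2
    · rw [Finset.not_nonempty_iff_eq_empty] at hI'
      subst hI'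
      have := h a (Finset.mem_insert_self a ∅)
      simpa using this

theorem DimLE.mono {R : Finset (Fin d → ℤ)} {k k' : ℕ} (h : DimLE R k) (hk : k ≤ k') :
    DimLE R k' := by
  obtain ⟨W, hW, h⟩ := h
  exact ⟨W, hW.trans hk, h⟩

theorem log_card_nonneg {R : Finset (Fin d → ℤ)} (hne : R.Nonempty) :
    0 ≤ Real.log R.card := by
  apply Real.log_nonneg
  exact_mod_cast hne.card_pos

/-- The fat case of the recursion. -/
theorem fat_case (hd : 1 ≤ d) {R : Finset (Fin d → ℤ)} (F : Frame R) (hR : LatConv R)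
    (hne : R.Nonempty)
    (hFat : F.Fat (1 / (512 * (d : ℝ) ^ 2))) (A : ℝ)
    (hA : ((2 ^ d + (256 * d + 1) ^ d : ℕ) : ℝ) * ((64 * d + 1) ^ d : ℕ) ≤ A)
    (ih : ∀ R' ⊆ R, LatConv R' → R'.Nonempty → R'.card < R.card →
      ∃ q : ℕ, MinSpec R' q ∧ (q : ℝ) ≤ A * (1 + Real.log R'.card)) :
    ∃ q : ℕ, MinSpec R q ∧ (q : ℝ) ≤ A * (1 + Real.log R.card) := by
  classical
  obtain ⟨Q, hQR, hQne, hQcard, hQ⟩ := F.fat_step hR hd hFat
  choose R' hR'R hR'lat hR'card hR'min using hQ
  set M : ℕ := 2 ^ d + (256 * d + 1) ^ d with hM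
  set B : ℕ := (64 * d + 1) ^ d with hB
  have hB1 : 1 ≤ B := Nat.one_le_pow _ _ (by omega)
  have hM1 : 1 ≤ M := le_trans (Nat.one_le_two_pow) (Nat.le_add_right _ _)
  have hBr : (1 : ℝ) ≤ B := by exact_mod_cast hB1
  have hMr : (1 : ℝ) ≤ M := by exact_mod_cast hM1
  have hApos : 0 < A := lt_of_lt_of_le (by positivity) hA
  have hcard0 : 0 < R.card := hne.card_pos
  have hlog := log_card_nonneg hne
  have hMA : (M : ℝ) ≤ A := by
    refine le_trans ?_ hA
    nlinarith
  -- the bound for the recursive calls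
  have hstep : ∀ a, (R' a).Nonempty →
      (M : ℝ) + A * (1 + Real.log (R' a).card) ≤ A * (1 + Real.log R.card) := by
    intro a ha
    have h1 : (B : ℝ) * (R' a).card + R.card ≤ B * R.card := by exact_mod_cast hR'card a
    have h2 : (0 : ℝ) < (R' a).card := by exact_mod_cast ha.card_pos
    have h3 : (0 : ℝ) < R.card := by exact_mod_cast hcard0
    have h4 : ((R' a).card : ℝ) ≤ (1 - 1 / B) * R.card := by
      have : ((R' a).card : ℝ) * B ≤ ((1 - 1 / B) * R.card) * B := by
        have e : ((1 - 1 / (B : ℝ)) * R.card) * B = B * R.card - R.card := by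
          field_simp
        rw [e]
        linarith
      exact le_of_mul_le_mul_right this (by linarith)
    have h5 : 0 < 1 - 1 / (B : ℝ) := by
      by_contra hcon
      push Not at hcon
      nlinarith
    have h6 : Real.log (R' a).card ≤ Real.log R.card - 1 / B := by
      calc Real.log (R' a).card ≤ Real.log ((1 - 1 / B) * R.card) := Real.log_le_log h2 h4
        _ = Real.log (1 - 1 / B) + Real.log R.card := Real.log_mul h5.ne' h3.ne'
        _ ≤ (1 - 1 / B - 1) + Real.log R.card :=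
            add_le_add_left (Real.log_le_sub_one_of_pos h5) _
        _ = Real.log R.card - 1 / B := by ring
    have h7 : (M : ℝ) ≤ A * (1 / B) := by
      rw [mul_one_div, le_div_iff₀ (by linarith)]
      exact hA
    nlinarith
  set z : ℝ := A * (1 + Real.log R.card) - M with hz
  have hz0 : 0 ≤ z := by
    rw [hz]
    nlinarith
  have hrec : ∀ a, (R' a).Nonempty → MinSpec (R' a) ⌊z⌋₊ := by
    intro a ha
    have hlt : (R' a).card < R.card := by
      have h1 := hR'card a
      by_contra hcon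
      push Not at hcon
      have : B * R.card ≤ B * (R' a).card := Nat.mul_le_mul_left _ hcon
      omega
    obtain ⟨q, hq, hq'⟩ := ih (R' a) (hR'R a) (hR'lat a) ha hlt
    apply hq.mono
    apply Nat.le_floor
    have := hstep a ha
    rw [hz]
    linarith
  -- the algorithm
  have hbest : ∀ a : (Fin d → ℤ) → ℝ, ∃ x ∈ Q, ∀ y ∈ Q, a x ≤ a y :=
    fun a => Q.exists_min_image a hQne
  choose best hbestQ hbestmin using hbest
  have hrec' : ∀ a : (Fin d → ℤ) → ℝ, ∃ Ψ : ((Fin d → ℤ) → ℝ) → (Fin d → ℤ) × ℝ, Comp ⌊z⌋₊ Ψ ∧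
      ((∀ f, (∀ x ∈ Q, f x = a x) → (Ψ f).1 ∈ R ∧ (Ψ f).2 = f (Ψ f).1)) ∧
      ∀ f, (∀ x ∈ Q, f x = a x) → SubConv R f → ∀ w ∈ R, (Ψ f).2 ≤ f w := by
    intro a
    by_cases ha : (R' a).Nonempty
    · obtain ⟨Φ, h1, h2, h3⟩ := hrec a ha
      refine ⟨fun f => if a (best a) ≤ (Φ f).2 then (best a, a (best a)) else Φ f,
        h1.map (fun c => if a (best a) ≤ c.2 then (best a, a (best a)) else c), ?_, ?_⟩
      · intro f hf
        dsimp only
        split_ifs with h
        · exact ⟨hQR (hbestQ a), (hf _ (hbestQ a)).symm⟩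
        · exact ⟨hR'R a (h2 f).1, (h2 f).2⟩
      · intro f hf hconv w hw
        dsimp only
        by_cases hw' : w ∈ R' a
        · have h4 := h3 f (hconv.mono (hR'R a)) w hw'
          split_ifs with h
          · exact h.trans h4
          · exact h4
        · obtain ⟨c, hc, hcw⟩ := hR'min a f hf hconv w hw hw'
          have h5 : a (best a) ≤ f w := by
            refine le_trans (hbestmin a c hc) ?_
            rw [← hf c hc]
            exact hcw
          split_ifs with h
          · exact h5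
          · push Not at h
            exact h.le.trans h5
    · refine ⟨fun _ => (best a, a (best a)), Comp.const _ _, ?_, ?_⟩
      · intro f hf
        exact ⟨hQR (hbestQ a), (hf _ (hbestQ a)).symm⟩
      · intro f hf hconv w hw
        rw [Finset.not_nonempty_iff_eq_empty] at ha
        obtain ⟨c, hc, hcw⟩ := hR'min a f hf hconv w hw (by rw [ha]; simp)
        refine le_trans (hbestmin a c hc) ?_
        rw [← hf c hc]
        exact hcw
  choose Ψ hΨ1 hΨ2 hΨ3 using hrec'
  have hcomp := Comp.queries Q ⌊z⌋₊ Ψ hΨ1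
  refine ⟨Q.card + ⌊z⌋₊, ⟨_, hcomp, ?_, ?_⟩, ?_⟩
  · intro f
    apply hΨ2
    intro x hx
    simp [hx]
  · intro f hconv
    apply hΨ3 _ f _ hconv
    intro x hx
    simp [hx]
  · push_cast
    have h1 : ((Q.card : ℕ) : ℝ) ≤ M := by exact_mod_cast hQcard
    have h2 := Nat.floor_le hz0
    linarith

/-- The flat case of the recursion. -/
theorem flat_case (hd : 1 ≤ d) {R : Finset (Fin d → ℤ)} (F : Frame R) (hR : LatConv R)
    (hne : R.Nonempty) {k : ℕ} (hk : F.k ≤ k + 1)
    (hFat : ¬ F.Fat (1 / (512 * (d : ℝ) ^ 2))) (A : ℝ) (hA : 0 ≤ A)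
    (ih : ∀ R' ⊆ R, LatConv R' → R'.Nonempty → DimLE R' k →
      ∃ q : ℕ, MinSpec R' q ∧ (q : ℝ) ≤ A * (1 + Real.log R'.card)) :
    ∃ q : ℕ, MinSpec R q ∧
      (q : ℝ) ≤ (((1024 * d ^ 2) ^ d : ℕ) : ℝ) * A * (1 + Real.log R.card) := by
  classical
  set m : ℕ := 1024 * d ^ 2 with hm
  have hm1 : 1 ≤ m := by
    have : 1 ≤ d ^ 2 := Nat.one_le_pow _ _ hd
    omega
  have hmne : NeZero m := ⟨by omega⟩
  set ρ : ℝ := 1 / (512 * (d : ℝ) ^ 2) with hρ
  have hd' : (1 : ℝ) ≤ d := by exact_mod_cast hd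
  have hd0 : (0 : ℝ) < d := by linarith
  have hmρ : 2 / (m : ℝ) ≤ ρ := by
    rw [hm, hρ]
    push_cast
    apply le_of_eq
    field_simp
    norm_num
  set V' := span ℝ (F.short ρ) with hV'
  have hV'rank : finrank ℝ V' ≤ k := by
    have h1 : V' < span ℝ (Set.range (fun i => toR (F.v i))) :=
      lt_of_le_not_ge (F.short_subset ρ) hFat
    have h2 := Submodule.finrank_lt_finrank_of_lt h1
    have h3 : finrank ℝ (span ℝ (Set.range (fun i => toR (F.v i)))) = F.k := by
      rw [finrank_span_eq_card F.li]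
      simp
    omega
  let res : (Fin d → ℤ) → (Fin d → ZMod m) := fun x i => ((x i : ℤ) : ZMod m)
  let I := R.image res
  have hI : I.Nonempty := hne.image res
  have hIcard : I.card ≤ m ^ d := by
    refine (Finset.card_le_univ _).trans ?_
    rw [Fintype.card_fun, ZMod.card, Fintype.card_fin]
  let rep : (Fin d → ZMod m) → (Fin d → ℤ) := fun b =>
    if h : ∃ w ∈ R, res w = b then h.choose else F.x0
  have hrepR : ∀ b, rep b ∈ R := by
    intro b
    simp only [rep]
    split_ifs with h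
    · exact h.choose_spec.1
    · exact F.hx0
  have hrep : ∀ w ∈ R, res (rep (res w)) = res w := by
    intro w hw
    have h : ∃ w' ∈ R, res w' = res w := ⟨w, hw, rfl⟩
    simp only [rep, h, dif_pos]
    exact h.choose_spec.2
  let Rf : (Fin d → ZMod m) → Finset (Fin d → ℤ) := fun b =>
    R.filter (fun x => toR (x - rep b) ∈ V')
  have hRf : I.biUnion Rf = R := by
    ext x
    rw [Finset.mem_biUnion]
    constructor
    · rintro ⟨b, _, hx⟩
      exact (Finset.mem_filter.1 hx).1
    · intro hx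
      refine ⟨res x, Finset.mem_image.2 ⟨x, hx, rfl⟩, Finset.mem_filter.2 ⟨hx, ?_⟩⟩
      apply F.res_eq hm1 hmρ hx (hrepR _)
      intro i
      exact congrFun (hrep x hx).symm i
  have hlog := log_card_nonneg hne
  set z : ℝ := A * (1 + Real.log R.card) with hz
  have hz0 : 0 ≤ z := by positivity
  have hmin : ∀ b ∈ I, MinSpec (Rf b) ⌊z⌋₊ := by
    intro b hb
    have h1 : LatConv (Rf b) := by
      apply hR.filter {x | x - toR (rep b) ∈ V'}
      · intro x hx y hy s t _ _ hst
        simp only [Set.mem_ofPred_eq] at hx hy ⊢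
        have e : s • x + t • y - toR (rep b) =
            s • (x - toR (rep b)) + t • (y - toR (rep b)) := by
          have e2 : toR (rep b) = (s + t) • toR (rep b) := by rw [hst, one_smul]
          nth_rewrite 1 [e2]
          module
        rw [e]
        exact V'.add_mem (V'.smul_mem _ hx) (V'.smul_mem _ hy)
      · intro x _
        rw [toR_sub, Set.mem_ofPred_eq]
    have h2 : (Rf b).Nonempty := ⟨rep b, Finset.mem_filter.2 ⟨hrepR b, by
      rw [sub_self]
      have : toR (0 : Fin d → ℤ) = 0 := by funext i; simp [toR]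
      rw [this]
      exact V'.zero_mem⟩⟩
    have h3 : DimLE (Rf b) k := by
      refine ⟨V', hV'rank, fun x hx y hy => ?_⟩
      have e : toR (x - y) = toR (x - rep b) - toR (y - rep b) := by
        rw [← toR_sub]; congr 1; abel
      rw [e]
      exact V'.sub_mem (Finset.mem_filter.1 hx).2 (Finset.mem_filter.1 hy).2
    obtain ⟨q, hq, hq'⟩ := ih (Rf b) (Finset.filter_subset _ _) h1 h2 h3
    apply hq.mono
    apply Nat.le_floor
    refine hq'.trans ?_
    rw [hz]
    apply mul_le_mul_of_nonneg_left _ hA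
    have h4 : ((Rf b).card : ℝ) ≤ R.card := by
      exact_mod_cast Finset.card_le_card (Finset.filter_subset _ _)
    have h5 : (0 : ℝ) < (Rf b).card := by exact_mod_cast h2.card_pos
    linarith [Real.log_le_log h5 h4]
  have h1 := MinSpec.biUnion I Rf ⌊z⌋₊ hI hmin
  rw [hRf] at h1
  refine ⟨_, h1, ?_⟩
  push_cast
  have h2 : ((I.card : ℕ) : ℝ) ≤ ((m ^ d : ℕ) : ℝ) := by exact_mod_cast hIcard
  have h3 := Nat.floor_le hz0
  calc (I.card : ℝ) * (⌊z⌋₊ : ℝ) ≤ ((m ^ d : ℕ) : ℝ) * z :=
        mul_le_mul h2 h3 (Nat.cast_nonneg _) (by positivity)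
    _ = (m : ℝ) ^ d * A * (1 + Real.log R.card) := by
        rw [hz]; push_cast; ring

theorem minAlg (d : ℕ) : ∀ k : ℕ, ∃ A : ℝ, 0 < A ∧ ∀ R : Finset (Fin d → ℤ), LatConv R →
    R.Nonempty → DimLE R k → ∃ q : ℕ, MinSpec R q ∧ (q : ℝ) ≤ A * (1 + Real.log R.card) := by
  intro k
  induction k with
  | zero =>
    refine ⟨1, one_pos, fun R _ hne hdim => ⟨1, ?_, ?_⟩⟩
    · obtain ⟨W, hW, hRW⟩ := hdim
      obtain ⟨x, hx⟩ := hne
      have h1 : R = {x} := by
        ext y
        rw [Finset.mem_singleton]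
        constructor
        · intro hy
          have h2 := hRW y hy x hx
          have h3 : W = ⊥ := Submodule.finrank_eq_zero.1 (Nat.le_zero.1 hW)
          rw [h3, Submodule.mem_bot] at h2
          have h4 : toR y = toR x := by
            rw [toR_sub] at h2
            exact sub_eq_zero.1 h2
          exact toR_injective h4
        · rintro rfl
          exact hx
      rw [h1]
      exact MinSpec.singleton x
    · have := log_card_nonneg hne
      push_cast
      linarith
  | succ k ihk =>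
    obtain ⟨A, hA, hAk⟩ := ihk
    set A' : ℝ := ((2 ^ d + (256 * d + 1) ^ d : ℕ) : ℝ) * ((64 * d + 1) ^ d : ℕ) +
      ((((1024 * d ^ 2) ^ d : ℕ) : ℝ) * A + A) with hA'
    have hA'pos : 0 < A' := by positivity
    have hA'1 : ((2 ^ d + (256 * d + 1) ^ d : ℕ) : ℝ) * ((64 * d + 1) ^ d : ℕ) ≤ A' := by
      rw [hA']
      have : 0 ≤ (((1024 * d ^ 2) ^ d : ℕ) : ℝ) * A + A := by positivity
      linarith
    have hA'2 : (((1024 * d ^ 2) ^ d : ℕ) : ℝ) * A ≤ A' := by
      rw [hA']
      have : 0 ≤ ((2 ^ d + (256 * d + 1) ^ d : ℕ) : ℝ) * ((64 * d + 1) ^ d : ℕ) := by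
        positivity
      linarith
    have hA'3 : A ≤ A' := by
      rw [hA']
      have : 0 ≤ ((2 ^ d + (256 * d + 1) ^ d : ℕ) : ℝ) * ((64 * d + 1) ^ d : ℕ) := by
        positivity
      have : 0 ≤ (((1024 * d ^ 2) ^ d : ℕ) : ℝ) * A := by positivity
      linarith
    refine ⟨A', hA'pos, ?_⟩
    -- strong induction on the size of `R`
    have main : ∀ N : ℕ, ∀ R : Finset (Fin d → ℤ), R.card = N → LatConv R →
        R.Nonempty → DimLE R (k + 1) →
        ∃ q : ℕ, MinSpec R q ∧ (q : ℝ) ≤ A' * (1 + Real.log R.card) := by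
      intro N
      induction N using Nat.strong_induction_on with
      | _ N ihN =>
        intro R hRN hR hne hdim
        have hlog := log_card_nonneg hne
        rcases Nat.eq_zero_or_pos d with hd0 | hd
        · have h1 : DimLE R k := by
            refine ⟨⊤, ?_, fun _ _ _ _ => Submodule.mem_top⟩
            subst hd0
            simp
          obtain ⟨q, hq, hq'⟩ := hAk R hR hne h1
          refine ⟨q, hq, hq'.trans ?_⟩
          exact mul_le_mul_of_nonneg_right hA'3 (by linarith)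
        · obtain ⟨F, hF⟩ := exists_frame R hne (k + 1) hdim
          by_cases hFat : F.Fat (1 / (512 * (d : ℝ) ^ 2))
          · apply fat_case hd F hR hne hFat A' hA'1
            intro R' hR'R hR' hne' hlt
            refine ihN R'.card (hRN ▸ hlt) R' rfl hR' hne' ?_
            obtain ⟨W, hW, hRW⟩ := hdim
            exact ⟨W, hW, fun x hx y hy => hRW x (hR'R hx) y (hR'R hy)⟩
          · obtain ⟨q, hq, hq'⟩ := flat_case hd F hR hne hF hFat A hA.le
              (fun R' _ hR' hne' hdim' => hAk R' hR' hne' hdim')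
            refine ⟨q, hq, hq'.trans ?_⟩
            exact mul_le_mul_of_nonneg_right hA'2 (by linarith)
    intro R hR hne hdim
    exact main R.card R rfl hR hne hdim

theorem exists_minAlg (d : ℕ) : ∃ A : ℝ, 0 < A ∧ ∀ R : Finset (Fin d → ℤ), LatConv R →
    R.Nonempty → ∃ q : ℕ, MinSpec R q ∧ (q : ℝ) ≤ A * (1 + Real.log R.card) := by
  obtain ⟨A, hA, h⟩ := minAlg d d
  refine ⟨A, hA, fun R hR hne => h R hR hne ⟨⊤, ?_, fun _ _ _ _ => Submodule.mem_top⟩⟩
  simp

end Pool.Agent.H.MP_f23a5d_lc
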