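import Pool.Agent.H.MP_f23a5d_lc.SubAlg

set_option autoImplicit false

namespace Pool.Agent.H.MP_f23a5d_lc

variable {d : ℕ}

/-- The value at `w` of the affine function with slope `o.1` and value `o.2` at `z`. -/
noncomputable def lin (z : Fin d → ℤ) (o : (Fin d → ℝ) × ℝ) (w : Fin d → ℤ) : ℝ :=
  o.2 + o.1 ⬝ᵥ toR (w - z)

theorem lin_self (z : Fin d → ℤ) (o : (Fin d → ℝ) × ℝ) : lin z o z = o.2 := by
  have : toR (0 : Fin d → ℤ) = 0 := by funext i; simp [toR]
  simp [lin, this]

theorem lin_mid (z : Fin d → ℤ) (o : (Fin d → ℝ) × ℝ) (c x : Fin d → ℤ) :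
    lin z o x + lin z o ((2 : ℤ) • c - x) = 2 * lin z o c := by
  have e : toR ((2 : ℤ) • c - x - z) = (2 : ℝ) • toR (c - z) - toR (x - z) := by
    funext i
    simp [toR]
    ring
  simp only [lin, e, dotProduct_sub, dotProduct_smul, smul_eq_mul]
  ring

/-- The new region after the centre `c`. -/
noncomputable def upd (η : ℝ) (z : Fin d → ℤ) (o : (Fin d → ℝ) × ℝ) (c : Fin d → ℤ)
    (oc : (Fin d → ℝ) × ℝ) (R : Finset (Fin d → ℤ)) : Finset (Fin d → ℤ) :=
  R.filter (fun w => lin c oc w ≤ lin z o w - 2 * η)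

theorem upd_subset (η : ℝ) (z : Fin d → ℤ) (o : (Fin d → ℝ) × ℝ) (c : Fin d → ℤ)
    (oc : (Fin d → ℝ) × ℝ) (R : Finset (Fin d → ℤ)) : upd η z o c oc R ⊆ R :=
  Finset.filter_subset _ _

theorem latConv_upd {η : ℝ} {z : Fin d → ℤ} {o : (Fin d → ℝ) × ℝ} {c : Fin d → ℤ}
    {oc : (Fin d → ℝ) × ℝ} {R : Finset (Fin d → ℤ)} (hR : LatConv R) :
    LatConv (upd η z o c oc R) := by
  apply hR.filter {x | (oc.1 - o.1) ⬝ᵥ x ≤
    o.2 - 2 * η - oc.2 + oc.1 ⬝ᵥ toR c - o.1 ⬝ᵥ toR z} (convex_dot_le _ _)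
  intro x _
  simp only [lin, toR_sub, dotProduct_sub, sub_dotProduct, Set.mem_ofPred_eq]
  constructor <;> intro h <;> linarith

/-- The result of one step, given the answer of the oracle at `c`. -/
noncomputable def inner (η : ℝ) (ek : ((Fin d → ℤ) → ℝ) → ℝ) (z : Fin d → ℤ)
    (o : (Fin d → ℝ) × ℝ) (c y : Fin d → ℤ)
    (next : (Fin d → ℝ) × ℝ → ((Fin d → ℤ) → ℝ) → ℝ) :
    Option ((Fin d → ℝ) × ℝ) → ((Fin d → ℤ) → ℝ) → ℝ
  | none, _ => 1
  | some oc, f => if oc.2 + η < lin z o c then 1 else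
      if f y + η < lin c oc y then 1 else ek f + (1 - ek f) * next oc f

/-- The rejection probability of the descent process. -/
noncomputable def proc (O : (Fin d → ℤ) → ((Fin d → ℤ) → ℝ) → Option ((Fin d → ℝ) × ℝ))
    (η : ℝ) (ek : (Fin d → ℤ) → ((Fin d → ℤ) → ℝ) → ℝ) (z : Fin d → ℤ)
    (o : (Fin d → ℝ) × ℝ) : ℕ → Finset (Fin d → ℤ) → ((Fin d → ℤ) → ℝ) → ℝ
  | 0, _, _ => 0
  | m + 1, R, f => (∑ c ∈ R, (∑ y ∈ R, inner η (ek c) z o c y
      (fun oc f => proc O η ek z o m (upd η z o c oc R) f) (O c f) f) / (R.card : ℝ)) /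
        (R.card : ℝ)

/-- Auxiliary: combine the oracle answer with the lower level and the process. -/
noncomputable def comb (a : ((Fin d → ℤ) → ℝ) → ℝ)
    (b : (Fin d → ℝ) × ℝ → ((Fin d → ℤ) → ℝ) → ℝ) :
    Option ((Fin d → ℝ) × ℝ) → ((Fin d → ℤ) → ℝ) → ℝ
  | none, _ => 1
  | some o, f => a f + (1 - a f) * b o f

/-- The rejection probability of the level `k` test at the point `z`. -/
noncomputable def rej (O : (Fin d → ℤ) → ((Fin d → ℤ) → ℝ) → Option ((Fin d → ℝ) × ℝ))
    (η : ℝ) (X : Finset (Fin d → ℤ)) (T : ℕ) :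
    ℕ → (Fin d → ℤ) → ((Fin d → ℤ) → ℝ) → ℝ
  | 0, z, f => comb (fun _ => 0) (fun _ _ => 0) (O z f) f
  | k + 1, z, f => comb (rej O η X T k z)
      (fun o f => proc O η (rej O η X T k) z o T X f) (O z f) f

section cost

variable {O : (Fin d → ℤ) → ((Fin d → ℤ) → ℝ) → Option ((Fin d → ℝ) × ℝ)} {η : ℝ}
  {X : Finset (Fin d → ℤ)} {T q : ℕ}

theorem rcomp_inner {ek next} {c₁ c₂ : ℕ} {z : Fin d → ℤ} {o : (Fin d → ℝ) × ℝ}
    {c y : Fin d → ℤ} (hek : RComp c₁ ek)
    (hnext : ∀ oc, RComp c₂ (next oc)) (ob : Option ((Fin d → ℝ) × ℝ)) :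
    RComp (1 + (c₁ + c₂)) (inner η ek z o c y next ob) := by
  cases ob with
  | none => exact RComp.rej _
  | some oc =>
    by_cases h : oc.2 + η < lin z o c
    · have : inner η ek z o c y next (some oc) = fun _ => 1 := by
        funext f; simp [inner, h]
      rw [this]
      exact RComp.rej _
    · have : inner η ek z o c y next (some oc) = fun f =>
          (fun r f => if r + η < lin c oc y then 1 else ek f + (1 - ek f) * next oc f)
            (f y) f := by
        funext f; simp [inner, h]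
      rw [this]
      apply (Comp.val y).bindR
        (fun r f => if r + η < lin c oc y then 1 else ek f + (1 - ek f) * next oc f)
      intro r
      by_cases hr : r + η < lin c oc y
      · simp only [hr, if_true]
        exact RComp.rej _
      · simp only [hr, if_false]
        exact hek.or (hnext oc)

theorem rcomp_proc (hO : ∀ c ∈ X, Comp q (O c)) {ek : (Fin d → ℤ) → ((Fin d → ℤ) → ℝ) → ℝ}
    {c₁ : ℕ} (hek : ∀ c ∈ X, RComp c₁ (ek c)) (z : Fin d → ℤ) (o : (Fin d → ℝ) × ℝ) (m : ℕ) :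
    ∀ R ⊆ X, RComp (m * (q + 1 + c₁)) (proc O η ek z o m R) := by
  induction m with
  | zero =>
    intro R _
    exact RComp.acc _
  | succ m ih =>
    intro R hR
    by_cases hne : R.Nonempty
    · have h1 : ∀ c ∈ R, ∀ y ∈ R, RComp ((m + 1) * (q + 1 + c₁)) (fun f => inner η (ek c) z o c y
          (fun oc f => proc O η ek z o m (upd η z o c oc R) f) (O c f) f) := by
        intro c hc y _
        have h2 := (hO c (hR hc)).bindR (fun ob f => inner η (ek c) z o c y
          (fun oc f => proc O η ek z o m (upd η z o c oc R) f) ob f)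
          (fun ob => rcomp_inner (hek c (hR hc))
            (fun oc => ih (upd η z o c oc R) ((upd_subset _ _ _ _ _ _).trans hR)) ob)
        exact h2.mono (by ring_nf; omega)
      exact RComp.avg R hne _ (fun c hc => RComp.avg R hne _ (fun y hy => h1 c hc y hy))
    · rw [Finset.not_nonempty_iff_eq_empty] at hne
      subst hne
      have : proc O η ek z o (m + 1) ∅ = fun _ => 0 := by
        funext f; simp [proc]
      rw [this]
      exact RComp.acc _

theorem rcomp_comb {a b} {c₁ c₂ : ℕ} (ha : RComp c₁ a)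
    (hb : ∀ o, RComp c₂ (b o)) (ob : Option ((Fin d → ℝ) × ℝ)) :
    RComp (c₁ + c₂) (comb (d := d) a b ob) := by
  cases ob with
  | none => exact RComp.rej _
  | some o => exact ha.or (hb o)

/-- The number of queries of the level `k` test. -/
def cost (q T : ℕ) : ℕ → ℕ
  | 0 => q
  | k + 1 => q + (cost q T k + T * (q + 1 + cost q T k))

theorem rcomp_rej (hO : ∀ c ∈ X, Comp q (O c)) (k : ℕ) :
    ∀ z ∈ X, RComp (cost q T k) (rej O η X T k z) := by
  induction k with
  | zero =>
    intro z hz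
    have h := (hO z hz).bindR (fun ob f => comb (fun _ => 0) (fun _ _ => 0) ob f)
      (fun ob => rcomp_comb (RComp.acc 0) (fun _ => RComp.acc 0) ob)
    exact h.mono (by simp [cost])
  | succ k ih =>
    intro z hz
    exact (hO z hz).bindR (fun ob f => comb (rej O η X T k z)
      (fun o f => proc O η (rej O η X T k) z o T X f) ob f)
      (fun ob => rcomp_comb (ih z hz)
        (fun o => rcomp_proc hO ih z o T X (Finset.Subset.refl _)) ob)

theorem cost_le (q T k : ℕ) : cost q T k + q + 1 ≤ (T + 2) ^ k * (2 * q + 1) := by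
  induction k with
  | zero => simp [cost]; omega
  | succ k ih =>
    have h1 : cost q T (k + 1) + q + 1 ≤ (T + 2) * (cost q T k + q + 1) := by
      simp only [cost]
      nlinarith
    calc cost q T (k + 1) + q + 1 ≤ (T + 2) * (cost q T k + q + 1) := h1
      _ ≤ (T + 2) * ((T + 2) ^ k * (2 * q + 1)) := Nat.mul_le_mul_left _ ih
      _ = (T + 2) ^ (k + 1) * (2 * q + 1) := by ring

end cost

end Pool.Agent.H.MP_f23a5d_lc
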