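import Pool.Agent.H.MP_f23a5d_lc.MinAlg

set_option autoImplicit false

namespace Pool.Agent.H.MP_f23a5d_lc

open Module Submodule

variable {d : ℕ}

/-- `p` is an `η`-approximate subgradient of `f` on `R` at `z`. -/
def Valid (R : Finset (Fin d → ℤ)) (f : (Fin d → ℤ) → ℝ) (z : Fin d → ℤ) (p : Fin d → ℝ)
    (η : ℝ) : Prop := ∀ w ∈ R, f z + p ⬝ᵥ toR (w - z) ≤ f w + η

theorem smul_toR_dot (ς : ℝ) (a : Fin d → ℤ) (x : Fin d → ℝ) :
    (ς • toR a) ⬝ᵥ x = (ς • x) ⬝ᵥ toR a := by
  rw [smul_dotProduct, smul_dotProduct, dotProduct_comm]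

theorem SubConv.sub_lin {R : Finset (Fin d → ℤ)} {f : (Fin d → ℤ) → ℝ} (h : SubConv R f)
    (p : Fin d → ℝ) : SubConv R (fun x => f x - p ⬝ᵥ toR x) := by
  intro z hz
  obtain ⟨q, hq⟩ := h z hz
  refine ⟨q - p, fun w hw => ?_⟩
  have h1 := hq w hw
  rw [sub_dotProduct, toR_sub, dotProduct_sub, dotProduct_sub]
  rw [toR_sub, dotProduct_sub] at h1
  linarith

/-- One round after another of a cutting plane method in the space of slopes. -/
theorem sgAlg {R : Finset (Fin d → ℤ)} {q : ℕ} (hmin : MinSpec R q) (z : Fin d → ℤ)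
    {ς η : ℝ} (hη : 0 < η) (r : ℝ) : ∀ N : ℕ, ∀ P : Finset (Fin d → ℤ), P.card = N → LatConv P →
      P.Nonempty →
      ∃ q' : ℕ, (q' : ℝ) ≤ q * (1 + 2 ^ (d + 1) * Real.log P.card) ∧
      ∃ Φ : ((Fin d → ℤ) → ℝ) → Option (Fin d → ℤ), Comp q' Φ ∧
        ∀ f, f z = r → SubConv R f → (∃ a ∈ P, Valid R f z (ς • toR a) (η / 2)) →
          ∃ a, Φ f = some a ∧ Valid R f z (ς • toR a) η := by
  classical
  obtain ⟨Ψ, hΨc, hΨv, hΨm⟩ := hmin
  intro N
  induction N using Nat.strong_induction_on with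
  | _ N ih =>
    intro P hPN hP hne
    obtain ⟨c, hcP, hc⟩ := exists_deep hP hne
    -- the set of remaining slopes
    let S : (Fin d → ℤ) × ℝ → Finset (Fin d → ℤ) := fun b =>
      P.filter (fun a => (ς • toR a) ⬝ᵥ toR (b.1 - z) ≤
        b.2 + (ς • toR c) ⬝ᵥ toR b.1 - r + η / 2)
    have hSlat : ∀ b, LatConv (S b) := by
      intro b
      apply hP.filter {x | (ς • toR (b.1 - z)) ⬝ᵥ x ≤ b.2 + (ς • toR c) ⬝ᵥ toR b.1 - r + η / 2}
        (convex_dot_le _ _)
      intro x _
      rw [smul_toR_dot, Set.mem_ofPred_eq]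
    have hP0 : (0 : ℝ) < P.card := by exact_mod_cast hne.card_pos
    have hlogP := log_card_nonneg hne
    have hScard : ∀ b : (Fin d → ℤ) × ℝ, b.2 < r - (ς • toR c) ⬝ᵥ toR z - η →
        2 ^ (d + 1) * (S b).card + P.card ≤ 2 ^ (d + 1) * P.card := by
      intro b hb
      have h1 := half_card P c (fun a => (ς • toR a) ⬝ᵥ toR (b.1 - z) -
        (b.2 + (ς • toR c) ⬝ᵥ toR b.1 - r + η / 2)) (by
          intro x
          have e : toR ((2 : ℤ) • c - x) = (2 : ℝ) • toR c - toR x := by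
            rw [toR_sub, toR_zsmul]; norm_num
          rw [e]
          simp only [smul_dotProduct, sub_dotProduct, smul_eq_mul]
          ring) (by
          have e : (ς • toR c) ⬝ᵥ toR (b.1 - z) =
              (ς • toR c) ⬝ᵥ toR b.1 - (ς • toR c) ⬝ᵥ toR z := by
            rw [toR_sub, dotProduct_sub]
          rw [e]
          linarith) (S b) (Finset.filter_subset _ _) (by
          intro x hx
          have := (Finset.mem_filter.1 hx).2
          linarith)
      have h2 : 2 ^ (d + 1) = 2 * 2 ^ d := by ring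
      rw [h2]
      have h3 : 2 ^ d * (2 * (S b).card + (symPart P c).card) ≤ 2 ^ d * (2 * P.card) :=
        Nat.mul_le_mul_left _ h1
      nlinarith
    -- the budget of the recursive call
    set y : ℝ := q * (1 + 2 ^ (d + 1) * Real.log P.card) - q with hy
    have hy0 : 0 ≤ y := by
      have : 0 ≤ (q : ℝ) * (2 ^ (d + 1) * Real.log P.card) := by positivity
      rw [hy]; linarith
    have hrec : ∀ b : (Fin d → ℤ) × ℝ, b.2 < r - (ς • toR c) ⬝ᵥ toR z - η →
        ∃ Φ : ((Fin d → ℤ) → ℝ) → Option (Fin d → ℤ), Comp ⌊y⌋₊ Φ ∧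
        ∀ f, f z = r → SubConv R f → (∃ a ∈ S b, Valid R f z (ς • toR a) (η / 2)) →
          ∃ a, Φ f = some a ∧ Valid R f z (ς • toR a) η := by
      intro b hb
      by_cases hSne : (S b).Nonempty
      · have h1 := hScard b hb
        have hlt : (S b).card < N := by
          rw [← hPN]
          by_contra hcon
          push Not at hcon
          have : 2 ^ (d + 1) * P.card ≤ 2 ^ (d + 1) * (S b).card :=
            Nat.mul_le_mul_left _ hcon
          have := hne.card_pos
          omega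
        obtain ⟨q', hq', Φ, hΦc, hΦ⟩ := ih _ hlt (S b) rfl (hSlat b) hSne
        refine ⟨Φ, hΦc.mono (Nat.le_floor (hq'.trans ?_)), hΦ⟩
        have h2 : ((2 : ℝ) ^ (d + 1)) * (S b).card + P.card ≤ 2 ^ (d + 1) * P.card := by
          exact_mod_cast h1
        have hS0 : (0 : ℝ) < (S b).card := by exact_mod_cast hSne.card_pos
        have hpow : (0 : ℝ) < 2 ^ (d + 1) := by positivity
        have h5 : 0 < 1 - 1 / (2 : ℝ) ^ (d + 1) := by
          have h6 : (2 : ℝ) ≤ 2 ^ (d + 1) := by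
            calc (2 : ℝ) = 2 ^ 1 := (pow_one _).symm
              _ ≤ 2 ^ (d + 1) := pow_le_pow_right₀ (by norm_num) (by omega)
          have h7 : 1 / (2 : ℝ) ^ (d + 1) ≤ 1 / 2 :=
            one_div_le_one_div_of_le (by norm_num) h6
          linarith
        have h4 : ((S b).card : ℝ) ≤ (1 - 1 / 2 ^ (d + 1)) * P.card := by
          have e : ((1 - 1 / (2 : ℝ) ^ (d + 1)) * P.card) * 2 ^ (d + 1) =
              2 ^ (d + 1) * P.card - P.card := by
            field_simp
          have : ((S b).card : ℝ) * 2 ^ (d + 1) ≤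
              ((1 - 1 / (2 : ℝ) ^ (d + 1)) * P.card) * 2 ^ (d + 1) := by
            rw [e]; linarith
          exact le_of_mul_le_mul_right this hpow
        have h6 : Real.log (S b).card ≤ Real.log P.card - 1 / 2 ^ (d + 1) := by
          calc Real.log (S b).card ≤ Real.log ((1 - 1 / 2 ^ (d + 1)) * P.card) :=
                Real.log_le_log hS0 h4
            _ = Real.log (1 - 1 / 2 ^ (d + 1)) + Real.log P.card :=
                Real.log_mul h5.ne' hP0.ne'
            _ ≤ (1 - 1 / 2 ^ (d + 1) - 1) + Real.log P.card :=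
                add_le_add_left (Real.log_le_sub_one_of_pos h5) _
            _ = Real.log P.card - 1 / 2 ^ (d + 1) := by ring
        have h7 : 2 ^ (d + 1) * Real.log (S b).card ≤ 2 ^ (d + 1) * Real.log P.card - 1 := by
          calc 2 ^ (d + 1) * Real.log (S b).card
              ≤ 2 ^ (d + 1) * (Real.log P.card - 1 / 2 ^ (d + 1)) :=
                mul_le_mul_of_nonneg_left h6 hpow.le
            _ = 2 ^ (d + 1) * Real.log P.card - 1 := by
                rw [mul_sub]; field_simp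
        have hq0 : (0 : ℝ) ≤ q := Nat.cast_nonneg q
        rw [hy]
        nlinarith
      · refine ⟨fun _ => none, Comp.const _ _, ?_⟩
        rintro f - - ⟨a, ha, -⟩
        exact absurd ⟨a, ha⟩ hSne
    choose! Φ' hΦ'c hΦ' using hrec
    refine ⟨q + ⌊y⌋₊, ?_, fun f => (fun b : (Fin d → ℤ) × ℝ => fun f =>
      if b.2 < r - (ς • toR c) ⬝ᵥ toR z - η then Φ' b f else some c)
      (Ψ (fun x => f x - (ς • toR c) ⬝ᵥ toR x)) f, ?_, ?_⟩
    · push_cast
      have := Nat.floor_le hy0
      rw [hy] at this ⊢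
      linarith
    · have h1 : Comp q (fun f : (Fin d → ℤ) → ℝ =>
          Ψ (fun x => f x - (ς • toR c) ⬝ᵥ toR x)) :=
        hΨc.comap (fun x => x) (fun x => (ς • toR c) ⬝ᵥ toR x)
      apply h1.bind (fun b : (Fin d → ℤ) × ℝ => fun f =>
        if b.2 < r - (ς • toR c) ⬝ᵥ toR z - η then Φ' b f else some c)
      intro b
      by_cases hb : b.2 < r - (ς • toR c) ⬝ᵥ toR z - η
      · simp only [hb, if_true]
        exact hΦ'c b hb
      · simp only [hb, if_false]
        exact Comp.const _ _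
    · intro f hfz hconv ⟨a, haP, ha⟩
      set g : (Fin d → ℤ) → ℝ := fun x => f x - (ς • toR c) ⬝ᵥ toR x with hg
      set b := Ψ g with hb
      have hb1 := hΨv g
      have hgconv : SubConv R g := hconv.sub_lin _
      have hb2 := hΨm g hgconv
      rw [← hb] at hb1 hb2
      have hfb : f b.1 = b.2 + (ς • toR c) ⬝ᵥ toR b.1 := by
        rw [hb1.2, hg]; ring
      change ∃ a', (if b.2 < r - (ς • toR c) ⬝ᵥ toR z - η then Φ' b f else some c) = some a' ∧
        Valid R f z (ς • toR a') η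
      by_cases hlt : b.2 < r - (ς • toR c) ⬝ᵥ toR z - η
      · rw [if_pos hlt]
        apply hΦ' b hlt f hfz hconv
        refine ⟨a, Finset.mem_filter.2 ⟨haP, ?_⟩, ha⟩
        have h1 := ha b.1 hb1.1
        rw [hfb, hfz] at h1
        linarith
      · rw [if_neg hlt]
        refine ⟨c, rfl, fun w hw => ?_⟩
        push Not at hlt
        have h1 := hb2 w hw
        rw [hg] at h1
        simp only at h1
        rw [toR_sub, dotProduct_sub, hfz]
        linarith

/-- The grid `{0, ..., n-1}^d`. -/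
noncomputable def Box (d n : ℕ) : Finset (Fin d → ℤ) := Fintype.piFinset (fun _ => Finset.Ico 0 (n : ℤ))

theorem mem_Box {n : ℕ} {x : Fin d → ℤ} : x ∈ Box d n ↔ ∀ i, 0 ≤ x i ∧ x i < n := by
  simp [Box, Fintype.mem_piFinset]

theorem card_Box (d n : ℕ) : (Box d n).card = n ^ d := by
  simp [Box, Fintype.card_piFinset]

theorem Box_nonempty (d : ℕ) {n : ℕ} (hn : 1 ≤ n) : (Box d n).Nonempty :=
  ⟨0, mem_Box.2 fun i => ⟨le_refl _, by simp; omega⟩⟩

theorem latConv_piIcc (a b : ℤ) :
    LatConv (Fintype.piFinset (fun _ : Fin d => Finset.Icc a b)) := by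
  refine ⟨Set.Icc (fun _ => (a : ℝ)) (fun _ => (b : ℝ)), convex_Icc _ _, fun x => ?_⟩
  rw [Fintype.mem_piFinset, Set.mem_Icc, Pi.le_def, Pi.le_def]
  constructor
  · intro h
    constructor
    · intro i
      have := (Finset.mem_Icc.1 (h i)).1
      simp only [toR]
      exact_mod_cast this
    · intro i
      have := (Finset.mem_Icc.1 (h i)).2
      simp only [toR]
      exact_mod_cast this
  · rintro ⟨h1, h2⟩ i
    rw [Finset.mem_Icc]
    constructor
    · have := h1 i
      simp only [toR] at this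
      exact_mod_cast this
    · have := h2 i
      simp only [toR] at this
      exact_mod_cast this

theorem latConv_Box (d n : ℕ) : LatConv (Box d n) := by
  have h : Box d n = Fintype.piFinset (fun _ : Fin d => Finset.Icc (0 : ℤ) (n - 1)) := by
    ext x
    rw [mem_Box, Fintype.mem_piFinset]
    constructor
    · intro h i
      rw [Finset.mem_Icc]
      have := h i
      omega
    · intro h i
      have := Finset.mem_Icc.1 (h i)
      omega
  rw [h]
  exact latConv_piIcc _ _

/-- `f` has bounded subgradients on the grid. -/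
def BddSub (n : ℕ) (f : (Fin d → ℤ) → ℝ) : Prop :=
  ∀ z ∈ Box d n, ∃ p : Fin d → ℝ, (∀ i, |p i| ≤ d * n + 1) ∧
    ∀ w ∈ Box d n, f z + p ⬝ᵥ toR (w - z) ≤ f w

theorem BddSub.subConv {n : ℕ} {f : (Fin d → ℤ) → ℝ} (h : BddSub n f) :
    SubConv (Box d n) f := by
  intro z hz
  obtain ⟨p, -, hp⟩ := h z hz
  exact ⟨p, hp⟩

theorem box_abs_sub {n : ℕ} {w z : Fin d → ℤ} (hw : w ∈ Box d n) (hz : z ∈ Box d n)
    (i : Fin d) : |toR (w - z) i| ≤ n := by
  have h1 := mem_Box.1 hw i
  have h2 := mem_Box.1 hz i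
  simp only [toR, Pi.sub_apply]
  have h3 : |w i - z i| ≤ (n : ℤ) := by
    rw [abs_le]; omega
  exact_mod_cast h3

/-- Rounding a bounded subgradient to a grid of slopes. -/
theorem exists_rounded {n : ℕ} {f : (Fin d → ℤ) → ℝ} {z : Fin d → ℤ}
    (hz : z ∈ Box d n) {η ς B : ℝ} (hς : 0 < ς) (hςη : ς * (d * n) ≤ η)
    (p : Fin d → ℝ) (hpB : ∀ i, |p i| ≤ B)
    (hp : ∀ w ∈ Box d n, f z + p ⬝ᵥ toR (w - z) ≤ f w) (m : ℕ) (hm : B / ς + 1 ≤ m) :
    ∃ a ∈ Fintype.piFinset (fun _ : Fin d => Finset.Icc (-(m : ℤ)) m),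
      Valid (Box d n) f z (ς • toR a) η := by
  refine ⟨fun i => ⌊p i / ς⌋, ?_, ?_⟩
  · rw [Fintype.mem_piFinset]
    intro i
    have h1 := abs_le.1 (hpB i)
    have h2 : p i / ς ≤ B / ς := div_le_div_of_nonneg_right h1.2 hς.le
    have h3 : -(B / ς) ≤ p i / ς := by
      rw [← neg_div]; exact div_le_div_of_nonneg_right h1.1 hς.le
    rw [Finset.mem_Icc]
    constructor
    · rw [Int.le_floor]; push_cast; linarith
    · rw [← Int.cast_le (R := ℝ)]
      push_cast
      linarith [Int.floor_le (p i / ς)]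
  · intro w hw
    have h1 := hp w hw
    have h2 : (ς • toR (fun i => ⌊p i / ς⌋)) ⬝ᵥ toR (w - z) - p ⬝ᵥ toR (w - z) ≤ η := by
      rw [← sub_dotProduct]
      calc (ς • toR (fun i => ⌊p i / ς⌋) - p) ⬝ᵥ toR (w - z)
          = ∑ i, (ς * (⌊p i / ς⌋ : ℝ) - p i) * toR (w - z) i := rfl
        _ ≤ ∑ _i : Fin d, ς * n := by
            apply Finset.sum_le_sum
            intro i _
            have e1 : |ς * (⌊p i / ς⌋ : ℝ) - p i| ≤ ς := by
              have e2 := Int.floor_le (p i / ς)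
              have e3 := Int.lt_floor_add_one (p i / ς)
              rw [le_div_iff₀ hς] at e2
              rw [div_lt_iff₀ hς] at e3
              rw [abs_le]
              constructor
              · nlinarith
              · nlinarith
            have e2 := box_abs_sub hw hz i
            calc (ς * (⌊p i / ς⌋ : ℝ) - p i) * toR (w - z) i
                ≤ |(ς * (⌊p i / ς⌋ : ℝ) - p i) * toR (w - z) i| := le_abs_self _
              _ = |ς * (⌊p i / ς⌋ : ℝ) - p i| * |toR (w - z) i| := abs_mul _ _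
              _ ≤ ς * n := mul_le_mul e1 e2 (abs_nonneg _) hς.le
        _ = ς * (d * n) := by simp; ring
        _ ≤ η := hςη
    linarith

/-- The subgradient oracle: with few queries one finds, for a convex function, an approximate
subgradient at a given point of the grid. -/
theorem exists_sgAlg (d : ℕ) : ∃ C : ℝ, 0 < C ∧ ∀ n : ℕ, 1 ≤ n → ∀ η : ℝ, 0 < η → η ≤ 1 →
    ∃ q : ℕ, (q : ℝ) ≤ C * (1 + Real.log n + Real.log (1 / η)) ^ 2 ∧
      ∀ z ∈ Box d n, ∃ Φ : ((Fin d → ℤ) → ℝ) → Option ((Fin d → ℝ) × ℝ), Comp q Φ ∧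
        (∀ f p r, Φ f = some (p, r) → r = f z ∧
          ∀ w ∈ Box d n, r + p ⬝ᵥ toR (w - z) ≤ 1 + η) ∧
        (∀ f, (∀ x ∈ Box d n, f x ≤ 1) → BddSub n f →
          ∃ p, Φ f = some (p, f z) ∧ Valid (Box d n) f z p η) := by
  classical
  obtain ⟨A, hA, hmin⟩ := exists_minAlg d
  set Cd : ℝ := 1 + 1 * (1 + A * (1 + d)) * (1 + 2 ^ (d + 1) *
    (d * (2 + Real.log (16 * (d + 1) ^ 2)))) with hCd
  have hlog16 : 0 ≤ Real.log (16 * ((d : ℝ) + 1) ^ 2) := by
    apply Real.log_nonneg
    have : (1 : ℝ) ≤ (d : ℝ) + 1 := by linarith [Nat.cast_nonneg (α := ℝ) d]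
    nlinarith
  have hCdpos : 0 < Cd := by positivity
  refine ⟨Cd, hCdpos, fun n hn η hη hη1 => ?_⟩
  have hnr : (1 : ℝ) ≤ n := by exact_mod_cast hn
  have hn0 : (0 : ℝ) < n := by linarith
  have hlogn : 0 ≤ Real.log n := Real.log_nonneg hnr
  have hlogη : 0 ≤ Real.log (1 / η) := by
    apply Real.log_nonneg
    rw [le_div_iff₀ hη]; linarith
  set Lg : ℝ := 1 + Real.log n + Real.log (1 / η) with hLg
  have hLg1 : 1 ≤ Lg := by linarith
  have hd0 : (0 : ℝ) ≤ d := Nat.cast_nonneg d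
  obtain ⟨q, hq, hq'⟩ := hmin (Box d n) (latConv_Box d n) (Box_nonempty d hn)
  rw [card_Box] at hq'
  push_cast at hq'
  rw [Real.log_pow] at hq'
  have hqLg : (q : ℝ) ≤ (1 + A * (1 + d)) * Lg := by
    refine hq'.trans ?_
    have h1 : 1 + d * Real.log n ≤ (1 + d) * Lg := by nlinarith
    calc A * (1 + d * Real.log n) ≤ A * ((1 + d) * Lg) := mul_le_mul_of_nonneg_left h1 hA.le
      _ ≤ (1 + A * (1 + d)) * Lg := by nlinarith
  -- the grid of slopes
  set ς : ℝ := η / (2 * (d + 1) * n) with hς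
  have hςpos : 0 < ς := by positivity
  set m : ℕ := ⌈((d : ℝ) * n + 1) / ς⌉₊ + 1 with hm
  have hm1 : ((d : ℝ) * n + 1) / ς + 1 ≤ m := by
    rw [hm]; push_cast
    linarith [Nat.le_ceil (((d : ℝ) * n + 1) / ς)]
  have hςη : ς * (d * n) ≤ η / 2 := by
    have e : ς * (d * n) = (η / 2) * (d / (d + 1)) := by
      rw [hς]; field_simp
    rw [e]
    have h1 : (d : ℝ) / (d + 1) ≤ 1 := by
      rw [div_le_one (by positivity)]; linarith
    have h2 : 0 ≤ η / 2 := by linarith
    calc η / 2 * (d / (d + 1)) ≤ η / 2 * 1 := mul_le_mul_of_nonneg_left h1 h2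
      _ = η / 2 := mul_one _
  set P : Finset (Fin d → ℤ) :=
    Fintype.piFinset (fun _ : Fin d => Finset.Icc (-(m : ℤ)) m) with hP
  have hPne : P.Nonempty := ⟨0, by
    rw [hP, Fintype.mem_piFinset]
    intro i
    simp⟩
  have hPlat : LatConv P := latConv_piIcc _ _
  have hPcard : Real.log P.card ≤ (d * (2 + Real.log (16 * ((d : ℝ) + 1) ^ 2))) * Lg := by
    have h1 : P.card = (2 * m + 1) ^ d := by
      rw [hP, Fintype.card_piFinset]
      simp only [Int.card_Icc, Finset.prod_const, Finset.card_univ, Fintype.card_fin]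
      congr 1
      omega
    rw [h1]
    push_cast
    rw [Real.log_pow, mul_assoc]
    apply mul_le_mul_of_nonneg_left _ hd0
    have h2 : (2 * (m : ℝ) + 1) ≤ (16 * ((d : ℝ) + 1) ^ 2) * (n ^ 2 * (1 / η)) := by
      have h3 : (m : ℝ) ≤ ((d : ℝ) * n + 1) / ς + 2 := by
        rw [hm]; push_cast
        have : 0 ≤ ((d : ℝ) * n + 1) / ς := by positivity
        linarith [Nat.ceil_lt_add_one this]
      have h4 : ((d : ℝ) * n + 1) / ς = ((d : ℝ) * n + 1) * (2 * (d + 1) * n) * (1 / η) := by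
        rw [hς]; field_simp
      have h5 : 1 ≤ 1 / η := by rw [le_div_iff₀ hη]; linarith
      have h6 : ((d : ℝ) * n + 1) ≤ (d + 1) * n := by nlinarith
      have h7 : ((d : ℝ) * n + 1) * (2 * (d + 1) * n) ≤ 2 * (d + 1) ^ 2 * n ^ 2 := by
        calc ((d : ℝ) * n + 1) * (2 * (d + 1) * n) ≤ ((d + 1) * n) * (2 * (d + 1) * n) :=
              mul_le_mul_of_nonneg_right h6 (by positivity)
          _ = 2 * (d + 1) ^ 2 * n ^ 2 := by ring
      have h8 : ((d : ℝ) * n + 1) / ς ≤ (2 * (d + 1) ^ 2 * n ^ 2) * (1 / η) := by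
        rw [h4]; exact mul_le_mul_of_nonneg_right h7 (by linarith)
      have h9 : (1 : ℝ) ≤ (d + 1) ^ 2 * n ^ 2 * (1 / η) := by
        have e1 : (1 : ℝ) ≤ ((d : ℝ) + 1) ^ 2 := by nlinarith
        have e2 : (1 : ℝ) ≤ (n : ℝ) ^ 2 := by nlinarith
        have e3 : (1 : ℝ) ≤ ((d : ℝ) + 1) ^ 2 * n ^ 2 := by nlinarith
        nlinarith
      nlinarith
    calc Real.log (2 * (m : ℝ) + 1)
        ≤ Real.log ((16 * ((d : ℝ) + 1) ^ 2) * (n ^ 2 * (1 / η))) :=
          Real.log_le_log (by positivity) h2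
      _ = Real.log (16 * ((d : ℝ) + 1) ^ 2) + (2 * Real.log n + Real.log (1 / η)) := by
          have e1 : Real.log ((16 * ((d : ℝ) + 1) ^ 2) * (n ^ 2 * (1 / η))) =
              Real.log (16 * ((d : ℝ) + 1) ^ 2) + Real.log (n ^ 2 * (1 / η)) :=
            Real.log_mul (by positivity) (by positivity)
          have e2 : Real.log ((n : ℝ) ^ 2 * (1 / η)) = Real.log ((n : ℝ) ^ 2) +
              Real.log (1 / η) := Real.log_mul (by positivity) (by positivity)
          have e3 : Real.log ((n : ℝ) ^ 2) = 2 * Real.log n := by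
            rw [Real.log_pow]; norm_num
          rw [e1, e2, e3]
      _ ≤ (2 + Real.log (16 * ((d : ℝ) + 1) ^ 2)) * Lg := by nlinarith
  have hPlog0 := log_card_nonneg hPne
  -- uniform number of queries
  set y : ℝ := q * (1 + 2 ^ (d + 1) * Real.log P.card) with hy
  have hy0 : 0 ≤ y := by positivity
  refine ⟨1 + ⌊y⌋₊, ?_, fun z hz => ?_⟩
  · push_cast
    have h1 := Nat.floor_le hy0
    set D : ℝ := d * (2 + Real.log (16 * ((d : ℝ) + 1) ^ 2)) with hD
    have hD0 : 0 ≤ D := by positivity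
    have h2 : 1 + 2 ^ (d + 1) * Real.log P.card ≤ (1 + 2 ^ (d + 1) * D) * Lg := by
      have h3 : (2 : ℝ) ^ (d + 1) * Real.log P.card ≤ 2 ^ (d + 1) * (D * Lg) :=
        mul_le_mul_of_nonneg_left hPcard (by positivity)
      nlinarith
    have h3 : y ≤ ((1 + A * (1 + d)) * Lg) * ((1 + 2 ^ (d + 1) * D) * Lg) := by
      rw [hy]
      exact mul_le_mul hqLg h2 (by positivity) (by positivity)
    have h4 : (1 : ℝ) ≤ Lg ^ 2 := by nlinarith
    have h5 : Cd * Lg ^ 2 = Lg ^ 2 + ((1 + A * (1 + d)) * Lg) * ((1 + 2 ^ (d + 1) * D) * Lg) := by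
      rw [hCd]; ring
    rw [h5]
    linarith
  · have halg := fun r : ℝ => sgAlg hq z (ς := ς) hη r P.card P rfl hPlat hPne
    choose q' hq'' Φ hΦc hΦ using halg
    have hΦc' : ∀ r, Comp ⌊y⌋₊ (Φ r) := fun r => (hΦc r).mono (Nat.le_floor (hq'' r))
    let post : ℝ → Option (Fin d → ℤ) → Option ((Fin d → ℝ) × ℝ) := fun r o =>
      match o with
      | none => none
      | some a => if ∀ w ∈ Box d n, r + (ς • toR a) ⬝ᵥ toR (w - z) ≤ 1 + η then
          some (ς • toR a, r) else none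
    refine ⟨fun f => post (f z) (Φ (f z) f), ?_, ?_, ?_⟩
    · have h1 := Comp.bind (Comp.val z) (fun r f => post r (Φ r f))
        (fun r => (hΦc' r).map (post r))
      exact h1
    · intro f p r hf
      simp only [post] at hf
      split at hf
      · exact absurd hf (by simp)
      · rename_i a ha
        split_ifs at hf with h
        simp only [Option.some.injEq, Prod.mk.injEq] at hf
        obtain ⟨rfl, rfl⟩ := hf
        exact ⟨rfl, h⟩
    · intro f hf1 hf
      obtain ⟨p, hpB, hp⟩ := hf z hz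
      have h1 := exists_rounded hz hςpos hςη p hpB hp m hm1
      obtain ⟨a, ha, hval⟩ := hΦ (f z) f rfl hf.subConv h1
      refine ⟨ς • toR a, ?_, hval⟩
      simp only [post, ha]
      rw [if_pos]
      intro w hw
      have := hval w hw
      linarith [hf1 w hw]

end Pool.Agent.H.MP_f23a5d_lc
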